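import Pool.Agent.Q94.KR.Stm

/-! Job K1 of project KR (author helper94): the Laplacian at a maximum, and of `‖f‖²`. -/

set_option autoImplicit false

open MeasureTheory Set Filter Topology Metric
open scoped ContDiff InnerProductSpace

namespace Q94.KR

/-- the line through `z` in direction `v` -/
theorem hasDerivAt_line_298 (z v : ℂ) (t : ℝ) : HasDerivAt (fun t : ℝ => z + t * v) v t := by
  have h := ((Complex.ofRealCLM.hasDerivAt (x := t)).mul_const v).const_add z
  simpa using h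

theorem tendsto_line_298 (z v : ℂ) : Tendsto (fun t : ℝ => z + t * v) (𝓝 0) (𝓝 z) := by
  have h := (hasDerivAt_line_298 z v 0).continuousAt.tendsto
  simpa using h

/-- second derivatives along lines -/
theorem line_facts_298 (u : ℂ → ℝ) (z v : ℂ) (hu : ContDiffAt ℝ 2 u z) :
    (∀ᶠ t : ℝ in 𝓝 (0 : ℝ), HasDerivAt (fun t : ℝ => u (z + t * v)) (fderiv ℝ u (z + t * v) v) t) ∧
    HasDerivAt (fun t : ℝ => fderiv ℝ u (z + t * v) v) (iteratedFDeriv ℝ 2 u z ![v, v]) 0 := by
  constructor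
  · have h1 : ∀ᶠ w in 𝓝 z, DifferentiableAt ℝ u w := by
      have h2 : ∀ᶠ w in 𝓝 z, ContDiffAt ℝ 2 u w := hu.eventually (by simp)
      filter_upwards [h2] with w hw
      exact hw.differentiableAt (by norm_num)
    filter_upwards [(tendsto_line_298 z v).eventually h1] with t ht
    exact ht.hasFDerivAt.comp_hasDerivAt t (hasDerivAt_line_298 z v t)
  · have h1 : ContDiffAt ℝ 1 (fderiv ℝ u) z := hu.fderiv_right (by norm_num)
    have h2 : HasFDerivAt (fderiv ℝ u) (fderiv ℝ (fderiv ℝ u) z) z :=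
      (h1.differentiableAt (by norm_num)).hasFDerivAt
    have e : z = z + ((0 : ℝ) : ℂ) * v := by simp
    rw [e] at h2
    have h3 := h2.comp_hasDerivAt (0 : ℝ) (hasDerivAt_line_298 z v 0)
    have h4 := h3.clm_apply (hasDerivAt_const (0 : ℝ) v)
    rw [iteratedFDeriv_two_apply]
    simpa using h4

theorem deriv_deriv_of_298 (φ φ' : ℝ → ℝ) (a : ℝ) (h1 : ∀ᶠ t : ℝ in 𝓝 (0 : ℝ), HasDerivAt φ (φ' t) t)
    (h2 : HasDerivAt φ' a 0) : deriv (deriv φ) 0 = a := by
  have h3 : deriv φ =ᶠ[𝓝 0] φ' := by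
    filter_upwards [h1] with t ht
    exact ht.deriv
  rw [h3.deriv_eq, h2.deriv]

/-- the Laplacian through second derivatives along lines -/
theorem lap_eq_298 (u : ℂ → ℝ) (z : ℂ) (hu : ContDiffAt ℝ 2 u z) :
    lap u z = deriv (deriv (fun t : ℝ => u (z + t * 1))) 0 +
      deriv (deriv (fun t : ℝ => u (z + t * Complex.I))) 0 := by
  have h := congrFun (InnerProductSpace.laplacian_eq_iteratedFDeriv_complexPlane u) z
  have e1 := line_facts_298 u z 1 hu
  have e2 := line_facts_298 u z Complex.I hu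
  rw [deriv_deriv_of_298 _ _ _ e1.1 e1.2, deriv_deriv_of_298 _ _ _ e2.1 e2.2]
  exact h

theorem second_nonpos_298 (φ : ℝ → ℝ) (hd : ∀ᶠ t : ℝ in 𝓝 (0 : ℝ), DifferentiableAt ℝ φ t)
    (hmax : IsLocalMax φ 0) : deriv (deriv φ) 0 ≤ 0 := by
  by_contra hcon
  push Not at hcon
  have h1 : deriv φ 0 = 0 := hmax.deriv_eq_zero
  have h2 := isLocalMin_of_deriv_deriv_pos hcon h1 hd.self_of_nhds.continuousAt
  have h3 : φ =ᶠ[𝓝 0] fun _ => φ 0 := by
    filter_upwards [hmax, h2] with t ht1 ht2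
    exact le_antisymm ht1 ht2
  have h4 : deriv φ =ᶠ[𝓝 0] fun _ => 0 := by
    have := h3.deriv
    simpa using this
  rw [h4.deriv_eq] at hcon
  simp at hcon

theorem mx : MX := by
  intro u z hu hmax
  rw [lap_eq_298 u z hu]
  have key : ∀ v : ℂ, deriv (deriv (fun t : ℝ => u (z + t * v))) 0 ≤ 0 := by
    intro v
    refine second_nonpos_298 _ ?_ ?_
    · filter_upwards [(line_facts_298 u z v hu).1] with t ht
      exact ht.differentiableAt
    · have h1 := (tendsto_line_298 z v).eventually hmax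
      filter_upwards [h1] with t ht
      simpa using ht
  exact add_nonpos (key 1) (key Complex.I)

/-- `‖f‖²` along a line -/
theorem line_sq_298 (f : ℂ → ℂ) (z v : ℂ) (hf : AnalyticAt ℂ f z) :
    (∀ᶠ t : ℝ in 𝓝 (0 : ℝ), HasDerivAt (fun t : ℝ => ‖f (z + t * v)‖ ^ 2)
      (2 * inner ℝ (f (z + t * v)) (deriv f (z + t * v) * v)) t) ∧
    HasDerivAt (fun t : ℝ => 2 * inner ℝ (f (z + t * v)) (deriv f (z + t * v) * v))
      (2 * (inner ℝ (f z) (deriv (deriv f) z * v * v) + ‖deriv f z * v‖ ^ 2)) 0 := by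
  have hg : ∀ᶠ t : ℝ in 𝓝 (0 : ℝ), HasDerivAt (fun t : ℝ => f (z + t * v))
      (deriv f (z + t * v) * v) t := by
    have h1 : ∀ᶠ w in 𝓝 z, AnalyticAt ℂ f w := hf.eventually_analyticAt
    filter_upwards [(tendsto_line_298 z v).eventually h1] with t ht
    exact (ht.differentiableAt.hasDerivAt).comp t (hasDerivAt_line_298 z v t)
  have hg2 : HasDerivAt (fun t : ℝ => deriv f (z + t * v) * v) (deriv (deriv f) z * v * v) 0 := by
    have h2 := hf.deriv.differentiableAt.hasDerivAt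
    have e : z = z + ((0 : ℝ) : ℂ) * v := by simp
    rw [e] at h2
    have h3 := (h2.comp (0 : ℝ) (hasDerivAt_line_298 z v 0)).mul_const v
    simpa using h3
  constructor
  · filter_upwards [hg] with t ht
    exact ht.norm_sq
  · have h0 := hg.self_of_nhds
    have h3 := (h0.inner ℝ hg2).const_mul 2
    refine h3.congr_deriv ?_
    simp only [Complex.ofReal_zero, zero_mul, add_zero]
    rw [real_inner_self_eq_norm_sq]

theorem contDiffAt_sq_298 (f : ℂ → ℂ) (z : ℂ) (hf : AnalyticAt ℂ f z) :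
    ContDiffAt ℝ 2 (fun w => ‖f w‖ ^ 2) z := by
  have h1 : ContDiffAt ℝ 2 f z := (hf.contDiffAt (n := 2)).restrict_scalars ℝ
  exact h1.norm_sq ℝ

theorem lq : LQ := by
  intro f z hf
  refine ⟨contDiffAt_sq_298 f z hf, ?_⟩
  rw [lap_eq_298 _ z (contDiffAt_sq_298 f z hf)]
  have e1 := line_sq_298 f z 1 hf
  have e2 := line_sq_298 f z Complex.I hf
  rw [deriv_deriv_of_298 _ _ _ e1.1 e1.2, deriv_deriv_of_298 _ _ _ e2.1 e2.2]
  have h1 : deriv (deriv f) z * Complex.I * Complex.I = -(deriv (deriv f) z * 1 * 1) := by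
    rw [mul_assoc, Complex.I_mul_I]; ring
  rw [h1, inner_neg_right, norm_mul, norm_mul, Complex.norm_I, norm_one]
  ring

end Q94.KR
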