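import Pool.Agent.Q94.KR.Stm
import Pool.Agent.W143.DQ.Schauder

open MeasureTheory Set Filter Topology Metric
open scoped ContDiff InnerProductSpace NNReal

namespace Q94.KR

abbrev XX := closedBall (0 : ℂ) 1

instance : CompactSpace XX := isCompact_iff_compactSpace.1 (isCompact_closedBall 0 1)

open Classical in
/-- Extension by zero of a function on the closed ball. -/
noncomputable def ext0 (f : C(XX, ℂ)) (z : ℂ) : ℂ :=
  if h : z ∈ closedBall (0 : ℂ) 1 then f ⟨z, h⟩ else 0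

lemma ext0_apply (f : C(XX, ℂ)) {z : ℂ} (h : z ∈ closedBall (0 : ℂ) 1) : ext0 f z = f ⟨z, h⟩ := by
  unfold ext0
  rw [dif_pos h]

lemma ext0_cont (f : C(XX, ℂ)) : ContinuousOn (ext0 f) (closedBall 0 1) := by
  rw [continuousOn_iff_continuous_domRestrict]
  have : (closedBall (0 : ℂ) 1).domRestrict (ext0 f) = f := by
    ext z
    simp only [domRestrict_apply]
    rw [ext0_apply f z.2]
  rw [this]
  exact f.continuous

/-- The compact convex set. -/
def KK (M : ℝ) : Set C(XX, ℂ) :=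
  {f | f ⟨0, by simp⟩ = 0 ∧ ∀ z w, ‖f z - f w‖ ≤ M * ‖(z : ℂ) - w‖}

lemma KK_convex (M : ℝ) : Convex ℝ (KK M) := by
  rintro f ⟨hf0, hf⟩ g ⟨hg0, hg⟩ a b ha hb hab
  refine ⟨by simp [hf0, hg0], fun z w => ?_⟩
  have h1 : (a • f + b • g) z - (a • f + b • g) w = a • (f z - f w) + b • (g z - g w) := by
    simp only [ContinuousMap.add_apply, ContinuousMap.smul_apply, smul_sub]
    ring
  rw [h1]
  calc ‖a • (f z - f w) + b • (g z - g w)‖ ≤ ‖a • (f z - f w)‖ + ‖b • (g z - g w)‖ :=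
        norm_add_le _ _
    _ = a * ‖f z - f w‖ + b * ‖g z - g w‖ := by
        rw [norm_smul, norm_smul, Real.norm_of_nonneg ha, Real.norm_of_nonneg hb]
    _ ≤ a * (M * ‖(z : ℂ) - w‖) + b * (M * ‖(z : ℂ) - w‖) :=
        add_le_add (mul_le_mul_of_nonneg_left (hf z w) ha) (mul_le_mul_of_nonneg_left (hg z w) hb)
    _ = M * ‖(z : ℂ) - w‖ := by rw [← add_mul, hab, one_mul]

lemma KK_compact {M : ℝ} (hM : 0 ≤ M) : IsCompact (KK M) := by
  apply ArzelaAscoli.isCompact_of_equicontinuous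
  · have himg : (ContinuousMap.toFun '' (KK M)) =
        {f : XX → ℂ | f ⟨0, by simp⟩ = 0 ∧ ∀ z w, ‖f z - f w‖ ≤ M * ‖(z : ℂ) - w‖} := by
      ext f
      constructor
      · rintro ⟨g, hg, rfl⟩
        exact hg
      · intro hf
        have hc : Continuous f := by
          have : LipschitzWith ⟨M, hM⟩ f := LipschitzWith.of_dist_le_mul fun z w => by
            rw [dist_eq_norm, Subtype.dist_eq, dist_eq_norm]
            exact hf.2 z w
          exact this.continuous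
        exact ⟨⟨f, hc⟩, hf, rfl⟩
    rw [himg]
    have hcl : IsClosed {f : XX → ℂ | f ⟨0, by simp⟩ = 0 ∧
        ∀ z w, ‖f z - f w‖ ≤ M * ‖(z : ℂ) - w‖} := by
      have h2 : {f : XX → ℂ | f ⟨0, by simp⟩ = 0 ∧ ∀ z w, ‖f z - f w‖ ≤ M * ‖(z : ℂ) - w‖} =
          {f : XX → ℂ | f ⟨0, by simp⟩ = 0} ∩
          ⋂ z, ⋂ w, {f : XX → ℂ | ‖f z - f w‖ ≤ M * ‖(z : ℂ) - w‖} := by
        ext f; simp
      rw [h2]
      refine IsClosed.inter (isClosed_eq (continuous_apply _) continuous_const) ?_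
      refine isClosed_iInter fun z => isClosed_iInter fun w => ?_
      exact isClosed_le (((continuous_apply z).sub (continuous_apply w)).norm) continuous_const
    have hK : IsCompact (Set.pi univ fun _ : XX => closedBall (0 : ℂ) M) :=
      isCompact_univ_pi fun _ => isCompact_closedBall _ _
    refine hK.of_isClosed_subset hcl fun f hf z _ => ?_
    rw [mem_closedBall_zero_iff]
    have h1 := hf.2 z ⟨0, by simp⟩
    rw [hf.1, sub_zero] at h1
    have h2 : ‖(z : ℂ)‖ ≤ 1 := mem_closedBall_zero_iff.1 z.2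
    calc ‖f z‖ ≤ M * ‖(z : ℂ) - ((⟨0, by simp⟩ : XX) : ℂ)‖ := h1
      _ ≤ M * 1 := by
          apply mul_le_mul_of_nonneg_left _ hM
          simpa using h2
      _ = M := mul_one M
  · refine (LipschitzWith.uniformEquicontinuous _ (⟨M, hM⟩ : ℝ≥0) fun f => ?_).equicontinuous
    refine LipschitzWith.of_dist_le_mul fun z w => ?_
    rw [dist_eq_norm, Subtype.dist_eq, dist_eq_norm]
    exact f.2.2 z w

theorem fp (hs : ST) (hc : SC) : FP := by
  intro P Φ M hP hPne hΦ hΦ1 hM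
  have hkc : ∀ f : C(XX, ℂ), ContinuousOn (fun ζ => M * Φ (ext0 f ζ)) (sphere 0 1) := fun f =>
    (continuousOn_const.mul (hΦ.comp_continuousOn ((ext0_cont f).mono sphere_subset_closedBall)))
  have hkb : ∀ f : C(XX, ℂ), ∀ ζ ∈ sphere (0 : ℂ) 1,
      0 < M * Φ (ext0 f ζ) ∧ M * Φ (ext0 f ζ) ≤ M := fun f ζ _ =>
    ⟨mul_pos hM (hΦ1 _).1, mul_le_of_le_one_right hM.le (hΦ1 _).2⟩
  have hST := fun f => hs P (fun ζ => M * Φ (ext0 f ζ)) M hP hPne (hkc f) (hkb f)
  have hLip : ∀ f : C(XX, ℂ), ∀ z ∈ ball (0 : ℂ) 1, ∀ w ∈ ball (0 : ℂ) 1,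
      ‖Op P (fun ζ => M * Φ (ext0 f ζ)) z - Op P (fun ζ => M * Φ (ext0 f ζ)) w‖ ≤
        M * ‖z - w‖ := by
    intro f z hz w hw
    exact (convex_ball 0 1).norm_image_sub_le_of_norm_deriv_le
      (fun x hx => (hST f).1.differentiableAt (isOpen_ball.mem_nhds hx)) (hST f).2.2.2.1 hw hz
  have hex : ∀ f : C(XX, ℂ), ∃ g : C(XX, ℂ), g ∈ KK M ∧ ∀ z (hz : z ∈ ball (0 : ℂ) 1),
      g ⟨z, ball_subset_closedBall hz⟩ = Op P (fun ζ => M * Φ (ext0 f ζ)) z := by
    intro f
    have hl : LipschitzOnWith ⟨M, hM.le⟩ (Op P (fun ζ => M * Φ (ext0 f ζ))) (ball 0 1) :=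
      LipschitzOnWith.of_dist_le_mul fun z hz w hw => by
        rw [dist_eq_norm, dist_eq_norm]
        exact hLip f z hz w hw
    obtain ⟨g, hg, hge⟩ := hl.extend_finite_dimension
    have hgl : ∀ z ∈ closedBall (0 : ℂ) 1, ∀ w ∈ closedBall (0 : ℂ) 1,
        ‖g z - g w‖ ≤ M * ‖z - w‖ := by
      have hcl : IsClosed {p : ℂ × ℂ | ‖g p.1 - g p.2‖ ≤ M * ‖p.1 - p.2‖} := by
        apply isClosed_le
        · exact ((hg.continuous.comp continuous_fst).sub (hg.continuous.comp continuous_snd)).norm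
        · fun_prop
      have hsub : (ball (0 : ℂ) 1) ×ˢ (ball (0 : ℂ) 1) ⊆
          {p : ℂ × ℂ | ‖g p.1 - g p.2‖ ≤ M * ‖p.1 - p.2‖} := by
        rintro ⟨z, w⟩ ⟨hz, hw⟩
        change ‖g z - g w‖ ≤ M * ‖z - w‖
        rw [← hge hz, ← hge hw]
        exact hLip f z hz w hw
      have h3 := closure_minimal hsub hcl
      rw [closure_prod_eq, closure_ball (0 : ℂ) one_ne_zero] at h3
      intro z hz w hw
      exact h3 (⟨hz, hw⟩ : (z, w) ∈ closedBall (0 : ℂ) 1 ×ˢ closedBall (0 : ℂ) 1)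
    refine ⟨⟨fun z => g z, hg.continuous.comp continuous_subtype_val⟩, ⟨?_, ?_⟩, ?_⟩
    · change g 0 = 0
      rw [← hge (mem_ball_self one_pos)]
      exact (hST f).2.1
    · intro z w
      exact hgl z z.2 w w.2
    · intro z hz
      exact (hge hz).symm
  choose T hTK hT using hex
  have hpt : ∀ f₀ : C(XX, ℂ), ∀ z (hz : z ∈ ball (0 : ℂ) 1),
      Tendsto (fun f => T f ⟨z, ball_subset_closedBall hz⟩) (𝓝 f₀)
        (𝓝 (T f₀ ⟨z, ball_subset_closedBall hz⟩)) := by
    intro f₀ z hz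
    rw [Metric.tendsto_nhds]
    intro ε hε
    obtain ⟨δ, hδ, hd⟩ := hc P (fun ζ => M * Φ (ext0 f₀ ζ)) hP hPne (hkc f₀)
      (fun ζ hζ => (hkb f₀ ζ hζ).1) z hz (ε / 2) (by positivity)
    have hpc : Continuous (fun f : C(XX, ℂ) => (⟨Φ, hΦ⟩ : C(ℂ, ℝ)).comp f) :=
      ContinuousMap.continuous_postcomp _
    have h1 := hpc.tendsto f₀
    rw [Metric.tendsto_nhds] at h1
    filter_upwards [h1 (δ / M) (by positivity)] with f hf
    rw [hT f z hz, hT f₀ z hz, dist_eq_norm]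
    refine lt_of_le_of_lt (hd _ (hkc f) fun ζ hζ => ⟨(hkb f ζ hζ).1, ?_⟩) (by linarith)
    have hζ' := sphere_subset_closedBall hζ
    have h2 := (ContinuousMap.dist_lt_iff (by positivity)).1 hf ⟨ζ, hζ'⟩
    simp only [ContinuousMap.comp_apply, ContinuousMap.coe_mk, Real.dist_eq] at h2
    rw [ext0_apply f hζ', ext0_apply f₀ hζ', ← mul_sub, abs_mul, abs_of_pos hM]
    rw [lt_div_iff₀ hM] at h2
    linarith
  have hcont : ContinuousOn T (KK M) := by
    intro f₀ _
    rw [ContinuousWithinAt, tendsto_iff_ultrafilter]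
    intro U hU
    have hUK : (U.map T : Filter C(XX, ℂ)) ≤ 𝓟 (KK M) := by
      rw [le_principal_iff]
      exact Filter.mem_map.2 (Filter.univ_mem' hTK)
    obtain ⟨g, hgK, hg⟩ := (KK_compact hM.le).ultrafilter_le_nhds (U.map T) hUK
    have hgT : g = T f₀ := by
      have he : EqOn (ext0 g) (ext0 (T f₀)) (ball 0 1) := by
        intro z hz
        rw [ext0_apply g (ball_subset_closedBall hz), ext0_apply (T f₀) (ball_subset_closedBall hz)]
        have h1 : Tendsto (fun f => T f ⟨z, ball_subset_closedBall hz⟩) U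
            (𝓝 (g ⟨z, ball_subset_closedBall hz⟩)) := by
          have h2 : Continuous (fun f : C(XX, ℂ) => f ⟨z, ball_subset_closedBall hz⟩) :=
            continuous_eval_const _
          exact (h2.tendsto g).comp hg
        have h3 : Tendsto (fun f => T f ⟨z, ball_subset_closedBall hz⟩) U
            (𝓝 (T f₀ ⟨z, ball_subset_closedBall hz⟩)) :=
          (hpt f₀ z hz).mono_left (hU.trans nhdsWithin_le_nhds)
        exact tendsto_nhds_unique h1 h3
      have he2 : EqOn (ext0 g) (ext0 (T f₀)) (closedBall 0 1) :=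
        he.of_subset_closure (ext0_cont _) (ext0_cont _) ball_subset_closedBall
          (by rw [closure_ball (0 : ℂ) one_ne_zero])
      ext z
      have h4 := he2 z.2
      rwa [ext0_apply g z.2, ext0_apply (T f₀) z.2] at h4
    rw [← hgT]
    exact hg
  obtain ⟨f, hfK, hf⟩ := Pool.Agent.W143.DQ.schauder (KK_compact hM.le) (KK_convex M)
    ⟨0, by simp [KK]; intros; positivity⟩ T hcont (fun f _ => hTK f)
  refine ⟨ext0 f, ext0_cont f, fun z hz => ?_⟩
  rw [← hT f z hz, hf, ext0_apply f (ball_subset_closedBall hz)]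

end Q94.KR
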