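import Pool.Agent.Q94.KR.Stm

open MeasureTheory Set Filter Topology Metric
open scoped ContDiff InnerProductSpace NNReal ComplexConjugate

namespace Q94.KR

theorem ph : PH := by
  intro t0 h0 h1
  have h10 : 0 < 1 - t0 := by linarith
  refine ⟨?_, ?_, ?_⟩
  · have hg : Continuous (fun w : ℂ => gg t0 (‖w‖ ^ 2)) := by
      unfold gg
      refine continuous_if_le (f := fun w : ℂ => ‖w‖ ^ 2) (g := fun _ => t0) (by fun_prop)
        continuous_const ?_ ?_ ?_
      · intro w hw
        have hw' : ‖w‖ ^ 2 ≤ t0 := hw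
        have h2 : (1 : ℝ) - ‖w‖ ^ 2 ≠ 0 := by linarith
        exact (((continuous_const.sub (continuous_norm.pow 2)).continuousAt.log
          h2).neg).continuousWithinAt
      · fun_prop
      · intro w hw
        rw [hw]
        ring
    exact Real.continuous_exp.comp hg.neg
  · intro w
    refine ⟨Real.exp_pos _, ?_⟩
    unfold Ph
    rw [Real.exp_le_one_iff, neg_nonpos]
    unfold gg
    have hl : 0 ≤ -Real.log (1 - t0) := by
      rw [neg_nonneg]
      exact Real.log_nonpos h10.le (by linarith)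
    split_ifs with h
    · rw [neg_nonneg]
      exact Real.log_nonpos (by linarith) (by nlinarith [sq_nonneg ‖w‖])
    · have h3 : 0 ≤ 2 / (1 - t0) * (‖w‖ ^ 2 - t0) :=
        mul_nonneg (by positivity) (by linarith)
      linarith
  · intro w hw
    unfold Ph gg
    rw [if_pos hw, neg_neg, Real.exp_log (by linarith)]

lemma hasDerivAt_tanh' (x : ℝ) : HasDerivAt Real.tanh (1 - Real.tanh x ^ 2) x := by
  have h1 : HasDerivAt (fun x => Real.sinh x / Real.cosh x)
      ((Real.cosh x * Real.cosh x - Real.sinh x * Real.sinh x) / Real.cosh x ^ 2) x :=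
    (Real.hasDerivAt_sinh x).div (Real.hasDerivAt_cosh x) (Real.cosh_pos x).ne'
  have h2 : Real.tanh = fun x => Real.sinh x / Real.cosh x := funext Real.tanh_eq_sinh_div_cosh
  have h3 : (Real.cosh x * Real.cosh x - Real.sinh x * Real.sinh x) / Real.cosh x ^ 2 =
      1 - Real.tanh x ^ 2 := by
    rw [Real.tanh_eq_sinh_div_cosh]
    have := (Real.cosh_pos x).ne'
    field_simp
  rw [h2] at *
  rw [← h3]
  exact h1

theorem aq (h : PH) : AQ := by
  intro M f hM hf hf0 hb z1 hz1
  set t0 := Real.tanh (M + 1) ^ 2 with ht0d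
  have ht1 : Real.tanh (M + 1) < 1 := Real.tanh_lt_one _
  have ht0 : 0 < Real.tanh (M + 1) := by
    rw [Real.tanh_eq_sinh_div_cosh]
    exact div_pos (Real.sinh_pos_iff.2 (by linarith)) (Real.cosh_pos _)
  have ht0' : 0 < t0 := by positivity
  have ht1' : t0 < 1 := by
    rw [ht0d]
    nlinarith
  obtain ⟨-, -, he⟩ := h t0 ht0' ht1'
  have hz : ‖z1‖ < 1 := mem_ball_zero_iff.1 hz1
  have hin : ∀ t ∈ Icc (0 : ℝ) 1, (t : ℂ) * z1 ∈ ball (0 : ℂ) 1 := by
    intro t ht
    rw [mem_ball_zero_iff, norm_mul, Complex.norm_real, Real.norm_of_nonneg ht.1]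
    nlinarith [norm_nonneg z1, ht.1, ht.2]
  have hder : ∀ t ∈ Icc (0 : ℝ) 1, HasDerivAt (fun t : ℝ => f ((t : ℂ) * z1))
      (deriv f ((t : ℂ) * z1) * z1) t := by
    intro t ht
    have h1 : HasDerivAt (fun t : ℝ => (t : ℂ) * z1) z1 t := by
      have h2 : HasDerivAt (fun t : ℝ => (t : ℂ)) 1 t := Complex.ofRealCLM.hasDerivAt
      simpa using h2.mul_const z1
    exact ((hf.differentiableAt (isOpen_ball.mem_nhds (hin t ht))).hasDerivAt).comp t h1
  have hB : ∀ t : ℝ, HasDerivAt (fun t : ℝ => Real.tanh ((M + 1) * t))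
      ((1 - Real.tanh ((M + 1) * t) ^ 2) * (M + 1)) t := by
    intro t
    have h1 : HasDerivAt (fun t : ℝ => (M + 1) * t) (M + 1) t := by
      simpa using (hasDerivAt_id t).const_mul (M + 1)
    exact (hasDerivAt_tanh' _).comp t h1
  have hmain := image_norm_le_of_norm_deriv_right_lt_deriv_boundary (a := 0) (b := 1)
    (f := fun t : ℝ => f ((t : ℂ) * z1)) (f' := fun t => deriv f ((t : ℂ) * z1) * z1)
    (fun t ht => (hder t ht).continuousAt.continuousWithinAt)
    (fun t ht => (hder t ⟨ht.1, ht.2.le⟩).hasDerivWithinAt)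
    (B := fun t : ℝ => Real.tanh ((M + 1) * t))
    (B' := fun t => (1 - Real.tanh ((M + 1) * t) ^ 2) * (M + 1)) (by simp [hf0]) hB
    (by
      intro t ht hft
      have htI : t ∈ Icc (0 : ℝ) 1 := ⟨ht.1, ht.2.le⟩
      have h1 : Real.tanh ((M + 1) * t) ≤ Real.tanh (M + 1) := by
        have hmono : Monotone Real.tanh := by
          refine monotone_of_hasDerivAt_nonneg hasDerivAt_tanh' fun x => ?_
          have h5 := Real.tanh_lt_one x
          have h6 := Real.neg_one_lt_tanh x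
          simp only [Pi.zero_apply]
          nlinarith
        exact hmono (by nlinarith [ht.2])
      have h2 : 0 ≤ ‖f ((t : ℂ) * z1)‖ := norm_nonneg _
      have h3 : ‖f ((t : ℂ) * z1)‖ ^ 2 ≤ t0 := by
        rw [ht0d]
        exact pow_le_pow_left₀ h2 (hft.le.trans h1) 2
      have h4 := hb _ (hin t htI)
      rw [he _ h3] at h4
      have h5 : 0 < 1 - ‖f ((t : ℂ) * z1)‖ ^ 2 := by linarith
      rw [norm_mul]
      rw [← hft]
      calc ‖deriv f ((t : ℂ) * z1)‖ * ‖z1‖ ≤ (M * (1 - ‖f ((t : ℂ) * z1)‖ ^ 2)) * 1 :=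
            mul_le_mul h4 hz.le (norm_nonneg _) (by positivity)
        _ < (1 - ‖f ((t : ℂ) * z1)‖ ^ 2) * (M + 1) := by nlinarith)
  have h1 := hmain (⟨zero_le_one, le_rfl⟩ : (1 : ℝ) ∈ Icc (0 : ℝ) 1)
  simpa using h1

end Q94.KR
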