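import Pool.Agent.Q94.KR.K4

/-! Job K12 of project KR (author helper94): interior gradient bound. -/

set_option autoImplicit false

open MeasureTheory Set Filter Topology Metric
open scoped ContDiff InnerProductSpace

namespace Q94.KR

theorem gg_eq_298 (t0 t : ℝ) : gg t0 t =
    -Real.log (1 - min t t0) + 2 / (1 - t0) * max (t - t0) 0 := by
  rw [gg]
  split_ifs with h
  · rw [min_eq_left h, max_eq_right (by linarith), mul_zero, add_zero]
  · push Not at h
    rw [min_eq_right h.le, max_eq_left (by linarith)]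

theorem gg_cont_298 (t0 : ℝ) (h1 : t0 < 1) : Continuous (gg t0) := by
  have h : gg t0 = fun t => -Real.log (1 - min t t0) + 2 / (1 - t0) * max (t - t0) 0 := by
    funext t; exact gg_eq_298 t0 t
  rw [h]
  have h2 : ∀ t : ℝ, (1 : ℝ) - min t t0 ≠ 0 := by
    intro t
    have := min_le_right t t0
    intro h0
    linarith
  have h3 : Continuous fun t : ℝ => Real.log (1 - min t t0) :=
    Continuous.log (by fun_prop) h2
  fun_prop

/-- comparison of the weight near `t ≤ t0` -/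
theorem gg_ge_298 (t0 t : ℝ) (h1 : t0 < 1) (ht : t < (1 + t0) / 2) :
    -Real.log (1 - t) ≤ gg t0 t := by
  rw [gg]
  split_ifs with h
  · exact le_rfl
  · push Not at h
    have a1 : 0 < 1 - t0 := by linarith
    have a2 : 0 < 1 - t := by linarith
    have h3 : Real.log ((1 - t0) / (1 - t)) ≤ (1 - t0) / (1 - t) - 1 :=
      Real.log_le_sub_one_of_pos (div_pos a1 a2)
    rw [Real.log_div a1.ne' a2.ne'] at h3
    have h4 : (1 - t0) / (1 - t) - 1 = (t - t0) / (1 - t) := by field_simp; ring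
    have h5 : (t - t0) / (1 - t) ≤ 2 / (1 - t0) * (t - t0) := by
      rw [div_le_iff₀ a2, div_mul_eq_mul_div, div_mul_eq_mul_div, le_div_iff₀ a1]
      nlinarith
    linarith

theorem ap (hm : MX) (hq : LQ) (hl : LL) : AP := by
  intro t0 M f ht0 ht1 hM hfc hfd hDc z0 hz0
  by_contra hcon
  push Not at hcon
  set D : ℂ → ℝ := fun z => if ‖z‖ < 1 then ‖deriv f z‖ else M * Ph t0 (f z) with hD
  set R : ℂ → ℝ := fun z => D z * Real.exp (gg t0 (‖f z‖ ^ 2)) with hR
  have hbc : ball (0 : ℂ) 1 ⊆ closedBall 0 1 := ball_subset_closedBall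
  have hRc : ContinuousOn R (closedBall 0 1) := by
    refine hDc.mul ?_
    exact Real.continuous_exp.comp_continuousOn ((gg_cont_298 t0 ht1).comp_continuousOn
      (hfc.norm.pow 2))
  obtain ⟨zs, hzs, hmax⟩ := (isCompact_closedBall (0 : ℂ) 1).exists_isMaxOn
    ⟨z0, hbc hz0⟩ hRc
  have hPh : ∀ w, Ph t0 w * Real.exp (gg t0 (‖w‖ ^ 2)) = 1 := by
    intro w
    rw [Ph, ← Real.exp_add, neg_add_cancel, Real.exp_zero]
  have hR0 : M < R z0 := by
    have h1 : ‖z0‖ < 1 := by simpa using hz0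
    rw [hR, hD]
    beta_reduce
    rw [if_pos h1]
    calc M = M * Ph t0 (f z0) * Real.exp (gg t0 (‖f z0‖ ^ 2)) := by
          rw [mul_assoc, hPh, mul_one]
      _ < ‖deriv f z0‖ * Real.exp (gg t0 (‖f z0‖ ^ 2)) :=
          mul_lt_mul_of_pos_right hcon (Real.exp_pos _)
  have hRs : M < R zs := lt_of_lt_of_le hR0 (hmax (hbc hz0))
  have hzs1 : ‖zs‖ < 1 := by
    by_contra h
    rw [hR, hD] at hRs
    beta_reduce at hRs
    rw [if_neg h, mul_assoc, hPh, mul_one] at hRs
    exact lt_irrefl _ hRs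
  have hzsb : zs ∈ ball (0 : ℂ) 1 := by simpa using hzs1
  have hfa := analyticAt_of_ball_298 hfd hzsb
  have hRw : ∀ w ∈ ball (0 : ℂ) 1, R w = ‖deriv f w‖ * Real.exp (gg t0 (‖f w‖ ^ 2)) := by
    intro w hw
    have h1 : ‖w‖ < 1 := by simpa using hw
    rw [hR, hD]
    beta_reduce
    rw [if_pos h1]
  have hd0 : deriv f zs ≠ 0 := by
    intro h
    rw [hRw zs hzsb, h, norm_zero, zero_mul] at hRs
    linarith
  have hlogR : ∀ᶠ w in 𝓝 zs, Real.log ‖deriv f w‖ + gg t0 (‖f w‖ ^ 2) ≤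
      Real.log ‖deriv f zs‖ + gg t0 (‖f zs‖ ^ 2) := by
    have e1 : ∀ᶠ w in 𝓝 zs, w ∈ ball (0 : ℂ) 1 := isOpen_ball.mem_nhds hzsb
    have e2 := hfa.deriv.continuousAt.eventually_ne hd0
    filter_upwards [e1, e2] with w h1 h2
    have h3 : R w ≤ R zs := hmax (hbc h1)
    rw [hRw w h1, hRw zs hzsb] at h3
    have h4 := Real.log_le_log (mul_pos (norm_pos_iff.2 h2) (Real.exp_pos _)) h3
    rwa [Real.log_mul (norm_ne_zero_iff.2 h2) (Real.exp_pos _).ne',
      Real.log_mul (norm_ne_zero_iff.2 hd0) (Real.exp_pos _).ne', Real.log_exp, Real.log_exp] at h4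
  have hnc : ContinuousAt (fun w => ‖f w‖ ^ 2) zs := hfa.continuousAt.norm.pow 2
  by_cases hcase : ‖f zs‖ ^ 2 ≤ t0
  · -- `log lam f` has a local maximum
    have hfz1 : ‖f zs‖ < 1 := by
      by_contra h
      push Not at h
      nlinarith
    obtain ⟨c1, c2⟩ := hl f zs hfa hfz1 hd0
    have hlm : IsLocalMax (fun w => Real.log (lam f w)) zs := by
      have e2 := hfa.deriv.continuousAt.eventually_ne hd0
      have e3 : ∀ᶠ w in 𝓝 zs, ‖f w‖ ^ 2 < (1 + t0) / 2 := hnc.eventually_lt_const (by linarith)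
      filter_upwards [hlogR, e2, e3] with w h1 h2 h3
      have h4 := gg_ge_298 t0 _ ht1 h3
      have h5 : gg t0 (‖f zs‖ ^ 2) = -Real.log (1 - ‖f zs‖ ^ 2) := by rw [gg, if_pos hcase]
      have h6 : (1 : ℝ) - ‖f w‖ ^ 2 ≠ 0 := by linarith
      rw [lam, lam, Real.log_div (norm_ne_zero_iff.2 h2) h6,
        Real.log_div (norm_ne_zero_iff.2 hd0) (one_sub_pos_298 hfz1).ne']
      linarith
    have h1 := hm _ zs c1 hlm
    rw [c2] at h1
    have h2 : 0 < lam f zs := div_pos (norm_pos_iff.2 hd0) (one_sub_pos_298 hfz1)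
    nlinarith
  · push Not at hcase
    obtain ⟨q1, q2⟩ := hq f zs hfa
    have hh := (hfa.deriv).harmonicAt_log_norm hd0
    set κ : ℝ := 2 / (1 - t0) with hκ
    have hκ0 : 0 < κ := by rw [hκ]; exact div_pos two_pos (by linarith)
    have q3 : ContDiffAt ℝ 2 (κ • fun w => ‖f w‖ ^ 2) zs := q1.const_smul κ
    have hu : ContDiffAt ℝ 2 ((fun w => Real.log ‖deriv f w‖) + κ • fun w => ‖f w‖ ^ 2) zs :=
      hh.1.add q3
    have hlm : IsLocalMax ((fun w => Real.log ‖deriv f w‖) + κ • fun w => ‖f w‖ ^ 2) zs := by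
      have e3 : ∀ᶠ w in 𝓝 zs, t0 < ‖f w‖ ^ 2 := hnc.eventually_const_lt hcase
      filter_upwards [hlogR, e3] with w h1 h2
      rw [gg, gg, if_neg (not_le.2 h2), if_neg (not_le.2 hcase)] at h1
      simp only [Pi.add_apply, Pi.smul_apply, smul_eq_mul]
      rw [← hκ] at h1
      linarith
    have h1 := hm _ zs hu hlm
    have e1 := hh.1.laplacian_add q3
    have e2 := InnerProductSpace.laplacian_smul κ q1
    have e4 : Laplacian.laplacian (fun w => Real.log ‖deriv f w‖) zs = 0 := by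
      simpa using hh.2.self_of_nhds
    have e3 : lap ((fun w => Real.log ‖deriv f w‖) + κ • fun w => ‖f w‖ ^ 2) zs =
        κ * lap (fun w => ‖f w‖ ^ 2) zs :=
      e1.trans (by rw [e2, e4, zero_add, smul_eq_mul])
    rw [e3, q2] at h1
    have h2 : 0 < ‖deriv f zs‖ := norm_pos_iff.2 hd0
    have h3 : 0 < κ * (4 * ‖deriv f zs‖ ^ 2) := by positivity
    linarith

end Q94.KR
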