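import Pool.Agent.Q94.KR.Stm

open MeasureTheory Set Filter Topology Metric
open scoped ContDiff InnerProductSpace NNReal

namespace Q94.KR

theorem ex1 (hp : PO) (hs : ST) (hf : FP) (hph : PH) (hap : AP) (haq : AQ) : EX1 := by
  intro P M hP hPne hM
  have ht1 : Real.tanh (M + 1) < 1 := Real.tanh_lt_one _
  have ht0 : 0 < Real.tanh (M + 1) := by
    rw [Real.tanh_eq_sinh_div_cosh]
    exact div_pos (Real.sinh_pos_iff.2 (by linarith)) (Real.cosh_pos _)
  set t0 := Real.tanh (M + 1) ^ 2 with ht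
  have ht0' : 0 < t0 := by positivity
  have ht1' : t0 < 1 := by
    rw [ht]
    nlinarith
  obtain ⟨hc, hb, he⟩ := hph t0 ht0' ht1'
  obtain ⟨f, hfc, hfO⟩ := hf P (Ph t0) M hP hPne hc hb hM
  have hkc : ContinuousOn (fun ζ => M * Ph t0 (f ζ)) (closedBall (0 : ℂ) 1) :=
    continuousOn_const.mul (hc.comp_continuousOn hfc)
  have hkc' := hkc.mono sphere_subset_closedBall
  have hkb : ∀ ζ ∈ sphere (0 : ℂ) 1, 0 < M * Ph t0 (f ζ) ∧ M * Ph t0 (f ζ) ≤ M := fun ζ _ =>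
    ⟨mul_pos hM (hb _).1, mul_le_of_le_one_right hM.le (hb _).2⟩
  obtain ⟨h1, h2, h3, h4, h5⟩ := hs P (fun ζ => M * Ph t0 (f ζ)) M hP hPne hkc' hkb
  have hdf : DifferentiableOn ℂ f (ball 0 1) := h1.congr hfO
  have hder : ∀ z ∈ ball (0 : ℂ) 1, deriv f z = deriv (Op P (fun ζ => M * Ph t0 (f ζ))) z := by
    intro z hz
    apply Filter.EventuallyEq.deriv_eq
    filter_upwards [isOpen_ball.mem_nhds hz] with w hw
    exact hfO w hw
  have hf0 : f 0 = 0 := by
    rw [hfO 0 (mem_ball_self one_pos)]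
    exact h2
  have hC : ContinuousOn (fun z => if ‖z‖ < 1 then ‖deriv f z‖ else M * Ph t0 (f z))
      (closedBall 0 1) := by
    refine h5.congr fun z hz => ?_
    by_cases hz1 : ‖z‖ < 1
    · simp only [hz1, if_true]
      rw [hder z (mem_ball_zero_iff.2 hz1)]
    · simp only [hz1, if_false]
  have hA := hap t0 M f ht0' ht1' hM hfc hdf hC
  have hB := haq M f hM hdf hf0 hA
  have hB' : ∀ z ∈ closedBall (0 : ℂ) 1, ‖f z‖ ≤ Real.tanh (M + 1) := by
    intro z hz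
    have hz' : z ∈ closure (ball (0 : ℂ) 1) := by rwa [closure_ball (0 : ℂ) one_ne_zero]
    exact ContinuousWithinAt.closure_le hz' ((hfc z hz).norm.mono ball_subset_closedBall)
      continuousWithinAt_const hB
  have hB2 : ∀ z ∈ closedBall (0 : ℂ) 1, ‖f z‖ ^ 2 ≤ t0 := fun z hz =>
    pow_le_pow_left₀ (norm_nonneg _) (hB' z hz) 2
  have hpos : ∀ z ∈ closedBall (0 : ℂ) 1, 0 < 1 - ‖f z‖ ^ 2 := fun z hz => by
    have := hB2 z hz
    linarith
  refine ⟨f, Wh (fun ζ => Real.log (M * Ph t0 (f ζ) / ‖P ζ‖)),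
    fun z => (if ‖z‖ < 1 then ‖deriv f z‖ else M * Ph t0 (f z)) / (1 - ‖f z‖ ^ 2), hdf, hf0,
    fun z hz => (hB z hz).trans_lt ht1, ?_, ?_, ?_, ?_, ?_⟩
  · refine (hp _ ?_).1
    refine ContinuousOn.log (hkc'.div hP.continuous.continuousOn.norm fun ζ hζ =>
      norm_ne_zero_iff.2 (hPne ζ hζ)) fun ζ hζ => ?_
    exact (div_pos (hkb ζ hζ).1 (norm_pos_iff.2 (hPne ζ hζ))).ne'
  · intro z hz
    rw [hder z hz]
    exact h3 z hz
  · exact hC.div (continuousOn_const.sub (hfc.norm.pow 2)) fun z hz => (hpos z hz).ne'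
  · intro z hz
    have hz1 : ‖z‖ < 1 := mem_ball_zero_iff.1 hz
    simp only [hz1, if_true]
    rfl
  · intro z hz
    have hz1 : ‖z‖ = 1 := mem_sphere_zero_iff_norm.1 hz
    have hz2 : z ∈ closedBall (0 : ℂ) 1 := sphere_subset_closedBall hz
    simp only [hz1, lt_irrefl, if_false]
    rw [he _ (hB2 z hz2)]
    field_simp [(hpos z hz2).ne']

end Q94.KR
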