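import Pool.Agent.Q94.KR.Stm

open MeasureTheory Set Filter Topology Metric
open scoped ContDiff InnerProductSpace NNReal

namespace Q94.KR

/-- Finitely many critical points in a smaller disc. -/
lemma crit_finite {m : ℂ → ℕ} (hm : Crit m) {r : ℝ} (hr1 : r < 1) :
    {z | z ∈ ball (0 : ℂ) r ∧ m z ≠ 0}.Finite := by
  obtain ⟨f, hf, -, ho⟩ := hm
  by_contra hinf
  have hsub : {z | z ∈ ball (0 : ℂ) r ∧ m z ≠ 0} ⊆ closedBall (0 : ℂ) r := fun z hz =>
    ball_subset_closedBall hz.1
  obtain ⟨z0, hz0, hacc⟩ := Set.Infinite.exists_accPt_of_subset_isCompact hinf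
    (isCompact_closedBall (0 : ℂ) r) hsub
  have hz1 : z0 ∈ ball (0 : ℂ) 1 := closedBall_subset_ball hr1 hz0
  have hd : DifferentiableOn ℂ (deriv f) (ball 0 1) := hf.deriv isOpen_ball
  have han : AnalyticAt ℂ (deriv f) z0 := hd.analyticAt (isOpen_ball.mem_nhds hz1)
  have hfreq : ∃ᶠ z in 𝓝[≠] z0, deriv f z = 0 := by
    rw [accPt_iff_frequently_nhdsNE] at hacc
    have hev : ∀ᶠ z in 𝓝[≠] z0, z ∈ ball (0 : ℂ) 1 :=
      nhdsWithin_le_nhds (isOpen_ball.mem_nhds hz1)
    refine (hacc.and_eventually hev).mono fun z hz => ?_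
    have h1 := ho z hz.2
    by_contra hne
    have h2 : analyticOrderAt (deriv f) z = 0 :=
      (hd.analyticAt (isOpen_ball.mem_nhds hz.2)).analyticOrderAt_eq_zero.2 hne
    rw [h2] at h1
    exact hz.1.2 (by exact_mod_cast h1.symm)
  have h3 := (han.frequently_zero_iff_eventually_zero).1 hfreq
  have h4 := analyticOrderAt_eq_top.2 h3
  rw [ho z0 hz1] at h4
  exact ENat.natCast_ne_top _ h4

theorem exr (h : EX1) : EXR := by
  classical
  intro m r M hm hr hr1 hM
  set Z : Finset ℂ := (crit_finite hm hr1).toFinset with hZ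
  have hZm : ∀ z, z ∈ Z ↔ z ∈ ball (0 : ℂ) r ∧ m z ≠ 0 := fun z => by
    rw [hZ, Set.Finite.mem_toFinset]
    rfl
  set P : ℂ → ℂ := fun z => ∏ b ∈ Z, (z - b) ^ m b with hP
  have hPd : Differentiable ℂ P := by
    rw [hP]
    refine Differentiable.fun_finsetProd fun b _ => ?_
    fun_prop
  have hP0 : ∀ z, z ∉ Z → P z ≠ 0 := fun z hz =>
    Finset.prod_ne_zero_iff.2 fun b hb => pow_ne_zero _ (sub_ne_zero.2 fun hzb => hz (hzb ▸ hb))
  have hr0 : (r : ℂ) ≠ 0 := by exact_mod_cast hr.ne'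
  obtain ⟨f, E, L, hfd, hf0, hf1, hEd, hfE, hLc, hLl, hLM⟩ := h (fun z => P (r * z)) (M * r)
    (hPd.comp (by fun_prop)) (fun ζ hζ => hP0 _ fun hmem => by
      have h1 := ((hZm _).1 hmem).1
      rw [mem_ball_zero_iff, norm_mul, mem_sphere_zero_iff_norm.1 hζ, Complex.norm_real,
        Real.norm_of_nonneg hr.le, mul_one] at h1
      exact lt_irrefl _ h1) (by positivity)
  have hmap : ∀ z ∈ ball (0 : ℂ) r, z / r ∈ ball (0 : ℂ) 1 := fun z hz => by
    rw [mem_ball_zero_iff, norm_div, Complex.norm_real, Real.norm_of_nonneg hr.le,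
      div_lt_one hr]
    exact mem_ball_zero_iff.1 hz
  have hmapc : ∀ z ∈ closedBall (0 : ℂ) r, z / r ∈ closedBall (0 : ℂ) 1 := fun z hz => by
    rw [mem_closedBall_zero_iff, norm_div, Complex.norm_real, Real.norm_of_nonneg hr.le,
      div_le_one hr]
    exact mem_closedBall_zero_iff.1 hz
  have hmaps : ∀ z ∈ sphere (0 : ℂ) r, z / r ∈ sphere (0 : ℂ) 1 := fun z hz => by
    rw [mem_sphere_zero_iff_norm, norm_div, Complex.norm_real, Real.norm_of_nonneg hr.le,
      mem_sphere_zero_iff_norm.1 hz, div_self hr.ne']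
  have hder : ∀ z ∈ ball (0 : ℂ) r, deriv (fun z => f (z / r)) z = deriv f (z / r) / r := by
    intro z hz
    have h1 : HasDerivAt f (deriv f (z / r)) (z / r) :=
      (hfd.differentiableAt (isOpen_ball.mem_nhds (hmap z hz))).hasDerivAt
    have h2 : HasDerivAt (fun z : ℂ => z / r) (1 / r) z := (hasDerivAt_id z).div_const _
    have h3 := (h1.comp z h2).deriv
    rw [show (fun z => f (z / r)) = f ∘ (fun z : ℂ => z / r) from rfl, h3]
    ring
  refine ⟨fun z => f (z / r), fun z => L (z / r) / r, ?_, by simpa using hf0,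
    fun z hz => hf1 _ (hmap z hz), ?_, ?_, ?_, ?_⟩
  · exact hfd.comp (by fun_prop) hmap
  · intro z hz
    have hEa : AnalyticAt ℂ E (z / r) := hEd.analyticAt (isOpen_ball.mem_nhds (hmap z hz))
    have hdan : AnalyticAt ℂ (deriv (fun z => f (z / r))) z := by
      have h1 : DifferentiableOn ℂ (fun z => f (z / r)) (ball 0 r) := hfd.comp (by fun_prop) hmap
      exact (h1.deriv isOpen_ball).analyticAt (isOpen_ball.mem_nhds hz)
    rw [hdan.analyticOrderAt_eq_natCast]
    refine ⟨fun w => (∏ b ∈ Z.erase z, (w - b) ^ m b) * (Complex.exp (E (w / r)) / r), ?_, ?_, ?_⟩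
    · refine AnalyticAt.mul ?_ (AnalyticAt.div ?_ analyticAt_const hr0)
      · refine Differentiable.analyticAt ?_ z
        refine Differentiable.fun_finsetProd fun b _ => ?_
        fun_prop
      · refine AnalyticAt.cexp ?_
        exact AnalyticAt.fun_comp hEa (Differentiable.analyticAt (by fun_prop) z)
    · refine mul_ne_zero ?_ (div_ne_zero (Complex.exp_ne_zero _) hr0)
      exact Finset.prod_ne_zero_iff.2 fun b hb =>
        pow_ne_zero _ (sub_ne_zero.2 fun hzb => (Finset.mem_erase.1 hb).1 hzb.symm)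
    · filter_upwards [isOpen_ball.mem_nhds hz] with w hw
      rw [hder w hw, hfE _ (hmap w hw), mul_div_cancel₀ _ hr0]
      have hsplit : P w = (w - z) ^ m z * ∏ b ∈ Z.erase z, (w - b) ^ m b := by
        by_cases hzZ : z ∈ Z
        · rw [hP]
          exact (Finset.mul_prod_erase Z (fun b => (w - b) ^ m b) hzZ).symm
        · have hm0 : m z = 0 := by
            by_contra hne
            exact hzZ ((hZm z).2 ⟨hz, hne⟩)
          rw [Finset.erase_eq_of_notMem hzZ, hm0, pow_zero, one_mul]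
      rw [hsplit, smul_eq_mul]
      ring
  · exact (hLc.comp (by fun_prop) hmapc).div_const _
  · intro z hz
    change L (z / r) / r = _
    rw [hLl _ (hmap z hz)]
    simp only [lam]
    rw [hder z hz, norm_div, Complex.norm_real, Real.norm_of_nonneg hr.le]
    ring
  · intro z hz
    change L (z / r) / r = _
    rw [hLM _ (hmaps z hz)]
    field_simp

end Q94.KR
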