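import Pool.Agent.Q94.KR.K23
import Pool.Agent.Helper114.MontelSol

open MeasureTheory Set Filter Topology Metric
open scoped ContDiff InnerProductSpace

namespace Q94.KR

lemma order_const_mul {c : ℂ} (hc : c ≠ 0) {g : ℂ → ℂ} {z : ℂ} (hg : AnalyticAt ℂ g z) :
    analyticOrderAt (fun w => c * g w) z = analyticOrderAt g z := by
  have h2 : analyticOrderAt ((fun _ => c) * g) z = analyticOrderAt g z := by
    rw [analyticOrderAt_mul analyticAt_const hg]
    rw [(analyticAt_const (v := c)).analyticOrderAt_eq_zero.2 hc, zero_add]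
  exact h2

lemma iter_loc {ι : Type*} {l : Filter ι} [l.NeBot] {U : Set ℂ} (hU : IsOpen U) (k : ℕ) :
    ∀ (G : ι → ℂ → ℂ) (F : ℂ → ℂ), (∀ n, DifferentiableOn ℂ (G n) U) →
      TendstoLocallyUniformlyOn G F l U →
      TendstoLocallyUniformlyOn (fun n => iteratedDeriv k (G n)) (iteratedDeriv k F) l U := by
  induction k with
  | zero => intro G F _ h; simpa using h
  | succ k ih =>
    intro G F hG h
    have h1 := h.deriv (Eventually.of_forall hG) hU
    have h2 := ih (fun n => deriv (G n)) (deriv F) (fun n => (hG n).deriv hU) h1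
    simpa [iteratedDeriv_succ'] using h2

theorem um (ho : OR) (hk : SKL) (hc : CMP) (ha : AH) (he : EXR) : UM := by
  intro m hm
  obtain ⟨g0, hg0d, ⟨M0, hM0⟩, hg0o⟩ := id hm
  set r : ℕ → ℝ := fun n => 1 - 1 / ((n : ℝ) + 2) with hr
  have hr0 : ∀ n, 0 < r n := by
    intro n
    have h1 : (1 : ℝ) / ((n : ℝ) + 2) ≤ 1 / 2 := by
      apply one_div_le_one_div_of_le (by norm_num)
      have : (0 : ℝ) ≤ n := Nat.cast_nonneg n
      linarith
    simp only [hr]; linarith
  have hr1 : ∀ n, r n < 1 := by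
    intro n
    have : (0 : ℝ) < 1 / ((n : ℝ) + 2) := by positivity
    simp only [hr]; linarith
  have hrlim : Tendsto r atTop (𝓝 1) := by
    have h1 : Tendsto (fun n : ℕ => (1 : ℝ) / ((n : ℝ) + 2)) atTop (𝓝 0) := by
      have := (tendsto_one_div_add_atTop_nhds_zero_nat (𝕜 := ℝ)).comp (tendsto_add_atTop_nat 1)
      refine this.congr fun n => ?_
      simp only [Function.comp_apply]
      push_cast
      ring
    simpa [hr] using h1.const_sub 1
  have hden : ∀ n, 0 < 1 - r n ^ 2 := fun n => by nlinarith [hr0 n, hr1 n]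
  have hMn : ∀ n, 0 < 1 / (1 - r n ^ 2) := fun n => one_div_pos.2 (hden n)
  choose f L hfd hf0 hf1 hfo hLc hLl hLs using
    fun n => he m (r n) (1 / (1 - r n ^ 2)) hm (hr0 n) (hr1 n) (hMn n)
  -- the metrics dominate
  have hdom : ∀ σ, SK m σ → ∀ n, ∀ z ∈ ball (0 : ℂ) (r n), σ z ≤ lam (f n) z := by
    intro σ hσ n
    refine hc m σ (r n) (f n) (L n) hσ (hr0 n) (hr1 n) (hfd n) (hf1 n)
      (fun z hz => (hfo n z hz).le) (hLc n) (hLl n) fun z hz => ?_
    rw [hLs n z hz]
    have hz' : ‖z‖ = r n := by simpa using hz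
    refine ⟨hMn n, ?_⟩
    have := ha m σ hσ z (by rw [mem_ball_zero_iff, hz']; exact hr1 n)
    rwa [hz'] at this
  -- rescaled functions
  set g : ℕ → ℂ → ℂ := fun n z => f n (r n * z) with hg
  have hmem : ∀ n, ∀ z ∈ ball (0 : ℂ) 1, (r n : ℂ) * z ∈ ball (0 : ℂ) (r n) := by
    intro n z hz
    rw [mem_ball_zero_iff] at hz ⊢
    rw [norm_mul, Complex.norm_real, Real.norm_of_nonneg (hr0 n).le]
    nlinarith [hr0 n, norm_nonneg z]
  have hgd : ∀ n, DifferentiableOn ℂ (g n) (ball 0 1) := fun n =>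
    (hfd n).comp (differentiableOn_id.const_mul _) (fun z hz => hmem n z hz)
  have hg1 : ∀ n, ∀ z ∈ ball (0 : ℂ) 1, ‖g n z‖ < 1 := fun n z hz => hf1 n _ (hmem n z hz)
  have hgder : ∀ n, ∀ z ∈ ball (0 : ℂ) 1, deriv (g n) z = r n * deriv (f n) (r n * z) := by
    intro n z hz
    have h1 : DifferentiableAt ℂ (f n) (r n * z) :=
      (hfd n).differentiableAt (isOpen_ball.mem_nhds (hmem n z hz))
    have h2 : HasDerivAt (fun w : ℂ => (r n : ℂ) * w) (r n) z := by
      simpa using (hasDerivAt_id z).const_mul (r n : ℂ)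
    have h3 := h1.hasDerivAt.comp z h2
    rw [mul_comm]
    exact h3.deriv
  obtain ⟨F, hFd, hlim⟩ := Pool.Agent.Helper114.Montel.montel isOpen_ball g hgd 1
    (fun n z hz => (hg1 n z hz).le) (hyperfilter ℕ)
  have hle : (hyperfilter ℕ : Filter ℕ) ≤ atTop := Nat.hyperfilter_le_atTop
  have h0 : (0 : ℂ) ∈ ball (0 : ℂ) 1 := by simp
  have hpt : ∀ z ∈ ball (0 : ℂ) 1, Tendsto (fun n => g n z) (hyperfilter ℕ : Filter ℕ) (𝓝 (F z)) :=
    fun z hz => hlim.tendsto_at hz
  have hF0 : F 0 = 0 := by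
    have h1 := hpt 0 h0
    have h2 : (fun n => g n 0) = fun _ => 0 := by
      ext n; simp [hg, hf0]
    rw [h2] at h1
    exact tendsto_nhds_unique h1 tendsto_const_nhds
  have hF1' : ∀ z ∈ ball (0 : ℂ) 1, ‖F z‖ ≤ 1 := fun z hz =>
    le_of_tendsto (hpt z hz).norm (Eventually.of_forall fun n => (hg1 n z hz).le)
  have hF1 : ∀ z ∈ ball (0 : ℂ) 1, ‖F z‖ < 1 := by
    intro z hz
    by_contra hcon
    have h1 : ‖F z‖ = 1 := le_antisymm (hF1' z hz) (not_lt.1 hcon)
    have hmax : IsMaxOn (norm ∘ F) (ball 0 1) z := fun w hw => by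
      simp only [Function.comp_apply, mem_ofPred_eq, h1]
      exact hF1' w hw
    have hconst := Complex.eqOn_of_isPreconnected_of_isMaxOn_norm
      (convex_ball (0 : ℂ) 1).isPreconnected isOpen_ball hFd hz hmax
    have h2 := hconst h0
    rw [hF0] at h2
    simp only [Function.const_apply] at h2
    rw [← h2] at h1
    simp at h1
  have hder := hlim.deriv (Eventually.of_forall hgd) isOpen_ball
  have hmaj : ∀ σ : ℂ → ℝ, SK m σ → ∀ z ∈ ball (0 : ℂ) 1, σ z ≤ lam F z := by
    intro σ hσ z hz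
    have h1 : Tendsto (fun n => lam (g n) z) (hyperfilter ℕ : Filter ℕ) (𝓝 (lam F z)) := by
      unfold lam
      refine ((hder.tendsto_at hz).norm).div (((hpt z hz).norm.pow 2).const_sub 1) ?_
      have := hF1 z hz
      nlinarith [norm_nonneg (F z)]
    have h2 : Tendsto (fun n => r n * σ (r n * z)) (hyperfilter ℕ : Filter ℕ)
        (𝓝 (1 * σ z)) := by
      have hr' : Tendsto r (hyperfilter ℕ : Filter ℕ) (𝓝 1) := hrlim.mono_left hle
      refine hr'.mul ?_
      have h3 : Tendsto (fun n => (r n : ℂ) * z) (hyperfilter ℕ : Filter ℕ) (𝓝 z) := by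
        have h4 : Tendsto (fun n => (r n : ℂ)) (hyperfilter ℕ : Filter ℕ) (𝓝 ((1 : ℝ) : ℂ)) :=
          (Complex.continuous_ofReal.tendsto 1).comp hr'
        simpa using h4.mul_const z
      exact (hσ.cont.continuousAt (isOpen_ball.mem_nhds hz)).tendsto.comp h3
    rw [one_mul] at h2
    refine le_of_tendsto_of_tendsto' h2 h1 fun n => ?_
    have h5 := hdom σ hσ n _ (hmem n z hz)
    have h6 : lam (g n) z = r n * lam (f n) (r n * z) := by
      unfold lam
      rw [hgder n z hz, norm_mul, Complex.norm_real, Real.norm_of_nonneg (hr0 n).le]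
      simp only [hg]
      ring
    rw [h6]
    exact mul_le_mul_of_nonneg_left h5 (hr0 n).le
  refine ⟨F, hFd, hF1, hF0, fun z hz => le_antisymm ?_ ?_, hmaj⟩
  · -- order at most `m`
    set c : ℂ := ((1 / (1 + |M0|) : ℝ) : ℂ) with hcdef
    have hc0 : c ≠ 0 := by
      rw [hcdef]; norm_cast; positivity
    have hcn : ‖c‖ = 1 / (1 + |M0|) := by
      rw [hcdef, Complex.norm_real, Real.norm_of_nonneg (by positivity)]
    set f0 : ℂ → ℂ := fun w => c * g0 w with hf0def
    have hf0d : DifferentiableOn ℂ f0 (ball 0 1) := hg0d.const_mul c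
    have hf01 : ∀ w ∈ ball (0 : ℂ) 1, ‖f0 w‖ < 1 := by
      intro w hw
      have h1 := (hM0 w hw).trans (le_abs_self M0)
      simp only [hf0def]
      rw [norm_mul, hcn, div_mul_eq_mul_div, one_mul, div_lt_one (by positivity)]
      linarith
    have hf0o : ∀ w ∈ ball (0 : ℂ) 1, analyticOrderAt (deriv f0) w = m w := by
      intro w hw
      rw [← hg0o w hw]
      have h1 : deriv f0 = fun v => c * deriv g0 v := by
        ext v
        exact deriv_const_mul_field c
      rw [h1]
      exact order_const_mul hc0 (analyticAt_of_ball hg0d hw).deriv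
    have hsk := hk m f0 ⟨hf0d, fun w hw => (hf01 w hw).le, fun w hw => (hf0o w hw).ge⟩ hf01
    obtain ⟨k, hk0, hkk⟩ := lam_lower ho hf0d hf01 hz (hf0o z hz).le
    have hFa : AnalyticAt ℂ (deriv F) z := (analyticAt_of_ball hFd hz).deriv
    refine ((ho (deriv F) z (m z) hFa).2).2 ?_
    have hp : 0 < 1 - ‖F z‖ ^ 2 := by nlinarith [norm_nonneg (F z), hF1 z hz]
    have hcont : ContinuousAt (fun w => 1 - ‖F w‖ ^ 2) z :=
      continuousAt_const.sub ((analyticAt_of_ball hFd hz).continuousAt.norm.pow 2)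
    have hc' : ∀ᶠ w in 𝓝 z, (1 - ‖F z‖ ^ 2) / 2 < 1 - ‖F w‖ ^ 2 :=
      hcont.eventually (lt_mem_nhds (by linarith))
    refine ⟨k * ((1 - ‖F z‖ ^ 2) / 2), by positivity, ?_⟩
    filter_upwards [hkk, hc', isOpen_ball.mem_nhds hz] with w h1 h2 h3
    have h4 := h1.trans (hmaj _ hsk w h3)
    unfold lam at h4
    have h5 : 0 < 1 - ‖F w‖ ^ 2 := by linarith
    rw [le_div_iff₀ h5] at h4
    calc k * ((1 - ‖F z‖ ^ 2) / 2) * ‖w - z‖ ^ m z
        = (k * ‖w - z‖ ^ m z) * ((1 - ‖F z‖ ^ 2) / 2) := by ring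
      _ ≤ (k * ‖w - z‖ ^ m z) * (1 - ‖F w‖ ^ 2) :=
          mul_le_mul_of_nonneg_left h2.le (by positivity)
      _ ≤ ‖deriv F w‖ := h4
  · -- order at least `m`
    have hFa : AnalyticAt ℂ (deriv F) z := (analyticAt_of_ball hFd hz).deriv
    rw [natCast_le_analyticOrderAt_iff_iteratedDeriv_eq_zero hFa]
    intro i hi
    have hit := iter_loc (l := (hyperfilter ℕ : Filter ℕ)) isOpen_ball i
      (fun n => deriv (g n)) (deriv F) (fun n => (hgd n).deriv isOpen_ball) hder
    have hFi : ContinuousWithinAt (iteratedDeriv i (deriv F)) (ball 0 1) z := by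
      have h1 : AnalyticOnNhd ℂ (deriv F) (ball 0 1) :=
        (hFd.deriv isOpen_ball).analyticOnNhd isOpen_ball
      have h2 : ContinuousAt (iteratedDeriv i (deriv F)) z := by
        rw [iteratedDeriv_eq_iterate]
        exact ((h1.iterated_deriv i) z hz).continuousAt
      exact h2.continuousWithinAt
    have hw : Tendsto (fun n => z / (r n : ℂ)) (hyperfilter ℕ : Filter ℕ) (𝓝[ball 0 1] z) := by
      have hr' : Tendsto r (hyperfilter ℕ : Filter ℕ) (𝓝 1) := hrlim.mono_left hle
      have h4 : Tendsto (fun n => (r n : ℂ)) (hyperfilter ℕ : Filter ℕ) (𝓝 ((1 : ℝ) : ℂ)) :=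
        (Complex.continuous_ofReal.tendsto 1).comp hr'
      have h5 : Tendsto (fun n => z / (r n : ℂ)) (hyperfilter ℕ : Filter ℕ) (𝓝 z) := by
        have h6 : Tendsto (fun n => z / (r n : ℂ)) (hyperfilter ℕ : Filter ℕ)
            (𝓝 (z / ((1 : ℝ) : ℂ))) := (tendsto_const_nhds (x := z)).div h4 (by simp)
        simpa using h6
      rw [tendsto_nhdsWithin_iff]
      exact ⟨h5, h5.eventually (isOpen_ball.mem_nhds hz)⟩
    have hlimi := hit.tendsto_comp hFi hz hw
    have hzero : ∀ᶠ n in (hyperfilter ℕ : Filter ℕ),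
        iteratedDeriv i (deriv (g n)) (z / (r n : ℂ)) = 0 := by
      have hw' := tendsto_nhdsWithin_iff.1 hw
      filter_upwards [hw'.2] with n hn
      have hrn : (r n : ℂ) ≠ 0 := by exact_mod_cast (hr0 n).ne'
      have hrz : (r n : ℂ) * (z / r n) = z := by field_simp
      have hga : AnalyticAt ℂ (deriv (g n)) (z / r n) :=
        (analyticAt_of_ball (hgd n) hn).deriv
      have hzr : z ∈ ball (0 : ℂ) (r n) := by
        have := hmem n _ hn
        rwa [hrz] at this
      have hfa : AnalyticAt ℂ (deriv (f n)) z :=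
        ((hfd n).analyticAt (isOpen_ball.mem_nhds hzr)).deriv
      have hord : analyticOrderAt (deriv (g n)) (z / r n) = m z := by
        have h1 : deriv (g n) =ᶠ[𝓝 (z / (r n : ℂ))]
            fun w => (r n : ℂ) * (deriv (f n) ∘ fun v : ℂ => (r n : ℂ) * v) w := by
          filter_upwards [isOpen_ball.mem_nhds hn] with w hw using hgder n w hw
        have hlin : AnalyticAt ℂ (fun v : ℂ => (r n : ℂ) * v) (z / r n) := by fun_prop
        have h2 : analyticOrderAt (deriv (f n) ∘ fun v : ℂ => (r n : ℂ) * v) (z / r n) =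
            analyticOrderAt (deriv (f n)) ((r n : ℂ) * (z / r n)) := by
          apply analyticOrderAt_comp_of_deriv_ne_zero hlin
          rw [deriv_const_mul_field, deriv_id'', mul_one]
          exact hrn
        rw [analyticOrderAt_congr h1, order_const_mul hrn, h2, hrz, hfo n z hzr]
        have h3 : AnalyticAt ℂ (deriv (f n)) ((r n : ℂ) * (z / r n)) := by rw [hrz]; exact hfa
        exact AnalyticAt.comp h3 hlin
      have := (natCast_le_analyticOrderAt_iff_iteratedDeriv_eq_zero hga).1 hord.ge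
      exact this i hi
    have h7 : Tendsto (fun n => iteratedDeriv i (deriv (g n)) (z / (r n : ℂ)))
        (hyperfilter ℕ : Filter ℕ) (𝓝 0) :=
      tendsto_const_nhds.congr' (hzero.mono fun n hn => hn.symm)
    exact tendsto_nhds_unique hlimi h7

end Q94.KR
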