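import Pool.Agent.Q94.KR.K2

/-! Job K17 of project KR (author helper94): strong maximum principle (Hopf). -/

set_option autoImplicit false

open MeasureTheory Set Filter Topology Metric
open scoped ContDiff InnerProductSpace

namespace Q94.KR

theorem gauss_contDiff_298 (a : ℝ) (c z : ℂ) :
    ContDiffAt ℝ 2 (fun w : ℂ => Real.exp (-a * ‖w - c‖ ^ 2)) z := by
  have h1 := contDiffAt_sq_298 (fun w => w - c) z (by fun_prop)
  exact (contDiffAt_const.mul h1).exp

theorem gauss_lap_298 (a : ℝ) (c z : ℂ) :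
    lap (fun w : ℂ => Real.exp (-a * ‖w - c‖ ^ 2)) z =
      (4 * a ^ 2 * ‖z - c‖ ^ 2 - 4 * a) * Real.exp (-a * ‖z - c‖ ^ 2) := by
  have hf : AnalyticAt ℂ (fun w : ℂ => w - c) z := by fun_prop
  have hd : deriv (fun w : ℂ => w - c) = fun _ => 1 := by
    funext w
    simp
  have key : ∀ v : ℂ, deriv (deriv (fun t : ℝ => Real.exp (-a * ‖(z + t * v) - c‖ ^ 2))) 0 =
      Real.exp (-a * ‖z - c‖ ^ 2) * (-a * (2 * ‖v‖ ^ 2)) +
        Real.exp (-a * ‖z - c‖ ^ 2) * (-a * (2 * inner ℝ (z - c) v)) *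
          (-a * (2 * inner ℝ (z - c) v)) := by
    intro v
    obtain ⟨a1, a2⟩ := line_sq_298 (fun w => w - c) z v hf
    rw [hd] at a1 a2
    simp only [one_mul, deriv_const', zero_mul, inner_zero_right, zero_add] at a1 a2
    refine deriv_deriv_of_298 _ (fun t : ℝ => Real.exp (-a * ‖(z + t * v) - c‖ ^ 2) *
      (-a * (2 * inner ℝ ((z + t * v) - c) v))) _ ?_ ?_
    · filter_upwards [a1] with t ht
      exact (ht.const_mul (-a)).exp
    · have h0 := (a1.self_of_nhds.const_mul (-a)).exp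
      have h := h0.mul (a2.const_mul (-a))
      refine h.congr_deriv ?_
      simp only [Complex.ofReal_zero, zero_mul, add_zero]
      ring
  rw [lap_eq_298 _ z (gauss_contDiff_298 a c z), key 1, key Complex.I]
  have e2 := inner_sq_298 (z - c) 1
  simp only [norm_one, one_mul, mul_one, one_pow, Complex.norm_I] at e2 ⊢
  linear_combination 4 * a ^ 2 * Real.exp (-a * ‖z - c‖ ^ 2) * e2

theorem smp (hm : MX) : SMP := by
  intro u R K hR hu hunn hu0 hlap
  refine ⟨R / 4, by positivity, ?_⟩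
  intro c hc
  by_contra hne
  have hcn : ‖c‖ < R / 4 := by simpa using hc
  have hsubR : ∀ w : ℂ, ‖w - c‖ ≤ ‖c‖ → w ∈ ball (0 : ℂ) R := by
    intro w hw
    rw [mem_ball_zero_iff]
    have : ‖w‖ ≤ ‖w - c‖ + ‖c‖ := by simpa using norm_add_le (w - c) c
    linarith
  have hcont : ∀ w ∈ ball (0 : ℂ) R, ContinuousAt u w := fun w hw => (hu w hw).continuousAt
  -- the nearest zero
  have hZc : IsCompact (closedBall c ‖c‖ ∩ u ⁻¹' {0}) := by
    have hco : ContinuousOn u (closedBall c ‖c‖) := by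
      intro w hw
      rw [mem_closedBall, dist_eq_norm] at hw
      exact (hcont w (hsubR w hw)).continuousWithinAt
    exact (isCompact_closedBall c ‖c‖).of_isClosed_subset
      (hco.preimage_isClosed_of_isClosed isClosed_closedBall isClosed_singleton) inter_subset_left
  have hZne : (closedBall c ‖c‖ ∩ u ⁻¹' {0}).Nonempty := ⟨0, by simp [hu0]⟩
  obtain ⟨y, hy, hmin⟩ := hZc.exists_isMinOn hZne
    (f := fun w => ‖w - c‖) (by fun_prop)
  obtain ⟨hyc, hy0⟩ := hy
  have hy0' : u y = 0 := hy0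
  rw [mem_closedBall, dist_eq_norm] at hyc
  set ρ : ℝ := ‖y - c‖ with hρ
  have hρ0 : 0 < ρ := by
    rw [hρ, norm_pos_iff, sub_ne_zero]
    rintro rfl
    exact hne hy0'
  have hpos : ∀ w : ℂ, ‖w - c‖ < ρ → 0 < u w := by
    intro w hw
    have h1 : w ∈ ball (0 : ℂ) R := hsubR w (by linarith)
    refine lt_of_le_of_ne (hunn w h1) (Ne.symm ?_)
    intro h2
    have h3 : ρ ≤ ‖w - c‖ := hmin ⟨by rw [mem_closedBall, dist_eq_norm]; linarith, h2⟩
    linarith
  -- the comparison function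
  set K' : ℝ := max K 0 with hK'
  have hK'0 : 0 ≤ K' := le_max_right _ _
  obtain ⟨a, ha0, ha⟩ : ∃ a : ℝ, 0 < a ∧ K' + 1 ≤ a ^ 2 * ρ ^ 2 - 4 * a := by
    refine ⟨(K' + 5) / ρ ^ 2 + (K' + 5) , by positivity, ?_⟩
    set X : ℝ := (K' + 5) / ρ ^ 2 with hX
    have hX0 : 0 < X := by positivity
    have hX2 : X * ρ ^ 2 = K' + 5 := by rw [hX]; field_simp
    have e : (X + (K' + 5)) ^ 2 * ρ ^ 2 - 4 * (X + (K' + 5)) =
        (X * ρ ^ 2) * (X + (K' + 5)) + (K' + 5) * (X * ρ ^ 2 + (K' + 5) * ρ ^ 2) -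
          4 * (X + (K' + 5)) := by ring
    rw [e, hX2]
    nlinarith [mul_pos hX0 hX0, sq_nonneg ρ, mul_nonneg hK'0 hK'0,
      mul_nonneg (mul_nonneg (by linarith : (0 : ℝ) ≤ K' + 5) (by linarith : (0 : ℝ) ≤ K' + 5))
        (sq_nonneg ρ), mul_nonneg hK'0 hX0.le]
  set hfun : ℂ → ℝ := fun w => Real.exp (-a * ‖w - c‖ ^ 2) - Real.exp (-a * ρ ^ 2) with hh
  -- the inner circle
  obtain ⟨δ, hδ0, hδ⟩ : ∃ δ : ℝ, 0 < δ ∧ ∀ w : ℂ, ‖w - c‖ = ρ / 2 → δ ≤ u w := by
    have hS : (sphere c (ρ / 2)).Nonempty := NormedSpace.sphere_nonempty.2 (by positivity)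
    have hco : ContinuousOn u (sphere c (ρ / 2)) := by
      intro w hw
      rw [mem_sphere, dist_eq_norm] at hw
      exact (hcont w (hsubR w (by linarith))).continuousWithinAt
    obtain ⟨w0, hw0, hw0m⟩ := (isCompact_sphere c (ρ / 2)).exists_isMinOn hS hco
    refine ⟨u w0, ?_, fun w hw => hw0m (by rw [mem_sphere, dist_eq_norm]; exact hw)⟩
    rw [mem_sphere, dist_eq_norm] at hw0
    exact hpos w0 (by linarith)
  -- on the annulus
  have hann : ∀ w : ℂ, ρ / 2 ≤ ‖w - c‖ → ‖w - c‖ ≤ ρ → δ * hfun w ≤ u w := by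
    by_contra hcon
    push Not at hcon
    obtain ⟨w1, hw1a, hw1b, hw1⟩ := hcon
    set A : Set ℂ := closedBall c ρ \ ball c (ρ / 2) with hA
    have hAc : IsCompact A := (isCompact_closedBall c ρ).diff isOpen_ball
    have hAm : ∀ w : ℂ, w ∈ A ↔ ρ / 2 ≤ ‖w - c‖ ∧ ‖w - c‖ ≤ ρ := by
      intro w
      rw [hA, Set.mem_sdiff, mem_closedBall, mem_ball, dist_eq_norm, not_lt]
      tauto
    have hvc : ContinuousOn (fun w => u w - δ * hfun w) A := by
      intro w hw
      have h1 := ((hAm w).1 hw).2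
      have h2 : ContinuousAt hfun w := by rw [hh]; fun_prop
      exact ((hcont w (hsubR w (by linarith))).sub (h2.const_mul δ)).continuousWithinAt
    obtain ⟨ws, hws, hwsm⟩ := hAc.exists_isMinOn ⟨w1, (hAm w1).2 ⟨hw1a, hw1b⟩⟩ hvc
    have hvs : u ws - δ * hfun ws < 0 := by
      have h1 : u ws - δ * hfun ws ≤ u w1 - δ * hfun w1 := hwsm ((hAm w1).2 ⟨hw1a, hw1b⟩)
      linarith
    obtain ⟨hs1, hs2⟩ := (hAm ws).1 hws
    have hs1' : ρ / 2 < ‖ws - c‖ := by
      refine lt_of_le_of_ne hs1 fun h => ?_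
      have h1 := hδ ws h.symm
      have h2 : hfun ws ≤ 1 := by
        rw [hh]
        have h3 : Real.exp (-a * ‖ws - c‖ ^ 2) ≤ 1 := by
          rw [Real.exp_le_one_iff]
          nlinarith [sq_nonneg ‖ws - c‖]
        have h4 := Real.exp_pos (-a * ρ ^ 2)
        linarith
      nlinarith
    have hs2' : ‖ws - c‖ < ρ := by
      refine lt_of_le_of_ne hs2 fun h => ?_
      have h1 : hfun ws = 0 := by rw [hh]; simp [h]
      rw [h1, mul_zero, sub_zero] at hvs
      have := hunn ws (hsubR ws (by linarith))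
      linarith
    have hwsR : ws ∈ ball (0 : ℂ) R := hsubR ws (by linarith)
    have hg := gauss_contDiff_298 a c ws
    -- the function with a local maximum
    have hcd : ContDiffAt ℝ 2 ((δ • fun w : ℂ => Real.exp (-a * ‖w - c‖ ^ 2)) - u) ws :=
      (hg.const_smul δ).sub (hu ws hwsR)
    have hlm : IsLocalMax ((δ • fun w : ℂ => Real.exp (-a * ‖w - c‖ ^ 2)) - u) ws := by
      have hn : ContinuousAt (fun w : ℂ => ‖w - c‖) ws := by fun_prop
      filter_upwards [hn.eventually_const_lt hs1', hn.eventually_lt_const hs2'] with w h1 h2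
      have h3 : u ws - δ * hfun ws ≤ u w - δ * hfun w := hwsm ((hAm w).2 ⟨h1.le, h2.le⟩)
      rw [hh] at h3
      simp only [Pi.sub_apply, Pi.smul_apply, smul_eq_mul]
      linarith
    have h1 := hm _ ws hcd hlm
    have e1 : lap ((δ • fun w : ℂ => Real.exp (-a * ‖w - c‖ ^ 2)) - u) ws =
        lap (δ • fun w : ℂ => Real.exp (-a * ‖w - c‖ ^ 2)) ws - lap u ws :=
      ContDiffAt.laplacian_sub (hg.const_smul δ) (hu ws hwsR)
    have e2 : lap (δ • fun w : ℂ => Real.exp (-a * ‖w - c‖ ^ 2)) ws =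
        δ • lap (fun w : ℂ => Real.exp (-a * ‖w - c‖ ^ 2)) ws :=
      InnerProductSpace.laplacian_smul δ hg
    rw [e1, e2, gauss_lap_298, smul_eq_mul] at h1
    have h2 := hlap ws hwsR
    have h3 : K * u ws ≤ K' * u ws :=
      mul_le_mul_of_nonneg_right (le_max_left _ _) (hunn ws hwsR)
    set E : ℝ := Real.exp (-a * ‖ws - c‖ ^ 2) with hE
    have hE0 : 0 < E := Real.exp_pos _
    have h4 : (K' + 1) * E ≤ (4 * a ^ 2 * ‖ws - c‖ ^ 2 - 4 * a) * E := by
      refine mul_le_mul_of_nonneg_right ?_ hE0.le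
      have h5 : ρ ^ 2 / 4 ≤ ‖ws - c‖ ^ 2 := by nlinarith
      have h6 : a ^ 2 * ρ ^ 2 ≤ 4 * a ^ 2 * ‖ws - c‖ ^ 2 := by
        nlinarith [mul_pos ha0 ha0]
      linarith
    have h7 : 0 < hfun ws := by
      rw [hh]
      have : Real.exp (-a * ρ ^ 2) < Real.exp (-a * ‖ws - c‖ ^ 2) := by
        rw [Real.exp_lt_exp]
        have hsq : ‖ws - c‖ ^ 2 < ρ ^ 2 := pow_lt_pow_left₀ hs2' (norm_nonneg _) two_ne_zero
        have := mul_lt_mul_of_pos_left hsq ha0
        linarith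
      linarith
    have h8 : hfun ws ≤ E := by
      rw [hh]
      have := Real.exp_pos (-a * ρ ^ 2)
      linarith
    have h9 : δ * ((K' + 1) * hfun ws) ≤ K' * u ws := by
      have h10 : (K' + 1) * hfun ws ≤ (K' + 1) * E :=
        mul_le_mul_of_nonneg_left h8 (by linarith)
      have h11 : δ * ((K' + 1) * hfun ws) ≤
          δ * ((4 * a ^ 2 * ‖ws - c‖ ^ 2 - 4 * a) * E) :=
        mul_le_mul_of_nonneg_left (h10.trans h4) hδ0.le
      linarith
    have h12 : K' * u ws ≤ K' * (δ * hfun ws) := mul_le_mul_of_nonneg_left (by linarith) hK'0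
    nlinarith [mul_pos hδ0 h7]
  -- the derivative at `y`
  have hyR : y ∈ ball (0 : ℂ) R := hsubR y hyc
  have hdiff : DifferentiableAt ℝ u y := (hu y hyR).differentiableAt (by norm_num)
  have hlocmin : IsLocalMin u y := by
    filter_upwards [isOpen_ball.mem_nhds hyR] with w hw
    rw [hy0']
    exact hunn w hw
  have hfd : fderiv ℝ u y = 0 := hlocmin.fderiv_eq_zero
  have hφ : HasDerivAt (fun t : ℝ => u (y + t * (c - y))) 0 0 := by
    have h1 : HasFDerivAt u (fderiv ℝ u y) (y + ((0 : ℝ) : ℂ) * (c - y)) := by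
      simpa using hdiff.hasFDerivAt
    have h2 := h1.comp_hasDerivAt (0 : ℝ) (hasDerivAt_line_298 y (c - y) 0)
    rw [hfd] at h2
    exact h2.congr_deriv (by simp)
  have hψ : HasDerivAt (fun t : ℝ => δ * (Real.exp (-a * (ρ ^ 2 * (1 - t) ^ 2)) -
      Real.exp (-a * ρ ^ 2))) (δ * (Real.exp (-a * ρ ^ 2) * (2 * a * ρ ^ 2))) 0 := by
    have h1 : HasDerivAt (fun t : ℝ => -a * (ρ ^ 2 * (1 - t) ^ 2)) (2 * a * ρ ^ 2) 0 := by
      have h2 := (((hasDerivAt_id (0 : ℝ)).const_sub 1).pow 2).const_mul (ρ ^ 2) |>.const_mul (-a)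
      refine h2.congr_deriv ?_
      simp
      ring
    have h3 := (h1.exp.sub_const (Real.exp (-a * ρ ^ 2))).const_mul δ
    refine h3.congr_deriv ?_
    simp
  have hdd := hφ.sub hψ
  have hneg : (0 : ℝ) - δ * (Real.exp (-a * ρ ^ 2) * (2 * a * ρ ^ 2)) < 0 := by
    have : 0 < δ * (Real.exp (-a * ρ ^ 2) * (2 * a * ρ ^ 2)) := by positivity
    linarith
  have hnn : ∀ᶠ t : ℝ in 𝓝[>] 0, 0 ≤ ((fun t : ℝ => u (y + t * (c - y))) -
      fun t : ℝ => δ * (Real.exp (-a * (ρ ^ 2 * (1 - t) ^ 2)) - Real.exp (-a * ρ ^ 2))) t := by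
    have e1 : ∀ᶠ t : ℝ in 𝓝[>] 0, t < 1 / 2 := nhdsWithin_le_nhds (Iio_mem_nhds (by norm_num))
    have e2 : ∀ᶠ t : ℝ in 𝓝[>] (0 : ℝ), 0 < t := eventually_mem_nhdsWithin
    filter_upwards [e1, e2] with t h1 h2
    have h3 : ‖(y + t * (c - y)) - c‖ = ρ * (1 - t) := by
      have : (y + t * (c - y)) - c = ((1 - t : ℝ) : ℂ) * (y - c) := by push_cast; ring
      rw [this, norm_mul, Complex.norm_real, Real.norm_of_nonneg (by linarith), hρ]
      ring
    have h4 := hann (y + t * (c - y)) (by rw [h3]; nlinarith) (by rw [h3]; nlinarith)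
    rw [hh] at h4
    beta_reduce at h4
    rw [h3, mul_pow] at h4
    simp only [Pi.sub_apply]
    linarith
  -- contradiction with the sign of the derivative
  have hz : ((fun t : ℝ => u (y + t * (c - y))) -
      fun t : ℝ => δ * (Real.exp (-a * (ρ ^ 2 * (1 - t) ^ 2)) - Real.exp (-a * ρ ^ 2))) 0 = 0 := by
    simp [hy0']
  have hslope := hdd.hasDerivWithinAt (s := Ioi 0)
  rw [hasDerivWithinAt_iff_tendsto_slope' (by simp)] at hslope
  have hge : (0 : ℝ) ≤ 0 - δ * (Real.exp (-a * ρ ^ 2) * (2 * a * ρ ^ 2)) := by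
    refine ge_of_tendsto hslope ?_
    have e2 : ∀ᶠ t : ℝ in 𝓝[>] (0 : ℝ), 0 < t := eventually_mem_nhdsWithin
    filter_upwards [hnn, e2] with t h1 h2
    rw [slope_def_field, hz, sub_zero, sub_zero]
    exact div_nonneg h1 h2.le
  linarith

end Q94.KR
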