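import Pool.Agent.Q94.KR.Stm

open MeasureTheory Set Filter Topology Metric
open scoped ContDiff InnerProductSpace NNReal ComplexConjugate

namespace Q94.KR

/-- One step of polarisation: differentiate only the holomorphic factors. -/
lemma polar_step {ι : Type} [Fintype ι] (e : ι → ℂ) (a b : ι → ℂ → ℂ) {U : Set ℂ} (hU : IsOpen U)
    (ha : ∀ i, DifferentiableOn ℂ (a i) U) (hb : ∀ i, DifferentiableOn ℂ (b i) U)
    (h : ∀ z ∈ U, ∑ i, e i * a i z * conj (b i z) = 0) :
    ∀ z ∈ U, ∑ i, e i * deriv (a i) z * conj (b i z) = 0 := by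
  intro z hz
  have key : ∀ v : ℂ, ∑ i, (e i * (deriv (a i) z * v) * conj (b i z) +
      e i * a i z * conj (deriv (b i) z * v)) = 0 := by
    intro v
    have hl : ∀ t : ℝ, HasDerivAt (fun t : ℝ => z + (t : ℂ) * v) v t := by
      intro t
      have h1 : HasDerivAt (fun t : ℝ => (t : ℂ)) 1 t := Complex.ofRealCLM.hasDerivAt
      simpa using (h1.mul_const v).const_add z
    have h0 : z + ((0 : ℝ) : ℂ) * v = z := by simp
    have hd : ∀ g : ℂ → ℂ, DifferentiableOn ℂ g U →
        HasDerivAt (fun t : ℝ => g (z + (t : ℂ) * v)) (deriv g z * v) 0 := by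
      intro g hg
      have h1 : HasDerivAt g (deriv g z) (z + ((0 : ℝ) : ℂ) * v) := by
        rw [h0]
        exact (hg.differentiableAt (hU.mem_nhds hz)).hasDerivAt
      exact h1.comp (0 : ℝ) (hl 0)
    have hsum : HasDerivAt (fun t : ℝ => ∑ i, e i * a i (z + (t : ℂ) * v) *
        conj (b i (z + (t : ℂ) * v))) (∑ i, (e i * (deriv (a i) z * v) * conj (b i z) +
      e i * a i z * conj (deriv (b i) z * v))) 0 := by
      apply HasDerivAt.fun_sum
      intro i _
      have h1 := (hd _ (ha i)).const_mul (e i)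
      have h2 : HasDerivAt (fun t : ℝ => conj (b i (z + (t : ℂ) * v)))
          (conj (deriv (b i) z * v)) 0 := by
        have := (hd _ (hb i)).star
        exact this
      have h3 := h1.mul h2
      simp only [h0] at h3
      exact h3
    have hev : (fun t : ℝ => ∑ i, e i * a i (z + (t : ℂ) * v) *
        conj (b i (z + (t : ℂ) * v))) =ᶠ[𝓝 0] fun _ => 0 := by
      have hc : Tendsto (fun t : ℝ => z + (t : ℂ) * v) (𝓝 0) (𝓝 z) := by
        have := (hl 0).continuousAt.tendsto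
        rwa [h0] at this
      filter_upwards [hc (hU.mem_nhds hz)] with t ht
      exact h _ ht
    exact (hsum.congr_of_eventuallyEq hev.symm).unique (hasDerivAt_const _ _)
  have k1 := key 1
  have kI := key Complex.I
  have e1 : ∑ i, (e i * (deriv (a i) z * 1) * conj (b i z) +
      e i * a i z * conj (deriv (b i) z * 1)) =
      ∑ i, e i * deriv (a i) z * conj (b i z) + ∑ i, e i * a i z * conj (deriv (b i) z) := by
    rw [← Finset.sum_add_distrib]
    refine Finset.sum_congr rfl fun i _ => ?_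
    simp
  have eI : ∑ i, (e i * (deriv (a i) z * Complex.I) * conj (b i z) +
      e i * a i z * conj (deriv (b i) z * Complex.I)) =
      Complex.I * (∑ i, e i * deriv (a i) z * conj (b i z) -
        ∑ i, e i * a i z * conj (deriv (b i) z)) := by
    rw [← Finset.sum_sub_distrib, Finset.mul_sum]
    refine Finset.sum_congr rfl fun i _ => ?_
    rw [map_mul, Complex.conj_I]
    ring
  rw [e1] at k1
  rw [eI] at kI
  have k2 := (mul_eq_zero.1 kI).resolve_left Complex.I_ne_zero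
  linear_combination (1 / 2 : ℂ) * k1 + (1 / 2 : ℂ) * k2

lemma polar {ι : Type} [Fintype ι] (e : ι → ℂ) (a b : ι → ℂ → ℂ) {U : Set ℂ} (hU : IsOpen U)
    (ha : ∀ i, DifferentiableOn ℂ (a i) U) (hb : ∀ i, DifferentiableOn ℂ (b i) U)
    (h : ∀ z ∈ U, ∑ i, e i * a i z * conj (b i z) = 0) (n : ℕ) :
    ∀ z ∈ U, ∑ i, e i * iteratedDeriv n (a i) z * conj (b i z) = 0 := by
  induction n generalizing a with
  | zero => simpa using h
  | succ n ih =>
    have h1 := ih (fun i => deriv (a i)) (fun i => (ha i).deriv hU)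
      (polar_step e a b hU ha hb h)
    intro z hz
    have h2 := h1 z hz
    simpa [iteratedDeriv_succ'] using h2

/-- A function with all derivatives zero vanishes nearby. -/
lemma eventually_zero_of_iter {u : ℂ → ℂ} {z : ℂ} (hu : AnalyticAt ℂ u z)
    (h : ∀ n, iteratedDeriv n u z = 0) : ∀ᶠ w in 𝓝 z, u w = 0 := by
  rw [← analyticOrderAt_eq_top]
  rw [ENat.eq_top_iff_forall_ge]
  intro n
  rw [natCast_le_analyticOrderAt_iff_iteratedDeriv_eq_zero hu]
  intro k _
  exact h k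

/-- The normalised case. -/
lemma rg_norm {f F : ℂ → ℂ} (hf : DifferentiableOn ℂ f (ball 0 1))
    (hf1 : ∀ z ∈ ball (0 : ℂ) 1, ‖f z‖ < 1) (hF : DifferentiableOn ℂ F (ball 0 1))
    (hF1 : ∀ z ∈ ball (0 : ℂ) 1, ‖F z‖ < 1) {z0 : ℂ} (hz0 : z0 ∈ ball (0 : ℂ) 1)
    (hf0 : f z0 = 0) (hF0 : F z0 = 0) (hd : deriv F z0 ≠ 0)
    (he : ∀ᶠ z in 𝓝 z0, lam f z = lam F z) : ∃ c : ℂ, ‖c‖ = 1 ∧ ∀ z ∈ ball (0 : ℂ) 1,
      f z = c * F z := by
  have hf' := hf.deriv isOpen_ball
  have hF' := hF.deriv isOpen_ball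
  obtain ⟨V, hV, hVo, hzV⟩ := _root_.eventually_nhds_iff.1
    (he.and (isOpen_ball.mem_nhds hz0))
  have hVb : V ⊆ ball (0 : ℂ) 1 := fun z hz => (hV z hz).2
  have hid : ∀ z ∈ V, ‖deriv f z‖ * (1 - ‖F z‖ ^ 2) = ‖deriv F z‖ * (1 - ‖f z‖ ^ 2) := by
    intro z hz
    have h1 := (hV z hz).1
    have h2 : 0 < 1 - ‖f z‖ ^ 2 := by nlinarith [norm_nonneg (f z), hf1 z (hVb hz)]
    have h3 : 0 < 1 - ‖F z‖ ^ 2 := by nlinarith [norm_nonneg (F z), hF1 z (hVb hz)]
    simp only [lam] at h1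
    rw [div_eq_div_iff h2.ne' h3.ne'] at h1
    exact h1
  have hnn : ∀ w : ℂ, w * conj w = ((‖w‖ ^ 2 : ℝ) : ℂ) := fun w => by
    rw [Complex.mul_conj, Complex.normSq_eq_norm_sq]
  have hsum : ∀ z ∈ V, ∑ i : Fin 6, (![1, -2, 1, -1, 2, -1] : Fin 6 → ℂ) i *
      (![deriv f, fun z => deriv f z * F z, fun z => deriv f z * F z ^ 2, deriv F,
        fun z => deriv F z * f z, fun z => deriv F z * f z ^ 2] : Fin 6 → ℂ → ℂ) i z *
      conj ((![deriv f, fun z => deriv f z * F z, fun z => deriv f z * F z ^ 2, deriv F,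
        fun z => deriv F z * f z, fun z => deriv F z * f z ^ 2] : Fin 6 → ℂ → ℂ) i z) = 0 := by
    intro z hz
    have h1 := hid z hz
    have h2 : (‖deriv f z‖ * (1 - ‖F z‖ ^ 2)) ^ 2 = (‖deriv F z‖ * (1 - ‖f z‖ ^ 2)) ^ 2 := by
      rw [h1]
    have h3 : ((‖deriv f z‖ ^ 2 : ℝ) : ℂ) * (1 - 2 * ((‖F z‖ ^ 2 : ℝ) : ℂ) +
        ((‖F z‖ ^ 2 : ℝ) : ℂ) ^ 2) = ((‖deriv F z‖ ^ 2 : ℝ) : ℂ) * (1 - 2 * ((‖f z‖ ^ 2 : ℝ) : ℂ) +
        ((‖f z‖ ^ 2 : ℝ) : ℂ) ^ 2) := by
      norm_cast
      linear_combination h2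
    rw [← hnn, ← hnn, ← hnn, ← hnn] at h3
    simp only [Fin.sum_univ_six, Matrix.cons_val, map_mul, map_pow]
    linear_combination h3
  have hpol := fun n => polar (![1, -2, 1, -1, 2, -1] : Fin 6 → ℂ)
    (![deriv f, fun z => deriv f z * F z, fun z => deriv f z * F z ^ 2, deriv F,
        fun z => deriv F z * f z, fun z => deriv F z * f z ^ 2] : Fin 6 → ℂ → ℂ)
    (![deriv f, fun z => deriv f z * F z, fun z => deriv f z * F z ^ 2, deriv F,
        fun z => deriv F z * f z, fun z => deriv F z * f z ^ 2] : Fin 6 → ℂ → ℂ) hVo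
    (by
      intro i
      fin_cases i
      · exact hf'.mono hVb
      · exact (hf'.mul hF).mono hVb
      · exact (hf'.mul (hF.pow 2)).mono hVb
      · exact hF'.mono hVb
      · exact (hF'.mul hf).mono hVb
      · exact (hF'.mul (hf.pow 2)).mono hVb)
    (by
      intro i
      fin_cases i
      · exact hf'.mono hVb
      · exact (hf'.mul hF).mono hVb
      · exact (hf'.mul (hF.pow 2)).mono hVb
      · exact hF'.mono hVb
      · exact (hF'.mul hf).mono hVb
      · exact (hF'.mul (hf.pow 2)).mono hVb) hsum n z0 hzV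
  have hafd : AnalyticAt ℂ (deriv f) z0 := hf'.analyticAt (isOpen_ball.mem_nhds hz0)
  have haFd : AnalyticAt ℂ (deriv F) z0 := hF'.analyticAt (isOpen_ball.mem_nhds hz0)
  have hiter : ∀ n, iteratedDeriv n (fun z => conj (deriv f z0) * deriv f z -
      conj (deriv F z0) * deriv F z) z0 = 0 := by
    intro n
    have h1 := hpol n
    simp only [Fin.sum_univ_six, Matrix.cons_val, hf0, hF0, map_zero, mul_zero,
      zero_pow two_ne_zero, add_zero] at h1
    have h2 : iteratedDeriv n (fun z => conj (deriv f z0) * deriv f z -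
      conj (deriv F z0) * deriv F z) z0 = conj (deriv f z0) * iteratedDeriv n (deriv f) z0 -
      conj (deriv F z0) * iteratedDeriv n (deriv F) z0 := by
      rw [iteratedDeriv_fun_sub, iteratedDeriv_const_mul_field, iteratedDeriv_const_mul_field]
      · exact (contDiffAt_const.mul hafd.contDiffAt)
      · exact (contDiffAt_const.mul haFd.contDiffAt)
    rw [h2]
    linear_combination h1
  have hz := eventually_zero_of_iter ((analyticAt_const.mul hafd).sub
    (analyticAt_const.mul haFd)) hiter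
  have hnz : ‖deriv f z0‖ = ‖deriv F z0‖ := by
    have := hid z0 hzV
    rw [hf0, hF0, norm_zero] at this
    simpa using this
  have hdf0 : deriv f z0 ≠ 0 := by
    rw [← norm_ne_zero_iff, hnz, norm_ne_zero_iff]
    exact hd
  have hdfc : conj (deriv f z0) ≠ 0 := (map_ne_zero _).2 hdf0
  refine ⟨conj (deriv F z0) / conj (deriv f z0), ?_, ?_⟩
  · rw [norm_div, Complex.norm_conj, Complex.norm_conj, hnz, div_self (norm_ne_zero_iff.2 hd)]
  · set c := conj (deriv F z0) / conj (deriv f z0) with hc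
    have hdc : ∀ᶠ z in 𝓝 z0, deriv f z = c * deriv F z := by
      filter_upwards [hz] with z hz
      have hz' : conj (deriv f z0) * deriv f z - conj (deriv F z0) * deriv F z = 0 := hz
      rw [hc, div_mul_eq_mul_div, eq_div_iff hdfc]
      linear_combination hz'
    obtain ⟨ε, hε, hεV⟩ := Metric.mem_nhds_iff.1 (hdc.and (isOpen_ball.mem_nhds hz0))
    have hloc : ∀ z ∈ ball z0 ε, f z - c * F z = 0 := by
      intro z hz
      have hdiff : DifferentiableOn ℂ (fun z => f z - c * F z) (ball z0 ε) := by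
        intro w hw
        have hw1 : w ∈ ball (0 : ℂ) 1 := (hεV hw).2
        exact ((hf.differentiableAt (isOpen_ball.mem_nhds hw1)).sub
          ((hF.differentiableAt (isOpen_ball.mem_nhds hw1)).const_mul c)).differentiableWithinAt
      have hcst := isOpen_ball.is_const_of_deriv_eq_zero (convex_ball z0 ε).isPreconnected hdiff
        (fun w hw => by
          have hw1 : w ∈ ball (0 : ℂ) 1 := (hεV hw).2
          have h1 : HasDerivAt (fun z => f z - c * F z) (deriv f w - c * deriv F w) w :=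
            ((hf.differentiableAt (isOpen_ball.mem_nhds hw1)).hasDerivAt).sub
              ((hF.differentiableAt (isOpen_ball.mem_nhds hw1)).hasDerivAt.const_mul c)
          rw [h1.deriv, (hεV hw).1, sub_self]
          rfl)
        hz (mem_ball_self hε)
      rw [hcst, hf0, hF0]
      simp
    have hfa : AnalyticOnNhd ℂ (fun z => f z) (ball 0 1) := hf.analyticOnNhd isOpen_ball
    have hFa : AnalyticOnNhd ℂ (fun z => c * F z) (ball 0 1) :=
      (hF.const_mul c).analyticOnNhd isOpen_ball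
    exact hfa.eqOn_of_preconnected_of_eventuallyEq hFa (convex_ball 0 1).isPreconnected hz0
      (by
        filter_upwards [ball_mem_nhds z0 hε] with z hz
        exact sub_eq_zero.1 (hloc z hz))

theorem rg (hu : AU) : RG := by
  intro f F hf hf1 hF hF1 hz
  obtain ⟨z0, hz0, hd, he⟩ := hz
  have haut : ∀ a : ℂ, ‖a‖ < 1 → IsAut (fun w => 1 * ((w - a) / (1 - conj a * w))) :=
    fun a ha => ⟨a, 1, ha, norm_one, fun w => rfl⟩
  have hS1 := haut (f z0) (hf1 z0 hz0)
  have hS2 := haut (F z0) (hF1 z0 hz0)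
  obtain ⟨a1, a2, a3, -, S', hS', hSi⟩ := hu _ hS1
  obtain ⟨b1, b2, b3, -, -⟩ := hu _ hS2
  set S1 : ℂ → ℂ := fun w => 1 * ((w - f z0) / (1 - conj (f z0) * w)) with hS1d
  set S2 : ℂ → ℂ := fun w => 1 * ((w - F z0) / (1 - conj (F z0) * w)) with hS2d
  have hmf : MapsTo f (ball 0 1) (ball 0 1) := fun z hz => mem_ball_zero_iff.2 (hf1 z hz)
  have hmF : MapsTo F (ball 0 1) (ball 0 1) := fun z hz => mem_ball_zero_iff.2 (hF1 z hz)
  have hfd : DifferentiableOn ℂ (fun z => S1 (f z)) (ball 0 1) := a1.comp hf hmf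
  have hFd : DifferentiableOn ℂ (fun z => S2 (F z)) (ball 0 1) := b1.comp hF hmF
  have haf : ∀ z ∈ ball (0 : ℂ) 1, AnalyticAt ℂ f z := fun z hz =>
    hf.analyticAt (isOpen_ball.mem_nhds hz)
  have haF : ∀ z ∈ ball (0 : ℂ) 1, AnalyticAt ℂ F z := fun z hz =>
    hF.analyticAt (isOpen_ball.mem_nhds hz)
  have hlam : ∀ᶠ z in 𝓝 z0, lam (fun z => S1 (f z)) z = lam (fun z => S2 (F z)) z := by
    filter_upwards [he, isOpen_ball.mem_nhds hz0] with z h1 hz
    rw [a3 f z (haf z hz) (hf1 z hz), b3 F z (haF z hz) (hF1 z hz), h1]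
  have hlF : lam (fun z => S2 (F z)) z0 = lam F z0 := b3 F z0 (haF z0 hz0) (hF1 z0 hz0)
  have hdS : deriv (fun z => S2 (F z)) z0 ≠ 0 := by
    intro h0
    have h1 : lam F z0 ≠ 0 := by
      simp only [lam]
      refine div_ne_zero (norm_ne_zero_iff.2 hd) ?_
      have : 0 < 1 - ‖F z0‖ ^ 2 := by nlinarith [norm_nonneg (F z0), hF1 z0 hz0]
      exact this.ne'
    rw [← hlF] at h1
    apply h1
    simp [lam, h0]
  obtain ⟨c, hc, hcf⟩ := rg_norm hfd (fun z hz => a2 _ (hf1 z hz)) hFd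
    (fun z hz => b2 _ (hF1 z hz)) hz0 (by simp [hS1d]) (by simp [hS2d]) hdS hlam
  have hR : IsAut (fun w => c * w) := ⟨0, c, by simp, hc, fun w => by simp⟩
  obtain ⟨-, -, -, hcomp, -⟩ := hu _ hS'
  obtain ⟨R1, hR1, hR1e⟩ := hcomp _ hR
  obtain ⟨-, -, -, hcomp2, -⟩ := hu _ hR1
  obtain ⟨R2, hR2, hR2e⟩ := hcomp2 _ hS2
  refine ⟨R2, hR2, fun z hz => ?_⟩
  rw [← hR2e _ (hF1 z hz), ← hR1e _ (b2 _ (hF1 z hz)), ← hcf z hz]
  exact ((hSi _ (hf1 z hz)).1).symm

end Q94.KR
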