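import Pool.Agent.Q94.KR.Stm

open MeasureTheory Set Filter Topology Metric
open scoped ContDiff InnerProductSpace NNReal ComplexConjugate

namespace Q94.KR

lemma key_id (a w : ℂ) : ‖1 - conj a * w‖ ^ 2 - ‖w - a‖ ^ 2 = (1 - ‖a‖ ^ 2) * (1 - ‖w‖ ^ 2) := by
  simp only [Complex.sq_norm, Complex.normSq_apply, Complex.sub_re, Complex.sub_im, Complex.mul_re,
    Complex.mul_im, Complex.conj_re, Complex.conj_im, Complex.one_re, Complex.one_im]
  ring

lemma den_ne {a w : ℂ} (ha : ‖a‖ < 1) (hw : ‖w‖ < 1) : 1 - conj a * w ≠ 0 := by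
  intro h
  have h1 : conj a * w = 1 := (sub_eq_zero.1 h).symm
  have h2 : ‖conj a * w‖ = 1 := by rw [h1, norm_one]
  rw [norm_mul, Complex.norm_conj] at h2
  nlinarith [norm_nonneg a, norm_nonneg w]

lemma one_sub_sq {a c w : ℂ} (ha : ‖a‖ < 1) (hc : ‖c‖ = 1) (hw : ‖w‖ < 1) :
    1 - ‖c * ((w - a) / (1 - conj a * w))‖ ^ 2 =
      (1 - ‖a‖ ^ 2) * (1 - ‖w‖ ^ 2) / ‖1 - conj a * w‖ ^ 2 := by
  have hd : ‖1 - conj a * w‖ ≠ 0 := norm_ne_zero_iff.2 (den_ne ha hw)
  rw [← key_id, norm_mul, hc, one_mul, norm_div]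
  generalize ‖1 - conj a * w‖ = q at hd ⊢
  field_simp

lemma hasDeriv_aut {a c w : ℂ} (ha : ‖a‖ < 1) (hw : ‖w‖ < 1) :
    HasDerivAt (fun w => c * ((w - a) / (1 - conj a * w)))
      (c * ((1 - conj a * a) / (1 - conj a * w) ^ 2)) w := by
  have hd := den_ne ha hw
  have h1 : HasDerivAt (fun w : ℂ => w - a) 1 w := (hasDerivAt_id w).sub_const a
  have h2 : HasDerivAt (fun w : ℂ => 1 - conj a * w) (-(conj a)) w := by
    simpa using ((hasDerivAt_id w).const_mul (conj a)).const_sub 1
  have h3 := (h1.div h2 hd).const_mul c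
  have h4 : (c * ((1 - conj a * a) / (1 - conj a * w) ^ 2)) =
      c * ((1 * (1 - conj a * w) - (w - a) * -(conj a)) / (1 - conj a * w) ^ 2) := by
    congr 2
    ring
  rw [h4]
  exact h3

lemma alg1 {c u v d ub vb q p w : ℂ} (hq : q ≠ 0)
    (hp : p = d * (ub - vb * w)) (hp0 : p ≠ 0) {X : ℂ} (hX : X = (u * w - v) / q) :
    c * (X / (p / q)) = c * (u * w - v) / (d * (ub - vb * w)) := by
  rw [hX, ← hp]
  field_simp

theorem au : AU := by
  intro T hT
  obtain ⟨a, c, ha, hc, hTe⟩ := hT
  have hTf : T = fun w => c * ((w - a) / (1 - conj a * w)) := funext hTe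
  have ha2 : 0 < 1 - ‖a‖ ^ 2 := by nlinarith [norm_nonneg a]
  have hpos : ∀ w : ℂ, ‖w‖ < 1 → 0 < 1 - ‖w‖ ^ 2 := fun w hw => by nlinarith [norm_nonneg w]
  have hcc : c * conj c = 1 := by
    rw [Complex.mul_conj, Complex.normSq_eq_norm_sq, hc]
    norm_num
  have hcc' : conj c * c = 1 := by rw [mul_comm]; exact hcc
  have hlt : ∀ w : ℂ, ‖w‖ < 1 → ‖T w‖ < 1 := by
    intro w hw
    have h1 := one_sub_sq ha hc hw
    rw [← hTe w] at h1
    have h2 : 0 < (1 - ‖a‖ ^ 2) * (1 - ‖w‖ ^ 2) / ‖1 - conj a * w‖ ^ 2 :=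
      div_pos (mul_pos ha2 (hpos w hw)) (pow_pos (norm_pos_iff.2 (den_ne ha hw)) 2)
    rw [← h1] at h2
    nlinarith [norm_nonneg (T w)]
  refine ⟨?_, hlt, ?_, ?_, ?_⟩
  · intro w hw
    rw [hTf]
    exact (hasDeriv_aut ha (mem_ball_zero_iff.1 hw)).differentiableAt.differentiableWithinAt
  · intro f z hf hfz
    have hd := den_ne ha hfz
    have hd' : ‖1 - conj a * f z‖ ≠ 0 := norm_ne_zero_iff.2 hd
    have h1 : HasDerivAt (fun w => T (f w))
        (c * ((1 - conj a * a) / (1 - conj a * f z) ^ 2) * deriv f z) z := by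
      rw [hTf]
      exact (hasDeriv_aut ha hfz).comp z hf.differentiableAt.hasDerivAt
    have h2 := one_sub_sq ha hc hfz
    rw [← hTe] at h2
    have haa : ‖(1 : ℂ) - conj a * a‖ = 1 - ‖a‖ ^ 2 := by
      rw [mul_comm, Complex.mul_conj, Complex.normSq_eq_norm_sq]
      rw [show (1 : ℂ) - ((‖a‖ ^ 2 : ℝ) : ℂ) = ((1 - ‖a‖ ^ 2 : ℝ) : ℂ) by push_cast; ring]
      rw [Complex.norm_real, Real.norm_of_nonneg ha2.le]
    have hfp := hpos _ hfz
    simp only [lam]
    rw [h1.deriv, h2, norm_mul, norm_mul, norm_div, norm_pow, haa, hc]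
    generalize ‖1 - conj a * f z‖ = q at hd' ⊢
    field_simp
  · intro S hS
    obtain ⟨b, d, hb, hd, hSe⟩ := hS
    have hb2 : 0 < 1 - ‖b‖ ^ 2 := by nlinarith [norm_nonneg b]
    have hdd : d * conj d = 1 := by
      rw [Complex.mul_conj, Complex.normSq_eq_norm_sq, hd]
      norm_num
    have hd0 : d ≠ 0 := by
      intro h
      rw [h, norm_zero] at hd
      exact zero_ne_one hd
    set u := d + a * conj b with hu
    set v := d * b + a with hv
    have huv : ‖u‖ ^ 2 - ‖v‖ ^ 2 = (1 - ‖a‖ ^ 2) * (1 - ‖b‖ ^ 2) := by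
      have hd' : d.re * d.re + d.im * d.im = 1 := by
        have := Complex.normSq_eq_norm_sq d
        rw [hd, Complex.normSq_apply] at this
        linarith
      simp only [hu, hv, Complex.sq_norm, Complex.normSq_apply, Complex.add_re, Complex.add_im,
        Complex.mul_re, Complex.mul_im, Complex.conj_re, Complex.conj_im]
      linear_combination (1 - b.re * b.re - b.im * b.im) * hd'
    have huv' : ‖v‖ < ‖u‖ := by
      have h1 : 0 < ‖u‖ ^ 2 - ‖v‖ ^ 2 := by
        rw [huv]
        positivity
      nlinarith [norm_nonneg u, norm_nonneg v]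
    have hu0 : u ≠ 0 := norm_pos_iff.1 (lt_of_le_of_lt (norm_nonneg v) huv')
    have huc0 : conj u ≠ 0 := (map_ne_zero _).2 hu0
    have ha' : ‖v / u‖ < 1 := by
      rw [norm_div, div_lt_one (norm_pos_iff.2 hu0)]
      exact huv'
    refine ⟨fun w => (c * (u / (d * conj u))) * ((w - v / u) / (1 - conj (v / u) * w)),
      ⟨v / u, c * (u / (d * conj u)), ha', ?_, fun w => rfl⟩, ?_⟩
    · rw [norm_mul, norm_div, norm_mul, Complex.norm_conj, hc, hd, one_mul, one_mul,
        div_self (norm_ne_zero_iff.2 hu0)]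
    · intro w hw
      have e1 : 1 - conj b * w ≠ 0 := den_ne hb hw
      have e3 : 1 - conj (v / u) * w ≠ 0 := den_ne ha' hw
      have f1 : conj (v / u) = conj v / conj u := map_div₀ _ _ _
      have g1 : d * conj u = 1 + conj a * b * d := by
        simp only [hu, map_add, map_mul, Complex.conj_conj]
        linear_combination hdd
      have g2 : d * conj v = conj b + conj a * d := by
        simp only [hv, map_add, map_mul]
        linear_combination (conj b) * hdd
      have e5 : (1 - conj b * w) - conj a * (d * (w - b)) = d * (conj u - conj v * w) := by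
        linear_combination -g1 + w * g2
      have e11 : 1 - conj (v / u) * w = (conj u - conj v * w) / conj u := by
        rw [f1, eq_div_iff huc0, sub_mul, one_mul, div_mul_eq_mul_div, div_mul_cancel₀ _ huc0]
      have e6 : conj u - conj v * w ≠ 0 := by
        intro h0
        rw [h0, zero_div] at e11
        exact e3 e11
      change T (S w) = (c * (u / (d * conj u))) * ((w - v / u) / (1 - conj (v / u) * w))
      have lhs : T (S w) = c * (u * w - v) / (d * (conj u - conj v * w)) := by
        rw [hTe, hSe w]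
        have e7 : (1 - conj b * w) - conj a * (d * (w - b)) ≠ 0 := by
          rw [e5]
          exact mul_ne_zero hd0 e6
        have e8 : d * ((w - b) / (1 - conj b * w)) - a = (u * w - v) / (1 - conj b * w) := by
          rw [eq_div_iff e1, sub_mul, mul_div_assoc', div_mul_cancel₀ _ e1, hu, hv]
          ring
        have e9 : (1 : ℂ) - conj a * (d * ((w - b) / (1 - conj b * w))) =
            ((1 - conj b * w) - conj a * (d * (w - b))) / (1 - conj b * w) := by
          rw [eq_div_iff e1, sub_mul, one_mul]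
          congr 1
          rw [mul_div_assoc', mul_div_assoc', div_mul_cancel₀ _ e1]
        rw [e9]
        exact alg1 e1 e5 e7 e8
      have rhs : (c * (u / (d * conj u))) * ((w - v / u) / (1 - conj (v / u) * w)) =
          c * (u * w - v) / (d * (conj u - conj v * w)) := by
        have e10 : w - v / u = (u * w - v) / u := by
          field_simp
        rw [e10, e11]
        generalize conj u - conj v * w = q at e6 ⊢
        generalize conj u = ub at huc0 ⊢
        field_simp
      rw [lhs, rhs]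
  · have hca : ‖-(c * a)‖ < 1 := by rw [norm_neg, norm_mul, hc, one_mul]; exact ha
    have haa : (1 : ℂ) - a * conj a ≠ 0 := by
      rw [Complex.mul_conj, Complex.normSq_eq_norm_sq]
      rw [show (1 : ℂ) - ((‖a‖ ^ 2 : ℝ) : ℂ) = ((1 - ‖a‖ ^ 2 : ℝ) : ℂ) by push_cast; ring]
      exact_mod_cast ha2.ne'
    refine ⟨fun w => conj c * ((w - -(c * a)) / (1 - conj (-(c * a)) * w)),
      ⟨-(c * a), conj c, hca, by rw [Complex.norm_conj, hc], fun w => rfl⟩, fun w hw => ⟨?_, ?_⟩⟩
    · have e1 : 1 - conj a * w ≠ 0 := den_ne ha hw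
      have f1 : conj (-(c * a)) = -(conj c * conj a) := by simp
      change conj c * ((T w - -(c * a)) / (1 - conj (-(c * a)) * T w)) = w
      rw [f1]
      have e3 : T w - -(c * a) = c * w * (1 - a * conj a) / (1 - conj a * w) := by
        rw [hTe, eq_div_iff e1, sub_mul, mul_assoc, div_mul_cancel₀ _ e1]
        ring
      have e4 : 1 - -(conj c * conj a) * T w = (1 - a * conj a) / (1 - conj a * w) := by
        rw [hTe, eq_div_iff e1]
        have h1 : (1 - -(conj c * conj a) * (c * ((w - a) / (1 - conj a * w)))) *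
            (1 - conj a * w) = (1 - conj a * w) + (conj c * c) * conj a *
              ((w - a) / (1 - conj a * w) * (1 - conj a * w)) := by ring
        rw [h1, hcc', div_mul_cancel₀ _ e1]
        ring
      rw [e3, e4]
      generalize 1 - conj a * w = q at e1 ⊢
      generalize 1 - a * conj a = p at haa ⊢
      have : conj c * (c * w * p / q / (p / q)) = (conj c * c) * w := by
        field_simp
      rw [this, hcc', one_mul]
    · have f1 : conj (-(c * a)) = -(conj c * conj a) := by simp
      have e2 := den_ne hca hw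
      change T (conj c * ((w - -(c * a)) / (1 - conj (-(c * a)) * w))) = w
      rw [f1] at e2 ⊢
      rw [hTe]
      have e3 : conj c * ((w - -(c * a)) / (1 - -(conj c * conj a) * w)) - a =
          conj c * w * (1 - a * conj a) / (1 - -(conj c * conj a) * w) := by
        rw [eq_div_iff e2, sub_mul, mul_assoc, div_mul_cancel₀ _ e2]
        linear_combination a * hcc'
      have e4 : 1 - conj a * (conj c * ((w - -(c * a)) / (1 - -(conj c * conj a) * w))) =
          (1 - a * conj a) / (1 - -(conj c * conj a) * w) := by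
        rw [eq_div_iff e2, sub_mul, one_mul, mul_assoc, mul_assoc, div_mul_cancel₀ _ e2]
        linear_combination (-(a * conj a)) * hcc'
      rw [e3, e4]
      generalize 1 - -(conj c * conj a) * w = q at e2 ⊢
      generalize 1 - a * conj a = p at haa ⊢
      have : c * (conj c * w * p / q / (p / q)) = (c * conj c) * w := by
        field_simp
      rw [this, hcc, one_mul]

end Q94.KR
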