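import Pool.Agent.Q94.KR.K1

/-! Job K2 of project KR (author helper94): curvature `-4`. -/

set_option autoImplicit false

open MeasureTheory Set Filter Topology Metric
open scoped ContDiff InnerProductSpace

namespace Q94.KR

theorem inner_sq_298 (a b : ℂ) : (inner ℝ a (b * 1)) ^ 2 + (inner ℝ a (b * Complex.I)) ^ 2 =
    ‖a‖ ^ 2 * ‖b‖ ^ 2 := by
  rw [Complex.inner, Complex.inner, ← Complex.normSq_eq_norm_sq, ← Complex.normSq_eq_norm_sq,
    Complex.normSq_apply, Complex.normSq_apply]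
  simp [Complex.mul_re, Complex.mul_im]
  ring

theorem contDiffAt_h_298 (f : ℂ → ℂ) (z : ℂ) (hf : AnalyticAt ℂ f z) (h1 : ‖f z‖ < 1) :
    ContDiffAt ℝ 2 (fun w => -Real.log (1 - ‖f w‖ ^ 2)) z := by
  have h2 : (1 : ℝ) - ‖f z‖ ^ 2 ≠ 0 := by
    have := norm_nonneg (f z)
    nlinarith
  exact ((contDiffAt_const.sub (contDiffAt_sq_298 f z hf)).log h2).neg

theorem lh : LH := by
  intro f z hf h1
  refine ⟨contDiffAt_h_298 f z hf h1, ?_⟩
  have hs : 0 < 1 - ‖f z‖ ^ 2 := by
    have := norm_nonneg (f z)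
    nlinarith
  have key : ∀ v : ℂ, deriv (deriv (fun t : ℝ => -Real.log (1 - ‖f (z + t * v)‖ ^ 2))) 0 =
      ((2 * (inner ℝ (f z) (deriv (deriv f) z * v * v) + ‖deriv f z * v‖ ^ 2)) * (1 - ‖f z‖ ^ 2) +
        (2 * inner ℝ (f z) (deriv f z * v)) ^ 2) / (1 - ‖f z‖ ^ 2) ^ 2 := by
    intro v
    obtain ⟨a1, a2⟩ := line_sq_298 f z v hf
    have hne : ∀ᶠ t : ℝ in 𝓝 (0 : ℝ), (1 : ℝ) - ‖f (z + t * v)‖ ^ 2 ≠ 0 := by
      have hc : ContinuousAt (fun w => (1 : ℝ) - ‖f w‖ ^ 2) z :=
        continuousAt_const.sub (hf.continuousAt.norm.pow 2)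
      exact (tendsto_line_298 z v).eventually (hc.eventually_ne hs.ne')
    refine deriv_deriv_of_298 _ (fun t => (2 * inner ℝ (f (z + t * v)) (deriv f (z + t * v) * v)) /
      (1 - ‖f (z + t * v)‖ ^ 2)) _ ?_ ?_
    · filter_upwards [a1, hne] with t ht1 ht2
      have h := ((ht1.const_sub 1).log ht2).neg
      refine h.congr_deriv ?_
      rw [neg_div, neg_neg]
    · have h0 := a1.self_of_nhds
      have hne0 := hne.self_of_nhds
      have h := a2.div (h0.const_sub 1) hne0
      refine h.congr_deriv ?_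
      simp only [Complex.ofReal_zero, zero_mul, add_zero]
      ring
  rw [lap_eq_298 _ z (contDiffAt_h_298 f z hf h1), key 1, key Complex.I, ← add_div]
  have e1 : deriv (deriv f) z * Complex.I * Complex.I = -(deriv (deriv f) z * 1 * 1) := by
    rw [mul_assoc, Complex.I_mul_I]; ring
  have e2 := inner_sq_298 (f z) (deriv f z)
  rw [e1, inner_neg_right, lam, div_pow, norm_mul, norm_mul, Complex.norm_I, norm_one]
  rw [mul_div_assoc']
  congr 1
  linear_combination 4 * e2

theorem ll (h : LH) : LL := by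
  intro f z hf h1 h2
  obtain ⟨c1, c2⟩ := h f z hf h1
  have hh := (hf.deriv).harmonicAt_log_norm h2
  have hs : 0 < 1 - ‖f z‖ ^ 2 := by
    have := norm_nonneg (f z)
    nlinarith
  have heq : (fun w => Real.log (lam f w)) =ᶠ[𝓝 z]
      ((fun w => Real.log ‖deriv f w‖) + fun w => -Real.log (1 - ‖f w‖ ^ 2)) := by
    have hc : ContinuousAt (fun w => (1 : ℝ) - ‖f w‖ ^ 2) z :=
      continuousAt_const.sub (hf.continuousAt.norm.pow 2)
    filter_upwards [hc.eventually_ne hs.ne', hf.deriv.continuousAt.eventually_ne h2] with w hw1 hw2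
    rw [lam, Real.log_div (norm_ne_zero_iff.2 hw2) hw1]
    simp only [Pi.add_apply]
    ring
  refine ⟨(hh.1.add c1).congr_of_eventuallyEq heq, ?_⟩
  have e1 := InnerProductSpace.laplacian_congr_nhds heq
  have e2 := hh.1.laplacian_add c1
  have e3 := hh.2.self_of_nhds
  show Laplacian.laplacian (fun w => Real.log (lam f w)) z = _
  rw [e1.self_of_nhds, e2]
  have e4 : Laplacian.laplacian (fun w => Real.log ‖deriv f w‖) z = 0 := by simpa using e3
  rw [e4, zero_add]
  exact c2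

end Q94.KR
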