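import Pool.Agent.Q94.KR.K4

/-! Job K20 of project KR (author helper94): the leading coefficient. -/

set_option autoImplicit false

open MeasureTheory Set Filter Topology Metric
open scoped ContDiff InnerProductSpace

namespace Q94.KR

/-- factorization at the origin -/
theorem fac_298 (g : ℂ → ℂ) (N : ℕ) (hg : AnalyticAt ℂ g 0)
    (ho : (N : ℕ∞) ≤ analyticOrderAt g 0) : ∃ h : ℂ → ℂ, AnalyticAt ℂ h 0 ∧
      h 0 = iteratedDeriv N g 0 / N.factorial ∧ ∀ᶠ w in 𝓝 0, g w = w ^ N * h w := by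
  obtain ⟨F, hF, he⟩ := hg.exists_eventuallyEq_sum_add_pow_mul (N + 1)
  have hz := (natCast_le_analyticOrderAt_iff_iteratedDeriv_eq_zero hg).1 ho
  refine ⟨fun w => iteratedDeriv N g 0 / N.factorial + w * F w, by fun_prop, by simp, ?_⟩
  filter_upwards [he] with w hw
  rw [hw, Finset.sum_range_succ, Finset.sum_eq_zero]
  · simp only [smul_eq_mul]
    ring
  · intro i hi
    rw [hz i (Finset.mem_range.1 hi), smul_zero]

theorem iteratedDeriv_fun_const_zero_298 (n : ℕ) :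
    iteratedDeriv n (fun _ : ℂ => (0 : ℂ)) 0 = 0 := by
  induction n with
  | zero => simp
  | succ n ih => rw [iteratedDeriv_succ', deriv_const']; exact ih

theorem const_of_max_298 (f : ℂ → ℂ) (hd : DifferentiableOn ℂ f (ball 0 1))
    (hb : ∀ z ∈ ball (0 : ℂ) 1, ‖f z‖ ≤ 1) (z1 : ℂ) (hz1 : z1 ∈ ball (0 : ℂ) 1)
    (h1 : ¬ ‖f z1‖ < 1) : ∀ z ∈ ball (0 : ℂ) 1, f z = f z1 := by
  have hmax : IsMaxOn (norm ∘ f) (ball 0 1) z1 := by
    intro z hz
    have := hb z hz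
    simp only [Function.comp_apply, mem_ofPred_eq]
    push Not at h1
    exact this.trans h1
  exact Complex.eqOn_of_isPreconnected_of_isMaxOn_norm (convex_ball (0 : ℂ) 1).isPreconnected
    isOpen_ball hd hz1 hmax

theorem ea (_ho : OR) (hk : SKL) : EA := by
  intro m F hU f hF
  obtain ⟨hd, hb, hm⟩ := hF
  have h0 : (0 : ℂ) ∈ ball (0 : ℂ) 1 := by simp
  have hRHS : 0 ≤ (1 - ‖f 0‖ ^ 2) * ‖iteratedDeriv (m 0 + 1) F 0‖ := by
    have h1 := hb 0 h0
    have h2 := norm_nonneg (f 0)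
    have : 0 ≤ 1 - ‖f 0‖ ^ 2 := by nlinarith
    positivity
  by_cases hlt : ∀ z ∈ ball (0 : ℂ) 1, ‖f z‖ < 1
  · have hSK := hk m f ⟨hd, hb, hm⟩ hlt
    have hle := hU.maj _ hSK
    have hfa := analyticAt_of_ball_298 hd h0
    have hFa := analyticAt_of_ball_298 hU.diff h0
    obtain ⟨f1, hf1, hf10, hf1e⟩ := fac_298 (deriv f) (m 0) hfa.deriv (hm 0 h0)
    obtain ⟨F1, hF1, hF10, hF1e⟩ := fac_298 (deriv F) (m 0) hFa.deriv (hU.ord 0 h0).ge
    have hlim : ‖f1 0‖ / (1 - ‖f 0‖ ^ 2) ≤ ‖F1 0‖ / (1 - ‖F 0‖ ^ 2) := by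
      have t1 : Tendsto (fun w => ‖f1 w‖ / (1 - ‖f w‖ ^ 2)) (𝓝[≠] 0)
          (𝓝 (‖f1 0‖ / (1 - ‖f 0‖ ^ 2))) := by
        have hc : ContinuousAt (fun w => ‖f1 w‖ / (1 - ‖f w‖ ^ 2)) 0 :=
          hf1.continuousAt.norm.div (continuousAt_const.sub (hfa.continuousAt.norm.pow 2))
            (one_sub_pos_298 (hlt 0 h0)).ne'
        exact hc.tendsto.mono_left nhdsWithin_le_nhds
      have t2 : Tendsto (fun w => ‖F1 w‖ / (1 - ‖F w‖ ^ 2)) (𝓝[≠] 0)
          (𝓝 (‖F1 0‖ / (1 - ‖F 0‖ ^ 2))) := by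
        have hc : ContinuousAt (fun w => ‖F1 w‖ / (1 - ‖F w‖ ^ 2)) 0 :=
          hF1.continuousAt.norm.div (continuousAt_const.sub (hFa.continuousAt.norm.pow 2))
            (one_sub_pos_298 (hU.lt 0 h0)).ne'
        exact hc.tendsto.mono_left nhdsWithin_le_nhds
      refine le_of_tendsto_of_tendsto t1 t2 ?_
      have e0 : ∀ᶠ w : ℂ in 𝓝[≠] 0, w ≠ 0 := eventually_mem_nhdsWithin
      have e1 : ∀ᶠ w : ℂ in 𝓝[≠] 0, w ∈ ball (0 : ℂ) 1 :=
        nhdsWithin_le_nhds (isOpen_ball.mem_nhds h0)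
      filter_upwards [e0, e1, nhdsWithin_le_nhds hf1e, nhdsWithin_le_nhds hF1e] with w h1 h2 h3 h4
      have h5 := hle w h2
      rw [lam, lam, h3, h4, norm_mul, norm_mul, norm_pow, mul_div_assoc, mul_div_assoc] at h5
      exact le_of_mul_le_mul_left h5 (pow_pos (norm_pos_iff.2 h1) _)
    rw [hU.zero, norm_zero] at hlim
    have hp := one_sub_pos_298 (hlt 0 h0)
    rw [div_le_iff₀ hp] at hlim
    rw [iteratedDeriv_succ', iteratedDeriv_succ']
    have hfac : (0 : ℝ) < ((m 0).factorial : ℝ) := by exact_mod_cast Nat.factorial_pos _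
    rw [hf10, hF10, norm_div, norm_div, Complex.norm_natCast] at hlim
    have h6 : ‖iteratedDeriv (m 0) (deriv f) 0‖ / ((m 0).factorial : ℝ) ≤
        ((1 - ‖f 0‖ ^ 2) * ‖iteratedDeriv (m 0) (deriv F) 0‖) / ((m 0).factorial : ℝ) := by
      refine hlim.trans (le_of_eq ?_)
      ring
    exact (div_le_div_iff_of_pos_right hfac).1 h6
  · push Not at hlt
    obtain ⟨z1, hz1, h1⟩ := hlt
    have hc := const_of_max_298 f hd hb z1 hz1 (not_lt.2 h1)
    have he : f =ᶠ[𝓝 0] fun _ => f z1 := by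
      filter_upwards [isOpen_ball.mem_nhds h0] with w hw
      exact hc w hw
    have h2 : iteratedDeriv (m 0 + 1) f 0 = 0 := by
      rw [he.iteratedDeriv_eq, iteratedDeriv_succ', deriv_const']
      exact iteratedDeriv_fun_const_zero_298 _
    rw [h2, norm_zero]
    exact hRHS

end Q94.KR
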