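import Pool.Agent.Q94.KR.K20

/-! Job K21 of project KR (author helper94): the case of equality. -/

set_option autoImplicit false

open MeasureTheory Set Filter Topology Metric
open scoped ContDiff InnerProductSpace

namespace Q94.KR

theorem lap4_298 (A B C D : ℂ → ℝ) (w : ℂ) (hA : ContDiffAt ℝ 2 A w) (hB : ContDiffAt ℝ 2 B w)
    (hC : ContDiffAt ℝ 2 C w) (hD : ContDiffAt ℝ 2 D w) : ContDiffAt ℝ 2 (A - B - C + D) w ∧
    lap (A - B - C + D) w = lap A w - lap B w - lap C w + lap D w := by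
  have c1 : ContDiffAt ℝ 2 (A - B) w := hA.sub hB
  have c2 : ContDiffAt ℝ 2 (A - B - C) w := c1.sub hC
  have c3 : ContDiffAt ℝ 2 (A - B - C + D) w := c2.add hD
  have e1 : lap (A - B) w = lap A w - lap B w := hA.laplacian_sub hB
  have e2 : lap (A - B - C) w = lap (A - B) w - lap C w := c1.laplacian_sub hC
  have e3 : lap (A - B - C + D) w = lap (A - B - C) w + lap D w := c2.laplacian_add hD
  exact ⟨c3, by rw [e3, e2, e1]⟩

theorem eb (_ho : OR) (hk : SKL) (hh : LH) (hs : SMP) (hr : RG) : EB := by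
  intro m F hU f hF f00 heq
  obtain ⟨hd, hb, hm⟩ := hF
  have h0 : (0 : ℂ) ∈ ball (0 : ℂ) 1 := by simp
  have hlt : ∀ z ∈ ball (0 : ℂ) 1, ‖f z‖ < 1 := by
    intro z hz
    by_contra h
    have h1 := const_of_max_298 f hd hb z hz h 0 h0
    rw [f00] at h1
    rw [← h1, norm_zero] at h
    exact h one_pos
  have hSK := hk m f ⟨hd, hb, hm⟩ hlt
  have hle := hU.maj _ hSK
  have hfa := analyticAt_of_ball_298 hd h0
  have hFa := analyticAt_of_ball_298 hU.diff h0
  obtain ⟨f1, hf1, hf10, hf1e⟩ := fac_298 (deriv f) (m 0) hfa.deriv (hm 0 h0)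
  obtain ⟨F1, hF1, hF10, hF1e⟩ := fac_298 (deriv F) (m 0) hFa.deriv (hU.ord 0 h0).ge
  rw [iteratedDeriv_succ', iteratedDeriv_succ'] at heq
  have hnorm : ‖f1 0‖ = ‖F1 0‖ := by
    rw [hf10, hF10, norm_div, norm_div, heq]
  have hF1ne : F1 0 ≠ 0 := by
    intro h
    rw [hF10, div_eq_zero_iff] at h
    rcases h with h | h
    · have h1 := (natCast_le_analyticOrderAt_iff_iteratedDeriv_eq_zero hFa.deriv).1 (hU.ord 0 h0).ge
      have h2 : ((m 0 + 1 : ℕ) : ℕ∞) ≤ analyticOrderAt (deriv F) 0 := by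
        rw [natCast_le_analyticOrderAt_iff_iteratedDeriv_eq_zero hFa.deriv]
        intro i hi
        rcases Nat.lt_succ_iff_lt_or_eq.1 hi with h3 | h3
        · exact h1 i h3
        · rw [h3]; exact h
      rw [hU.ord 0 h0] at h2
      have h3 : m 0 + 1 ≤ m 0 := by exact_mod_cast h2
      omega
    · exact absurd h (by exact_mod_cast (Nat.factorial_pos (m 0)).ne')
  have hf1ne : f1 0 ≠ 0 := by
    rw [← norm_pos_iff, hnorm, norm_pos_iff]
    exact hF1ne
  -- a small ball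
  have hlamc : ContinuousAt (lam F) 0 := lam_continuousAt_298 hFa (hU.lt 0 h0)
  obtain ⟨ρ, hρ0, hρ⟩ : ∃ ρ : ℝ, 0 < ρ ∧ ∀ w ∈ ball (0 : ℂ) ρ, w ∈ ball (0 : ℂ) 1 ∧
      deriv f w = w ^ m 0 * f1 w ∧ deriv F w = w ^ m 0 * F1 w ∧ f1 w ≠ 0 ∧ F1 w ≠ 0 ∧
      AnalyticAt ℂ f1 w ∧ AnalyticAt ℂ F1 w ∧ lam F w < lam F 0 + 1 := by
    have hin : ∀ᶠ w in 𝓝 (0 : ℂ), w ∈ ball (0 : ℂ) 1 := isOpen_ball.mem_nhds h0
    have hall := hin.and
      (hf1e.and (hF1e.and ((hf1.continuousAt.eventually_ne hf1ne).and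
        ((hF1.continuousAt.eventually_ne hF1ne).and (hf1.eventually_analyticAt.and
          (hF1.eventually_analyticAt.and
            (hlamc.eventually_lt_const (lt_add_one (lam F 0)))))))))
    obtain ⟨ρ, hρ0, hρ⟩ := Metric.eventually_nhds_iff_ball.1 hall
    exact ⟨ρ, hρ0, hρ⟩
  set u : ℂ → ℝ := ((fun w => Real.log ‖F1 w‖) - (fun w => Real.log ‖f1 w‖) -
    (fun w => -Real.log (1 - ‖f w‖ ^ 2)) + fun w => -Real.log (1 - ‖F w‖ ^ 2)) with hu
  have huw : ∀ w, u w = Real.log ‖F1 w‖ - Real.log ‖f1 w‖ - -Real.log (1 - ‖f w‖ ^ 2) +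
      -Real.log (1 - ‖F w‖ ^ 2) := fun w => rfl
  -- the relation between the metrics
  have hrel : ∀ w ∈ ball (0 : ℂ) ρ, lam f w = lam F w * Real.exp (-u w) := by
    intro w hw
    obtain ⟨a1, a2, a3, a4, a5, -, -, -⟩ := hρ w hw
    have p1 := norm_pos_iff.2 a4
    have p2 := norm_pos_iff.2 a5
    have p3 := one_sub_pos_298 (hlt w a1)
    have p4 := one_sub_pos_298 (hU.lt w a1)
    have e : -u w = Real.log (‖f1 w‖ / (1 - ‖f w‖ ^ 2) / (‖F1 w‖ / (1 - ‖F w‖ ^ 2))) := by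
      rw [Real.log_div (div_pos p1 p3).ne' (div_pos p2 p4).ne', Real.log_div p1.ne' p3.ne',
        Real.log_div p2.ne' p4.ne', huw]
      ring
    rw [e, Real.exp_log (by positivity), lam, lam, a2, a3, norm_mul, norm_mul]
    field_simp
  have hunn : ∀ w ∈ ball (0 : ℂ) ρ, 0 ≤ u w := by
    intro w hw
    by_cases hw0 : w = 0
    · rw [huw, hw0, hnorm, f00, hU.zero]
      simp
    · obtain ⟨a1, a2, a3, a4, a5, -, -, -⟩ := hρ w hw
      have h1 := hle w a1
      rw [hrel w hw] at h1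
      have h2 : 0 < lam F w := by
        rw [lam, a3]
        refine div_pos ?_ (one_sub_pos_298 (hU.lt w a1))
        rw [norm_mul, norm_pow]
        have := norm_pos_iff.2 hw0
        have := norm_pos_iff.2 a5
        positivity
      have h3 : Real.exp (-u w) ≤ 1 := by
        by_contra h
        push Not at h
        nlinarith
      have h4 := Real.exp_le_one_iff.1 h3
      linarith
  have hu0 : u 0 = 0 := by
    rw [huw, hnorm, f00, hU.zero]
    simp
  have hlap : ∀ w ∈ ball (0 : ℂ) ρ, ContDiffAt ℝ 2 u w ∧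
      lap u w = 4 * lam F w ^ 2 - 4 * lam f w ^ 2 := by
    intro w hw
    obtain ⟨a1, a2, a3, a4, a5, a6, a7, -⟩ := hρ w hw
    have H1 := a7.harmonicAt_log_norm a5
    have H2 := a6.harmonicAt_log_norm a4
    obtain ⟨H3, H3'⟩ := hh f w (analyticAt_of_ball_298 hd a1) (hlt w a1)
    obtain ⟨H4, H4'⟩ := hh F w (analyticAt_of_ball_298 hU.diff a1) (hU.lt w a1)
    obtain ⟨c3, e3⟩ := lap4_298 _ _ _ _ w H1.1 H2.1 H3 H4
    refine ⟨c3, ?_⟩
    have l1 : lap (fun w => Real.log ‖F1 w‖) w = 0 := by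
      simpa using H1.2.self_of_nhds
    have l2 : lap (fun w => Real.log ‖f1 w‖) w = 0 := by
      simpa using H2.2.self_of_nhds
    refine e3.trans ?_
    rw [l1, l2, H3', H4']
    ring
  have hlamFnn : ∀ w ∈ ball (0 : ℂ) 1, 0 ≤ lam F w := fun w hw =>
    div_nonneg (norm_nonneg _) (one_sub_pos_298 (hU.lt w hw)).le
  obtain ⟨R', hR'0, hR'⟩ := hs u ρ (8 * (lam F 0 + 1) ^ 2) hρ0 (fun z hz => (hlap z hz).1) hunn hu0
    (by
      intro w hw
      obtain ⟨a1, -, -, -, -, -, -, a8⟩ := hρ w hw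
      rw [(hlap w hw).2, hrel w hw]
      have h1 : 1 - 2 * u w ≤ Real.exp (-u w) ^ 2 := by
        rw [← Real.exp_nat_mul]
        have := Real.add_one_le_exp (((2 : ℕ) : ℝ) * -u w)
        push_cast at this ⊢
        linarith
      have h2 := hunn w hw
      have h3 := hlamFnn w a1
      have h4 : lam F w ^ 2 ≤ (lam F 0 + 1) ^ 2 := pow_le_pow_left₀ h3 a8.le 2
      calc 4 * lam F w ^ 2 - 4 * (lam F w * Real.exp (-u w)) ^ 2
          = 4 * lam F w ^ 2 * (1 - Real.exp (-u w) ^ 2) := by ring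
        _ ≤ 4 * lam F w ^ 2 * (2 * u w) := mul_le_mul_of_nonneg_left (by linarith) (by positivity)
        _ = 8 * u w * lam F w ^ 2 := by ring
        _ ≤ 8 * u w * (lam F 0 + 1) ^ 2 := mul_le_mul_of_nonneg_left h4 (by positivity)
        _ = 8 * (lam F 0 + 1) ^ 2 * u w := by ring)
  -- equality near the origin
  have hlameq : ∀ w ∈ ball (0 : ℂ) (min ρ R'), lam f w = lam F w := by
    intro w hw
    have h1 : w ∈ ball (0 : ℂ) ρ := ball_subset_ball (min_le_left _ _) hw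
    have h2 : w ∈ ball (0 : ℂ) R' := ball_subset_ball (min_le_right _ _) hw
    rw [hrel w h1, hR' w h2, neg_zero, Real.exp_zero, mul_one]
  have hpos : 0 < min ρ R' := lt_min hρ0 hR'0
  set z0 : ℂ := ((min ρ R' / 2 : ℝ) : ℂ) with hz0
  have hz0n : ‖z0‖ = min ρ R' / 2 := by
    rw [hz0, Complex.norm_real, Real.norm_of_nonneg (by positivity)]
  have hz0b : z0 ∈ ball (0 : ℂ) (min ρ R') := by
    rw [mem_ball_zero_iff, hz0n]
    linarith
  have hz0ne : z0 ≠ 0 := by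
    rw [← norm_pos_iff, hz0n]; positivity
  obtain ⟨a1, a2, a3, a4, a5, -, -, -⟩ := hρ z0 (ball_subset_ball (min_le_left _ _) hz0b)
  obtain ⟨T, ⟨a, c, ha, hc, hT⟩, hfT⟩ := hr f F hd hlt hU.diff hU.lt ⟨z0, a1, by
    rw [a3]; exact mul_ne_zero (pow_ne_zero _ hz0ne) a5, by
    filter_upwards [isOpen_ball.mem_nhds hz0b] with w hw
    exact hlameq w hw⟩
  have h1 := hfT 0 h0
  rw [f00, hU.zero, hT] at h1
  have hcne : c ≠ 0 := by
    intro h
    rw [h, norm_zero] at hc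
    exact zero_ne_one hc
  have ha0 : a = 0 := by
    rw [mul_zero, sub_zero, div_one, zero_sub] at h1
    rcases mul_eq_zero.1 h1.symm with h | h
    · exact absurd h hcne
    · exact neg_eq_zero.1 h
  refine ⟨c, hc, fun z hz => ?_⟩
  rw [hfT z hz, hT, ha0]
  simp

end Q94.KR
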