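import Pool.Agent.Q94.KR.Stm

open MeasureTheory Set Filter Topology Metric
open scoped ContDiff InnerProductSpace

namespace Q94.KR

lemma isAut_rot {c : ℂ} (hc : ‖c‖ = 1) : IsAut (fun w => c * w) :=
  ⟨0, c, by simp, hc, fun w => by simp⟩

theorem ec (hu : UM) (ha : EA) (hb : EB) (hau : AU) : EC := by
  intro m hm
  obtain ⟨F0, hF0⟩ := hu m hm
  have h0 : (0 : ℂ) ∈ ball (0 : ℂ) 1 := by simp
  have han : AnalyticAt ℂ F0 0 := hF0.diff.analyticAt (isOpen_ball.mem_nhds h0)
  -- the leading coefficient does not vanish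
  have hne : iteratedDeriv (m 0 + 1) F0 0 ≠ 0 := by
    have h1 := hF0.ord 0 h0
    rw [iteratedDeriv_succ']
    exact ((analyticOrderAt_eq_nat_iff_iteratedDeriv_eq_zero han.deriv).1 h1).2
  set q : ℂ := iteratedDeriv (m 0 + 1) F0 0 with hq
  set μ : ℝ := ‖q‖ with hμ
  have hμ0 : 0 < μ := norm_pos_iff.2 hne
  set c : ℂ := (starRingEnd ℂ) q / μ with hc
  have hc1 : ‖c‖ = 1 := by
    rw [hc, norm_div, RCLike.norm_conj, Complex.norm_real, Real.norm_of_nonneg hμ0.le, ← hμ,
      div_self hμ0.ne']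
  have hcq : c * q = μ := by
    rw [hc, div_mul_eq_mul_div, mul_comm, Complex.mul_conj, Complex.normSq_eq_norm_sq, ← hμ]
    push_cast
    field_simp
  set F : ℂ → ℂ := fun z => c * F0 z with hF
  have hrot := hau _ (isAut_rot hc1)
  have hd : ∀ z ∈ ball (0 : ℂ) 1, AnalyticAt ℂ F0 z := fun z hz =>
    hF0.diff.analyticAt (isOpen_ball.mem_nhds hz)
  have hlam : ∀ z ∈ ball (0 : ℂ) 1, lam F z = lam F0 z := fun z hz =>
    hrot.2.2.1 F0 z (hd z hz) (hF0.lt z hz)
  have hUF : Univ m F := by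
    refine ⟨hF0.diff.const_mul c, fun z hz => ?_, ?_, fun z hz => ?_, fun σ hσ z hz => ?_⟩
    · rw [hF]; simp only [norm_mul, hc1, one_mul]; exact hF0.lt z hz
    · rw [hF]; simp [hF0.zero]
    · rw [← hF0.ord z hz]
      have h1 : deriv F = fun w => c * deriv F0 w := by
        ext w
        rw [hF]
        exact deriv_const_mul_field c
      rw [h1]
      have hc0 : c ≠ 0 := by
        intro h; rw [h] at hc1; simp at hc1
      have h2 : analyticOrderAt ((fun _ => c) * deriv F0) z = analyticOrderAt (deriv F0) z := by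
        rw [analyticOrderAt_mul analyticAt_const (hd z hz).deriv]
        rw [(analyticAt_const (v := c)).analyticOrderAt_eq_zero.2 hc0, zero_add]
      exact h2
    · rw [hlam z hz]; exact hF0.maj σ hσ z hz
  have hFder : iteratedDeriv (m 0 + 1) F 0 = μ := by
    rw [← hcq, hF, hq]
    exact iteratedDeriv_const_mul_field c F0
  have hFam : Fam m F := ⟨hUF.diff, fun z hz => (hUF.lt z hz).le, fun z hz => (hUF.ord z hz).ge⟩
  refine ⟨F, hUF, ⟨hFam, fun g hg => ?_⟩, fun f hf => ?_⟩
  · have h1 := ha m F hUF g hg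
    rw [hFder, Complex.norm_real, Real.norm_of_nonneg hμ0.le] at h1
    rw [hFder, Complex.ofReal_re]
    calc (iteratedDeriv (m 0 + 1) g 0).re ≤ ‖iteratedDeriv (m 0 + 1) g 0‖ := Complex.re_le_norm _
      _ ≤ (1 - ‖g 0‖ ^ 2) * μ := h1
      _ ≤ μ := by nlinarith [sq_nonneg ‖g 0‖]
  · have h1 := ha m F hUF f hf.1
    rw [hFder, Complex.norm_real, Real.norm_of_nonneg hμ0.le] at h1
    have h2 := hf.2 F hFam
    rw [hFder, Complex.ofReal_re] at h2
    set p : ℂ := iteratedDeriv (m 0 + 1) f 0 with hp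
    have h3 := Complex.re_le_norm p
    have h4 : ‖f 0‖ ^ 2 * μ ≤ 0 := by nlinarith
    have h5 : ‖f 0‖ ^ 2 = 0 := by
      by_contra hcon
      have : 0 < ‖f 0‖ ^ 2 := lt_of_le_of_ne (sq_nonneg _) (Ne.symm hcon)
      nlinarith [mul_pos this hμ0]
    have hf0 : f 0 = 0 := by simpa using h5
    rw [h5] at h1
    have h6 : ‖p‖ = μ := by linarith
    have hpμ : p = μ := by
      have hre : p.re = μ := by linarith
      have him : p.im = 0 := by
        have := Complex.sq_norm p
        rw [Complex.normSq_apply, h6, hre] at this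
        nlinarith [this]
      exact Complex.ext (by simp [hre]) (by simp [him])
    obtain ⟨d, hd1, hfd⟩ := hb m F hUF f hf.1 hf0 (by rw [← hp, h6, hFder, Complex.norm_real,
      Real.norm_of_nonneg hμ0.le])
    have hpd : p = d * μ := by
      rw [hp, ← hFder]
      have hev : f =ᶠ[𝓝 0] fun z => d * F z := by
        filter_upwards [isOpen_ball.mem_nhds h0] with z hz using hfd z hz
      rw [hev.iteratedDeriv_eq]
      exact iteratedDeriv_const_mul_field d F
    have hd2 : d = 1 := by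
      have hμc : (μ : ℂ) ≠ 0 := by exact_mod_cast hμ0.ne'
      rw [hpμ] at hpd
      exact (mul_right_cancel₀ hμc (by rw [one_mul]; exact hpd)).symm
    intro z hz
    rw [hfd z hz, hd2, one_mul]

end Q94.KR
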