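import Pool.Agent.Q94.KR.Stm

open MeasureTheory Set Filter Topology Metric
open scoped ContDiff InnerProductSpace

namespace Q94.KR

lemma lam_congr {f g : ℂ → ℂ} {z : ℂ} (h : f =ᶠ[𝓝 z] g) : lam f z = lam g z := by
  unfold lam
  rw [h.deriv_eq, h.eq_of_nhds]

lemma analyticAt_of_ball {f : ℂ → ℂ} (h : DifferentiableOn ℂ f (ball 0 1)) {z : ℂ}
    (hz : z ∈ ball (0 : ℂ) 1) : AnalyticAt ℂ f z :=
  h.analyticAt (isOpen_ball.mem_nhds hz)

lemma lam_nonneg {f : ℂ → ℂ} {z : ℂ} (h : ‖f z‖ < 1) : 0 ≤ lam f z := by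
  unfold lam
  have : 0 ≤ 1 - ‖f z‖ ^ 2 := by nlinarith [norm_nonneg (f z)]
  positivity

lemma lam_pos_iff {f : ℂ → ℂ} {z : ℂ} (h : ‖f z‖ < 1) : 0 < lam f z ↔ deriv f z ≠ 0 := by
  unfold lam
  have h1 : 0 < 1 - ‖f z‖ ^ 2 := by nlinarith [norm_nonneg (f z)]
  rw [div_pos_iff_of_pos_right h1, norm_pos_iff]

lemma lam_continuousOn {f : ℂ → ℂ} (h : DifferentiableOn ℂ f (ball 0 1))
    (h1 : ∀ z ∈ ball (0 : ℂ) 1, ‖f z‖ < 1) : ContinuousOn (lam f) (ball 0 1) := by
  unfold lam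
  apply ContinuousOn.div
  · exact ((h.analyticOnNhd isOpen_ball).deriv).continuousOn.norm
  · exact continuousOn_const.sub (h.continuousOn.norm.pow 2)
  · intro z hz
    have := h1 z hz
    have h2 : 0 < 1 - ‖f z‖ ^ 2 := by nlinarith [norm_nonneg (f z)]
    exact h2.ne'

/-- Two-sided bounds for the metric near a point. -/
lemma lam_upper (ho : OR) {f : ℂ → ℂ} (h : DifferentiableOn ℂ f (ball 0 1))
    (h1 : ∀ z ∈ ball (0 : ℂ) 1, ‖f z‖ < 1) {z : ℂ} (hz : z ∈ ball (0 : ℂ) 1) {n : ℕ}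
    (hn : (n : ℕ∞) ≤ analyticOrderAt (deriv f) z) :
    ∃ K : ℝ, 0 ≤ K ∧ ∀ᶠ w in 𝓝 z, lam f w ≤ K * ‖w - z‖ ^ n := by
  have ha : AnalyticAt ℂ (deriv f) z := (analyticAt_of_ball h hz).deriv
  obtain ⟨K, hK⟩ := ((ho (deriv f) z n ha).1).1 hn
  have hc : ContinuousAt (fun w => 1 - ‖f w‖ ^ 2) z :=
    continuousAt_const.sub ((analyticAt_of_ball h hz).continuousAt.norm.pow 2)
  have hp : 0 < 1 - ‖f z‖ ^ 2 := by nlinarith [norm_nonneg (f z), h1 z hz]
  have hc' : ∀ᶠ w in 𝓝 z, (1 - ‖f z‖ ^ 2) / 2 < 1 - ‖f w‖ ^ 2 :=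
    hc.eventually (lt_mem_nhds (by linarith))
  refine ⟨|K| / ((1 - ‖f z‖ ^ 2) / 2), by positivity, ?_⟩
  filter_upwards [hK, hc'] with w hw hw'
  unfold lam
  have h2 : ‖deriv f w‖ ≤ |K| * ‖w - z‖ ^ n :=
    hw.trans (mul_le_mul_of_nonneg_right (le_abs_self K) (by positivity))
  calc ‖deriv f w‖ / (1 - ‖f w‖ ^ 2) ≤ (|K| * ‖w - z‖ ^ n) / ((1 - ‖f z‖ ^ 2) / 2) := by
        apply div_le_div₀ (by positivity) h2 (by linarith) hw'.le
    _ = |K| / ((1 - ‖f z‖ ^ 2) / 2) * ‖w - z‖ ^ n := by ring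

lemma lam_lower (ho : OR) {f : ℂ → ℂ} (h : DifferentiableOn ℂ f (ball 0 1))
    (h1 : ∀ z ∈ ball (0 : ℂ) 1, ‖f z‖ < 1) {z : ℂ} (hz : z ∈ ball (0 : ℂ) 1) {n : ℕ}
    (hn : analyticOrderAt (deriv f) z ≤ n) :
    ∃ k : ℝ, 0 < k ∧ ∀ᶠ w in 𝓝 z, k * ‖w - z‖ ^ n ≤ lam f w := by
  have ha : AnalyticAt ℂ (deriv f) z := (analyticAt_of_ball h hz).deriv
  obtain ⟨k, hk0, hk⟩ := ((ho (deriv f) z n ha).2).1 hn
  refine ⟨k, hk0, ?_⟩
  filter_upwards [hk, isOpen_ball.mem_nhds hz] with w hw hwb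
  have hp : 0 < 1 - ‖f w‖ ^ 2 := by nlinarith [norm_nonneg (f w), h1 w hwb]
  unfold lam
  rw [le_div_iff₀ hp]
  have : k * ‖w - z‖ ^ n * (1 - ‖f w‖ ^ 2) ≤ k * ‖w - z‖ ^ n * 1 := by
    apply mul_le_mul_of_nonneg_left _ (by positivity)
    nlinarith [norm_nonneg (f w)]
  linarith

theorem fin (ho : OR) (hl : LL) (hk : SKL) (ha : AH) (hr : RG) (hu : AU) (he : EC) : FIN := by
  intro A0 B C hB hB1 hC hC1 hAB hA
  obtain ⟨m, hm, f, T, hf, hT, hAf⟩ := hA
  obtain ⟨F, hF, hFe, hFu⟩ := he m hm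
  obtain ⟨hTd, hT1, hTl, -, -⟩ := hu T hT
  set A : ℂ → ℂ := fun z => B (C z) with hAdef
  have hCm : MapsTo C (ball 0 1) (ball 0 1) := fun z hz => by
    rw [mem_ball_zero_iff]; exact hC1 z hz
  have hAd : DifferentiableOn ℂ A (ball 0 1) := hB.comp hC hCm
  have hAF : ∀ z ∈ ball (0 : ℂ) 1, A z = T (F z) := by
    intro z hz
    rw [← hFu f hf z hz, ← hAf z hz, hAB z hz]
  have hA1 : ∀ z ∈ ball (0 : ℂ) 1, ‖A z‖ < 1 := fun z hz => by
    rw [hAF z hz]; exact hT1 _ (hF.lt z hz)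
  have hlamA : ∀ z ∈ ball (0 : ℂ) 1, lam A z = lam F z := by
    intro z hz
    have h1 : A =ᶠ[𝓝 z] fun w => T (F w) := by
      filter_upwards [isOpen_ball.mem_nhds hz] with w hw using hAF w hw
    rw [lam_congr h1]
    exact hTl F z (analyticAt_of_ball hF.diff hz) (hF.lt z hz)
  -- a point where the derivative does not vanish, near every point
  have hne : ∀ z ∈ ball (0 : ℂ) 1, ¬ ∀ᶠ w in 𝓝 z, deriv A w = 0 := by
    intro z hz hcon
    have h1 : ∀ᶠ w in 𝓝 z, deriv F w = 0 := by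
      filter_upwards [hcon, isOpen_ball.mem_nhds hz] with w hw hwb
      by_contra hne
      have h2 := (lam_pos_iff (hF.lt w hwb)).2 hne
      rw [← hlamA w hwb] at h2
      exact (lam_pos_iff (hA1 w hwb)).1 h2 hw
    have h2 := hF.ord z hz
    rw [analyticOrderAt_eq_top.2 h1] at h2
    exact ENat.natCast_ne_top _ h2.symm
  -- chain rule
  have hderiv : ∀ z ∈ ball (0 : ℂ) 1, deriv A z = deriv B (C z) * deriv C z := by
    intro z hz
    have h1 := (analyticAt_of_ball hB (hCm hz)).differentiableAt.hasDerivAt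
    have h2 := (analyticAt_of_ball hC hz).differentiableAt.hasDerivAt
    exact (h1.comp z h2).deriv
  -- `B` takes values in the open disc
  have hB2 : ∀ z ∈ ball (0 : ℂ) 1, ‖B z‖ < 1 := by
    intro z hz
    by_contra hcon
    have h1 : ‖B z‖ = 1 := le_antisymm (hB1 z hz) (not_lt.1 hcon)
    have hmax : IsMaxOn (norm ∘ B) (ball 0 1) z := fun w hw => by
      simp only [Function.comp_apply, mem_ofPred_eq, h1]
      exact hB1 w hw
    have hconst := Complex.eqOn_of_isPreconnected_of_isMaxOn_norm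
      (convex_ball (0 : ℂ) 1).isPreconnected isOpen_ball hB hz hmax
    apply hne 0 (by simp)
    filter_upwards [isOpen_ball.mem_nhds (by simp : (0 : ℂ) ∈ ball (0 : ℂ) 1)] with w hw
    have h2 : A =ᶠ[𝓝 w] fun _ => B z := by
      filter_upwards [isOpen_ball.mem_nhds hw] with v hv
      exact hconst (hCm hv)
    rw [h2.deriv_eq, deriv_const]
  have hFamB : Fam (fun _ => 0) B := ⟨hB, hB1, fun z hz => by simp⟩
  have hSP : ∀ z ∈ ball (0 : ℂ) 1, lam B z ≤ 1 / (1 - ‖z‖ ^ 2) :=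
    ha _ _ (hk _ B hFamB hB2)
  have hAC : ∀ z ∈ ball (0 : ℂ) 1, lam A z ≤ lam C z := by
    intro z hz
    have h1 := hSP (C z) (hCm hz)
    have h2 : lam A z = lam B (C z) * ‖deriv C z‖ := by
      unfold lam
      rw [hderiv z hz, norm_mul]
      ring
    rw [h2]
    calc lam B (C z) * ‖deriv C z‖ ≤ 1 / (1 - ‖C z‖ ^ 2) * ‖deriv C z‖ :=
          mul_le_mul_of_nonneg_right h1 (norm_nonneg _)
      _ = lam C z := by unfold lam; ring
  -- the critical set of `C`
  set n : ℂ → ℕ := fun z => (analyticOrderAt (deriv C) z).toNat with hn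
  have hnC : ∀ z ∈ ball (0 : ℂ) 1, analyticOrderAt (deriv C) z = n z := by
    intro z hz
    rw [hn]
    refine (ENat.natCast_toNat ?_).symm
    intro hcon
    rw [analyticOrderAt_eq_top] at hcon
    apply hne z hz
    filter_upwards [hcon, isOpen_ball.mem_nhds hz] with w hw hwb
    rw [hderiv w hwb, hw, mul_zero]
  have hcrit : Crit n := ⟨C, hC, ⟨1, fun z hz => (hC1 z hz).le⟩, hnC⟩
  obtain ⟨G, hG, hGe, -⟩ := he n hcrit
  have hFamC : Fam n C := ⟨hC, fun z hz => (hC1 z hz).le, fun z hz => (hnC z hz).ge⟩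
  have hCG : ∀ z ∈ ball (0 : ℂ) 1, lam C z ≤ lam G z := hG.maj _ (hk n C hFamC hC1)
  -- the new metric
  set σ : ℂ → ℝ := fun z => lam A z * lam G z / lam C z with hσ
  have hσ0 : ∀ z ∈ ball (0 : ℂ) 1, 0 ≤ σ z := fun z hz =>
    div_nonneg (mul_nonneg (lam_nonneg (hA1 z hz)) (lam_nonneg (hG.lt z hz)))
      (lam_nonneg (hC1 z hz))
  have hzero : ∀ z ∈ ball (0 : ℂ) 1, ∃ K : ℝ, ∀ᶠ w in 𝓝 z, σ w ≤ K * ‖w - z‖ ^ m z := by
    intro z hz
    obtain ⟨K1, hK1, h1⟩ := lam_upper ho hF.diff hF.lt hz (hF.ord z hz).ge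
    obtain ⟨K2, hK2, h2⟩ := lam_upper ho hG.diff hG.lt hz (hG.ord z hz).ge
    obtain ⟨k3, hk3, h3⟩ := lam_lower ho hC hC1 hz (hnC z hz).le
    refine ⟨K1 * (K2 / k3), ?_⟩
    filter_upwards [h1, h2, h3, isOpen_ball.mem_nhds hz] with w h1 h2 h3 hwb
    have hA0 := lam_nonneg (hA1 w hwb)
    have hG0 := lam_nonneg (hG.lt w hwb)
    have hC0 := lam_nonneg (hC1 w hwb)
    have hq : lam G w / lam C w ≤ K2 / k3 := by
      rcases hC0.eq_or_lt with h | h
      · rw [← h, div_zero]; positivity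
      · rw [div_le_div_iff₀ h hk3]
        calc lam G w * k3 ≤ (K2 * ‖w - z‖ ^ n z) * k3 := mul_le_mul_of_nonneg_right h2 hk3.le
          _ = K2 * (k3 * ‖w - z‖ ^ n z) := by ring
          _ ≤ K2 * lam C w := mul_le_mul_of_nonneg_left h3 hK2
    calc σ w = lam A w * (lam G w / lam C w) := by rw [hσ]; ring
      _ ≤ (K1 * ‖w - z‖ ^ m z) * (K2 / k3) := by
          apply mul_le_mul _ hq (div_nonneg hG0 hC0) (by positivity)
          rw [hlamA w hwb]; exact h1
      _ = K1 * (K2 / k3) * ‖w - z‖ ^ m z := by ring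
  have hAcrit : ∀ z ∈ ball (0 : ℂ) 1, deriv C z = 0 → deriv A z = 0 := by
    intro z hz h
    rw [hderiv z hz, h, mul_zero]
  have key : ∀ z ∈ ball (0 : ℂ) 1, 0 < σ z →
      ContDiffAt ℝ 2 (fun w => Real.log (σ w)) z ∧
      lap (fun w => Real.log (σ w)) z = 4 * lam A z ^ 2 + 4 * lam G z ^ 2 - 4 * lam C z ^ 2 ∧
      0 < lam A z ∧ 0 < lam G z ∧ 0 < lam C z := by
    intro z hz hpos
    have hA0 := lam_nonneg (hA1 z hz)
    have hG0 := lam_nonneg (hG.lt z hz)
    have hC0 := lam_nonneg (hC1 z hz)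
    have hAp : 0 < lam A z := by
      rcases hA0.eq_or_lt with h | h
      · exfalso; rw [hσ] at hpos; simp [← h] at hpos
      · exact h
    have hGp : 0 < lam G z := by
      rcases hG0.eq_or_lt with h | h
      · exfalso; rw [hσ] at hpos; simp [← h] at hpos
      · exact h
    have hCp : 0 < lam C z := by
      rcases hC0.eq_or_lt with h | h
      · exfalso; rw [hσ] at hpos; simp [← h] at hpos
      · exact h
    have cA := (lam_continuousOn hAd hA1).continuousAt (isOpen_ball.mem_nhds hz)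
    have cG := (lam_continuousOn hG.diff hG.lt).continuousAt (isOpen_ball.mem_nhds hz)
    have cC := (lam_continuousOn hC hC1).continuousAt (isOpen_ball.mem_nhds hz)
    have hev : (fun w => Real.log (σ w)) =ᶠ[𝓝 z]
        ((fun w => Real.log (lam A w)) + (fun w => Real.log (lam G w))) -
          (fun w => Real.log (lam C w)) := by
      filter_upwards [cA.eventually (lt_mem_nhds hAp), cG.eventually (lt_mem_nhds hGp),
        cC.eventually (lt_mem_nhds hCp)] with w h1 h2 h3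
      simp only [hσ, Pi.sub_apply, Pi.add_apply]
      rw [Real.log_div (mul_pos h1 h2).ne' h3.ne', Real.log_mul h1.ne' h2.ne']
    obtain ⟨a1, a2⟩ := hl A z (analyticAt_of_ball hAd hz) (hA1 z hz)
      ((lam_pos_iff (hA1 z hz)).1 hAp)
    obtain ⟨g1, g2⟩ := hl G z (analyticAt_of_ball hG.diff hz) (hG.lt z hz)
      ((lam_pos_iff (hG.lt z hz)).1 hGp)
    obtain ⟨c1, c2⟩ := hl C z (analyticAt_of_ball hC hz) (hC1 z hz)
      ((lam_pos_iff (hC1 z hz)).1 hCp)
    refine ⟨((a1.add g1).sub c1).congr_of_eventuallyEq hev, ?_, hAp, hGp, hCp⟩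
    have e1 : lap (fun w => Real.log (σ w)) z = lap (((fun w => Real.log (lam A w)) +
        (fun w => Real.log (lam G w))) - (fun w => Real.log (lam C w))) z :=
      (InnerProductSpace.laplacian_congr_nhds hev).eq_of_nhds
    have e2 : lap (((fun w => Real.log (lam A w)) + (fun w => Real.log (lam G w))) -
        (fun w => Real.log (lam C w))) z = lap ((fun w => Real.log (lam A w)) +
        (fun w => Real.log (lam G w))) z - lap (fun w => Real.log (lam C w)) z :=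
      (a1.add g1).laplacian_sub c1
    have e3 : lap ((fun w => Real.log (lam A w)) + (fun w => Real.log (lam G w))) z =
        lap (fun w => Real.log (lam A w)) z + lap (fun w => Real.log (lam G w)) z :=
      a1.laplacian_add g1
    rw [e1, e2, e3]
    rw [a2, g2, c2]
  have hSK : SK m σ := by
    refine ⟨?_, hσ0, ?_, ?_, hzero⟩
    · intro z hz
      apply ContinuousAt.continuousWithinAt
      have cA := (lam_continuousOn hAd hA1).continuousAt (isOpen_ball.mem_nhds hz)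
      have cG := (lam_continuousOn hG.diff hG.lt).continuousAt (isOpen_ball.mem_nhds hz)
      have cC := (lam_continuousOn hC hC1).continuousAt (isOpen_ball.mem_nhds hz)
      by_cases hc : deriv C z = 0
      · have hmz : m z ≠ 0 := by
          intro h0
          have h1 := hF.ord z hz
          rw [h0, Nat.cast_zero, (analyticAt_of_ball hF.diff hz).deriv.analyticOrderAt_eq_zero]
            at h1
          have h2 := (lam_pos_iff (hF.lt z hz)).2 h1
          rw [← hlamA z hz] at h2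
          exact (lam_pos_iff (hA1 z hz)).1 h2 (hAcrit z hz hc)
        have hσz : σ z = 0 := by
          have : lam C z = 0 := by unfold lam; rw [hc]; simp
          rw [hσ]
          simp [this]
        obtain ⟨K, hK⟩ := hzero z hz
        unfold ContinuousAt
        rw [hσz]
        have hlim : Tendsto (fun w => K * ‖w - z‖ ^ m z) (𝓝 z) (𝓝 0) := by
          have : Tendsto (fun w => K * ‖w - z‖ ^ m z) (𝓝 z) (𝓝 (K * ‖z - z‖ ^ m z)) := by
            apply Continuous.tendsto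
            fun_prop
          simpa [hmz] using this
        refine squeeze_zero' ?_ hK hlim
        filter_upwards [isOpen_ball.mem_nhds hz] with w hw using hσ0 w hw
      · exact (cA.mul cG).div cC ((lam_pos_iff (hC1 z hz)).2 hc).ne'
    · intro z hz hpos
      exact (key z hz hpos).1
    · intro z hz hpos
      obtain ⟨-, h2, hAp, hGp, hCp⟩ := key z hz hpos
      rw [h2]
      have h3 : σ z ^ 2 = lam A z ^ 2 * lam G z ^ 2 / lam C z ^ 2 := by
        simp only [hσ]; rw [div_pow, mul_pow]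
      rw [h3]
      have hac := hAC z hz
      have hcg := hCG z hz
      have h4 : lam A z ^ 2 * lam G z ^ 2 / lam C z ^ 2 ≤
          lam A z ^ 2 + lam G z ^ 2 - lam C z ^ 2 := by
        rw [div_le_iff₀ (by positivity)]
        have h5 : lam A z ^ 2 ≤ lam C z ^ 2 := by gcongr
        have h6 : lam C z ^ 2 ≤ lam G z ^ 2 := by gcongr
        nlinarith [mul_nonneg (sub_nonneg.2 h5) (sub_nonneg.2 h6)]
      linarith
  have hfinal : ∀ z ∈ ball (0 : ℂ) 1, deriv A z ≠ 0 → lam C z = lam G z := by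
    intro z hz hne0
    have hAp := (lam_pos_iff (hA1 z hz)).2 hne0
    have hCp : 0 < lam C z := hAp.trans_le (hAC z hz)
    have h1 := hF.maj σ hSK z hz
    rw [← hlamA z hz] at h1
    have h2 : lam A z * lam G z ≤ lam A z * lam C z := by
      have := (div_le_iff₀ hCp).1 h1
      exact this
    exact le_antisymm (hCG z hz) (le_of_mul_le_mul_left h2 hAp)
  -- a good point
  obtain ⟨z0, hz0, hz0'⟩ : ∃ z0 ∈ ball (0 : ℂ) 1, deriv A z0 ≠ 0 := by
    by_contra hcon
    push Not at hcon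
    apply hne 0 (by simp)
    filter_upwards [isOpen_ball.mem_nhds (by simp : (0 : ℂ) ∈ ball (0 : ℂ) 1)] with w hw
    exact hcon w hw
  have hev : ∀ᶠ z in 𝓝 z0, lam C z = lam G z := by
    have h1 : ∀ᶠ z in 𝓝 z0, deriv A z ≠ 0 :=
      (analyticAt_of_ball hAd hz0).deriv.continuousAt.eventually_ne hz0'
    filter_upwards [h1, isOpen_ball.mem_nhds hz0] with z h1 h2 using hfinal z h2 h1
  have hG0 : deriv G z0 ≠ 0 := by
    have hAp := (lam_pos_iff (hA1 z0 hz0)).2 hz0'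
    have hCp : 0 < lam C z0 := hAp.trans_le (hAC z0 hz0)
    rw [hfinal z0 hz0 hz0'] at hCp
    exact (lam_pos_iff (hG.lt z0 hz0)).1 hCp
  obtain ⟨S, hS, hCS⟩ := hr C G hC hC1 hG.diff hG.lt ⟨z0, hz0, hG0, hev⟩
  exact ⟨n, hcrit, G, S, hGe, hS, hCS⟩

end Q94.KR
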