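import Pool.Agent.Q94.KR.K23

open MeasureTheory Set Filter Topology Metric
open scoped ContDiff InnerProductSpace

namespace Q94.KR

theorem lit (ha : AH) (hk : SKL) (hu : AU) (he : EC) : LIT := by
  have h0 : (0 : ℂ) ∈ ball (0 : ℂ) 1 := by simp
  have hid : DifferentiableOn ℂ (fun z : ℂ => z) (ball 0 1) := differentiableOn_id
  constructor
  · refine ⟨fun _ => 0, ⟨fun z => z, hid, ⟨1, fun z hz => ?_⟩, fun z hz => ?_⟩, fun z => z,
      fun w => w, ⟨⟨hid, fun z hz => ?_, fun z hz => by simp⟩, fun g hg => ?_⟩,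
      ⟨0, 1, by simp, by simp, fun w => by simp⟩, fun z _ => rfl⟩
    · exact (mem_ball_zero_iff.1 hz).le
    · rw [Nat.cast_zero, analyticOrderAt_eq_zero]
      right
      simp
    · exact (mem_ball_zero_iff.1 hz).le
    · simp only [zero_add, iteratedDeriv_one, deriv_id'', Complex.one_re]
      obtain ⟨hg1, hg2, -⟩ := hg
      by_cases hlt : ∀ z ∈ ball (0 : ℂ) 1, ‖g z‖ < 1
      · have h1 := ha _ _ (hk (fun _ => 0) g ⟨hg1, hg2, fun z hz => by simp⟩ hlt) 0 h0
        simp only [norm_zero, ne_eq, OfNat.ofNat_ne_zero, not_false_eq_true, zero_pow, sub_zero,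
          div_one] at h1
        unfold lam at h1
        have h2 := hlt 0 h0
        have h3 : 0 < 1 - ‖g 0‖ ^ 2 := by nlinarith [norm_nonneg (g 0)]
        rw [div_le_one h3] at h1
        have h4 := Complex.re_le_norm (deriv g 0)
        nlinarith [sq_nonneg ‖g 0‖]
      · push Not at hlt
        obtain ⟨z, hz, hz1⟩ := hlt
        have h1 : ‖g z‖ = 1 := le_antisymm (hg2 z hz) hz1
        have hmax : IsMaxOn (norm ∘ g) (ball 0 1) z := fun w hw => by
          simp only [Function.comp_apply, mem_ofPred_eq, h1]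
          exact hg2 w hw
        have hconst := Complex.eqOn_of_isPreconnected_of_isMaxOn_norm
          (convex_ball (0 : ℂ) 1).isPreconnected isOpen_ball hg1 hz hmax
        have h2 : g =ᶠ[𝓝 0] fun _ => g z := by
          filter_upwards [isOpen_ball.mem_nhds h0] with v hv using hconst hv
        rw [h2.deriv_eq, deriv_const]
        simp
  · rintro ⟨m, hm, f, T, hf, hT, hAf⟩
    obtain ⟨F, hF, hFe, hFu⟩ := he m hm
    obtain ⟨hTd, hT1, hTl, -, -⟩ := hu T hT
    have hAF : ∀ z ∈ ball (0 : ℂ) 1, z / 2 = T (F z) := by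
      intro z hz
      rw [← hFu f hf z hz]
      exact hAf z hz
    have hder : ∀ z : ℂ, deriv (fun z : ℂ => z / 2) z = 1 / 2 := by
      intro z
      simp
    have hlamA : ∀ z ∈ ball (0 : ℂ) 1, lam (fun z => z / 2) z = lam F z := by
      intro z hz
      have h1 : (fun z : ℂ => z / 2) =ᶠ[𝓝 z] fun w => T (F w) := by
        filter_upwards [isOpen_ball.mem_nhds hz] with w hw using hAF w hw
      rw [lam_congr h1]
      exact hTl F z (analyticAt_of_ball hF.diff hz) (hF.lt z hz)
    have hhalf : ∀ z ∈ ball (0 : ℂ) 1, ‖(fun z : ℂ => z / 2) z‖ < 1 := by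
      intro z hz
      rw [mem_ball_zero_iff] at hz
      simp only [norm_div, Complex.norm_ofNat]
      linarith
    have hm0 : ∀ z ∈ ball (0 : ℂ) 1, m z = 0 := by
      intro z hz
      have h1 : 0 < lam F z := by
        rw [← hlamA z hz]
        refine (lam_pos_iff (f := fun z : ℂ => z / 2) (hhalf z hz)).2 ?_
        rw [hder]
        norm_num
      have h2 := (lam_pos_iff (hF.lt z hz)).1 h1
      have h3 := hF.ord z hz
      rw [(analyticAt_of_ball hF.diff hz).deriv.analyticOrderAt_eq_zero.2 h2] at h3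
      exact_mod_cast h3.symm
    have hFam : Fam m (fun z => z) := ⟨hid, fun z hz => (mem_ball_zero_iff.1 hz).le,
      fun z hz => by rw [hm0 z hz]; simp⟩
    have h1 := hFe.2 _ hFam
    rw [hm0 0 h0] at h1
    simp only [zero_add, iteratedDeriv_one, deriv_id'', Complex.one_re] at h1
    have h2 := hlamA 0 h0
    unfold lam at h2
    rw [hF.zero, hder] at h2
    norm_num at h2
    have h3 := Complex.re_le_norm (deriv F 0)
    rw [← h2] at h3
    linarith

end Q94.KR
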