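import Pool.Agent.Q94.KR.K23

/-!
# Density of the image of a maximal Blaschke product

If `A = B ∘ C` and both `A` and `C` are maximal Blaschke products, then `B` is bounded by `1`.
-/

open MeasureTheory Set Filter Topology Metric
open scoped ContDiff InnerProductSpace ComplexConjugate

namespace Q94.KR

/-- Holomorphic logarithm of a zero free function on the disc. -/
lemma exists_neg_log {G : ℂ → ℂ} (hG : DifferentiableOn ℂ G (ball 0 1))
    (h0 : ∀ z ∈ ball (0 : ℂ) 1, G z ≠ 0) :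
    ∃ ψ : ℂ → ℂ, (∀ z ∈ ball (0 : ℂ) 1, HasDerivAt ψ (-(deriv G z / G z)) z) ∧
      ∀ z ∈ ball (0 : ℂ) 1, Complex.exp (-ψ z) = G z := by
  have hq : DifferentiableOn ℂ (fun z => -(deriv G z / G z)) (ball 0 1) :=
    ((hG.deriv isOpen_ball).div hG h0).neg
  obtain ⟨ψ, hψ0, hψ⟩ := hq.isExactOn_ball.with_val_at 0 (-Complex.log (G 0))
  refine ⟨ψ, hψ, fun z hz => ?_⟩
  have hb0 : (0 : ℂ) ∈ ball (0 : ℂ) 1 := by simp
  have hH : ∀ w ∈ ball (0 : ℂ) 1, HasDerivAt (fun w => G w * Complex.exp (ψ w)) 0 w := by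
    intro w hw
    have h1 := (hG.differentiableAt (isOpen_ball.mem_nhds hw)).hasDerivAt
    have h2 := h1.mul (hψ w hw).cexp
    have h3 : deriv G w * Complex.exp (ψ w) +
        G w * (Complex.exp (ψ w) * -(deriv G w / G w)) = 0 := by
      have := h0 w hw
      field_simp
      ring
    rw [← h3]
    exact h2
  have hcst := isOpen_ball.is_const_of_deriv_eq_zero (convex_ball (0 : ℂ) 1).isPreconnected
    (f := fun w => G w * Complex.exp (ψ w))
    (fun w hw => (hH w hw).differentiableAt.differentiableWithinAt)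
    (fun w hw => by simpa using (hH w hw).deriv) hz hb0
  simp only [hψ0] at hcst
  rw [Complex.exp_neg, Complex.exp_log (h0 0 hb0), mul_inv_cancel₀ (h0 0 hb0)] at hcst
  rw [Complex.exp_neg]
  exact (eq_inv_of_mul_eq_one_left hcst).symm

/-- A universal function followed by an automorphism is not bounded away from `0`. -/
lemma not_bounded_below (hk : SKL) {m : ℂ → ℕ} {F R G : ℂ → ℂ} (hF : Univ m F)
    (hR : DifferentiableOn ℂ R (ball 0 1)) (hGR : G = fun z => R (F z))
    (hG1 : ∀ z ∈ ball (0 : ℂ) 1, ‖G z‖ < 1) (hlam : ∀ z ∈ ball (0 : ℂ) 1, lam G z = lam F z)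
    {r : ℝ} (hr : 0 < r) (hGr : ∀ z ∈ ball (0 : ℂ) 1, r < ‖G z‖) : False := by
  have hb0 : (0 : ℂ) ∈ ball (0 : ℂ) 1 := by simp
  have hmF : MapsTo F (ball 0 1) (ball 0 1) := fun z hz => mem_ball_zero_iff.2 (hF.lt z hz)
  have hG : DifferentiableOn ℂ G (ball 0 1) := by
    rw [hGR]
    exact hR.comp hF.diff hmF
  have hG0 : ∀ z ∈ ball (0 : ℂ) 1, G z ≠ 0 := fun z hz =>
    norm_pos_iff.1 (hr.trans (hGr z hz))
  obtain ⟨ψ, hψ, hψe⟩ := exists_neg_log hG hG0
  have hψd : DifferentiableOn ℂ ψ (ball 0 1) := fun z hz =>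
    (hψ z hz).differentiableAt.differentiableWithinAt
  have hr1 : r < 1 := (hGr 0 hb0).trans (hG1 0 hb0)
  set L : ℝ := -Real.log r with hL
  have hLpos : 0 < L := by
    rw [hL, neg_pos]
    exact Real.log_neg hr hr1
  have hLne : (L : ℂ) ≠ 0 := by exact_mod_cast hLpos.ne'
  have hnorm : ∀ z ∈ ball (0 : ℂ) 1, ‖G z‖ = Real.exp (-(ψ z).re) := fun z hz => by
    rw [← hψe z hz, Complex.norm_exp, Complex.neg_re]
  have ht0 : ∀ z ∈ ball (0 : ℂ) 1, 0 < (ψ z).re := fun z hz => by
    have h1 := hG1 z hz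
    rw [hnorm z hz, Real.exp_lt_one_iff] at h1
    linarith
  have htL : ∀ z ∈ ball (0 : ℂ) 1, (ψ z).re < L := fun z hz => by
    have h1 := hGr z hz
    rw [hnorm z hz, ← Real.log_lt_iff_lt_exp hr] at h1
    rw [hL]
    linarith
  -- the map to the upper half plane
  set x : ℂ → ℂ := fun z => Complex.I * (Real.pi / L : ℝ) * ψ z with hx
  set h : ℂ → ℂ := fun z => Complex.exp (x z) with hh
  have hxre : ∀ z, (x z).re = -(Real.pi / L * (ψ z).im) := fun z => by
    simp only [hx, Complex.mul_re, Complex.mul_im, Complex.I_re, Complex.I_im, Complex.ofReal_re,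
      Complex.ofReal_im]
    ring
  have hxim : ∀ z, (x z).im = Real.pi / L * (ψ z).re := fun z => by
    simp only [hx, Complex.mul_re, Complex.mul_im, Complex.I_re, Complex.I_im, Complex.ofReal_re,
      Complex.ofReal_im]
    ring
  have hsin : ∀ z ∈ ball (0 : ℂ) 1, 0 < Real.sin (Real.pi / L * (ψ z).re) := by
    intro z hz
    apply Real.sin_pos_of_pos_of_lt_pi
    · have := ht0 z hz
      positivity
    · have h1 := htL z hz
      rw [div_mul_eq_mul_div, div_lt_iff₀ hLpos]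
      nlinarith [Real.pi_pos]
  have him : ∀ z, (h z).im = ‖h z‖ * Real.sin (Real.pi / L * (ψ z).re) := fun z => by
    simp only [hh]
    rw [Complex.exp_im, Complex.norm_exp, hxim]
  have hhpos : ∀ z, 0 < ‖h z‖ := fun z => norm_pos_iff.2 (Complex.exp_ne_zero _)
  have himp : ∀ z ∈ ball (0 : ℂ) 1, 0 < (h z).im := fun z hz => by
    rw [him]
    exact mul_pos (hhpos z) (hsin z hz)
  have hne : ∀ z ∈ ball (0 : ℂ) 1, h z + Complex.I ≠ 0 := fun z hz h1 => by
    have h2 := congrArg Complex.im h1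
    rw [Complex.add_im, Complex.I_im, Complex.zero_im] at h2
    linarith [himp z hz]
  have hhd : ∀ z ∈ ball (0 : ℂ) 1, HasDerivAt h
      (h z * (Complex.I * (Real.pi / L : ℝ) * -(deriv G z / G z))) z := fun z hz =>
    ((hψ z hz).const_mul (Complex.I * (Real.pi / L : ℝ))).cexp
  set g : ℂ → ℂ := fun z => (h z - Complex.I) / (h z + Complex.I) with hg
  have hgd : ∀ z ∈ ball (0 : ℂ) 1, HasDerivAt g
      (2 * Complex.I * (h z * (Complex.I * (Real.pi / L : ℝ) * -(deriv G z / G z))) /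
        (h z + Complex.I) ^ 2) z := by
    intro z hz
    have h1 := ((hhd z hz).sub_const Complex.I).div ((hhd z hz).add_const Complex.I) (hne z hz)
    refine h1.congr_deriv ?_
    congr 1
    ring
  have hgn : ∀ z ∈ ball (0 : ℂ) 1, 1 - ‖g z‖ ^ 2 = 4 * (h z).im / ‖h z + Complex.I‖ ^ 2 := by
    intro z hz
    have h1 : ‖h z + Complex.I‖ ≠ 0 := norm_ne_zero_iff.2 (hne z hz)
    simp only [hg]
    rw [norm_div, div_pow, eq_div_iff (pow_ne_zero 2 h1), sub_mul, one_mul,
      div_mul_cancel₀ _ (pow_ne_zero 2 h1)]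
    simp only [Complex.sq_norm, Complex.normSq_apply, Complex.add_re, Complex.add_im,
      Complex.sub_re, Complex.sub_im, Complex.I_re, Complex.I_im]
    ring
  have hg1 : ∀ z ∈ ball (0 : ℂ) 1, ‖g z‖ < 1 := by
    intro z hz
    have h1 := hgn z hz
    have h2 : 0 < 4 * (h z).im / ‖h z + Complex.I‖ ^ 2 :=
      div_pos (by linarith [himp z hz]) (pow_pos (norm_pos_iff.2 (hne z hz)) 2)
    rw [← h1] at h2
    nlinarith [norm_nonneg (g z)]
  have hgD : DifferentiableOn ℂ g (ball 0 1) := fun z hz =>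
    (hgd z hz).differentiableAt.differentiableWithinAt
  -- the multiplicities
  have hFam : Fam m g := by
    refine ⟨hgD, fun z hz => (hg1 z hz).le, fun z hz => ?_⟩
    have hFa := analyticAt_of_ball hF.diff hz
    have hpsi : ∀ w ∈ ball (0 : ℂ) 1, deriv G w = deriv R (F w) * deriv F w := by
      intro w hw
      rw [hGR]
      exact (((hR.differentiableAt (isOpen_ball.mem_nhds (hmF hw))).hasDerivAt).comp w
        ((hF.diff.differentiableAt (isOpen_ball.mem_nhds hw)).hasDerivAt)).deriv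
    have hev : deriv g =ᶠ[𝓝 z] fun w => deriv F w * (2 * Complex.I * (h w * (Complex.I *
        (Real.pi / L : ℝ) * -(deriv R (F w) / G w))) / (h w + Complex.I) ^ 2) := by
      filter_upwards [isOpen_ball.mem_nhds hz] with w hw
      rw [(hgd w hw).deriv, hpsi w hw]
      ring
    rw [analyticOrderAt_congr hev]
    have hha : AnalyticAt ℂ h z := by
      have h1 : DifferentiableOn ℂ h (ball 0 1) := fun w hw =>
        (hhd w hw).differentiableAt.differentiableWithinAt
      exact analyticAt_of_ball h1 hz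
    have hRa : AnalyticAt ℂ (fun w => deriv R (F w)) z := by
      have h1 : AnalyticAt ℂ (deriv R) (F z) := (analyticAt_of_ball hR (hmF hz)).deriv
      exact h1.fun_comp hFa
    have hqa : AnalyticAt ℂ (fun w => 2 * Complex.I * (h w * (Complex.I *
        (Real.pi / L : ℝ) * -(deriv R (F w) / G w))) / (h w + Complex.I) ^ 2) z := by
      refine AnalyticAt.div ?_ ((hha.add analyticAt_const).pow 2) (pow_ne_zero 2 (hne z hz))
      refine analyticAt_const.mul (hha.mul (analyticAt_const.mul (AnalyticAt.neg ?_)))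
      exact hRa.div (analyticAt_of_ball hG hz) (hG0 z hz)
    have h1 := analyticOrderAt_mul hFa.deriv hqa
    have h2 : analyticOrderAt (fun w => deriv F w * (2 * Complex.I * (h w * (Complex.I *
        (Real.pi / L : ℝ) * -(deriv R (F w) / G w))) / (h w + Complex.I) ^ 2)) z =
        analyticOrderAt (deriv F) z + analyticOrderAt (fun w => 2 * Complex.I * (h w * (Complex.I *
        (Real.pi / L : ℝ) * -(deriv R (F w) / G w))) / (h w + Complex.I) ^ 2) z := h1
    rw [h2, hF.ord z hz]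
    exact le_self_add
  have hSK := hk m g hFam hg1
  -- a noncritical point
  obtain ⟨z, hz, hdz⟩ : ∃ z ∈ ball (0 : ℂ) 1, deriv F z ≠ 0 := by
    by_contra hcon
    push Not at hcon
    have h1 : ∀ᶠ w in 𝓝 (0 : ℂ), deriv F w = 0 := by
      filter_upwards [isOpen_ball.mem_nhds hb0] with w hw using hcon w hw
    have h2 := analyticOrderAt_eq_top.2 h1
    rw [hF.ord 0 hb0] at h2
    exact ENat.natCast_ne_top _ h2
  have hmaj := hF.maj _ hSK z hz
  rw [← hlam z hz] at hmaj
  have hGne : deriv G z ≠ 0 := by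
    intro h1
    have h2 : lam F z = 0 := by
      rw [← hlam z hz]
      simp [lam, h1]
    have h3 := (lam_pos_iff (hF.lt z hz)).2 hdz
    linarith
  -- compute
  set t := (ψ z).re with ht
  have htp : 0 < t := ht0 z hz
  have hs : 0 < Real.sin (Real.pi / L * t) := hsin z hz
  set P : ℝ := ‖deriv G z / G z‖ with hP
  have hPpos : 0 < P := norm_pos_iff.2 (div_ne_zero hGne (hG0 z hz))
  have hlg : lam g z = Real.pi / L * P / (2 * Real.sin (Real.pi / L * t)) := by
    have h1 : ‖h z + Complex.I‖ ≠ 0 := norm_ne_zero_iff.2 (hne z hz)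
    have h2 := (hhpos z).ne'
    have h3 := hs.ne'
    simp only [lam]
    rw [(hgd z hz).deriv, hgn z hz, him z, norm_div, norm_pow, norm_mul, norm_mul, norm_mul,
      norm_mul, norm_mul, norm_neg, ← hP, Complex.norm_I, Complex.norm_real,
      Real.norm_of_nonneg (by positivity : (0 : ℝ) ≤ Real.pi / L), Complex.norm_ofNat]
    simp only [← ht]
    generalize ‖h z + Complex.I‖ = q1 at h1 ⊢
    generalize ‖h z‖ = q2 at h2 ⊢
    generalize Real.sin (Real.pi / L * t) = q3 at h3 ⊢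
    field_simp
    ring
  have hlG : lam G z = P / (2 * Real.sinh t) := by
    have h1 : ‖deriv G z‖ = P * ‖G z‖ := by
      rw [hP, norm_div, div_mul_cancel₀ _ (norm_ne_zero_iff.2 (hG0 z hz))]
    have h2 : 0 < Real.sinh t := Real.sinh_pos_iff.2 htp
    simp only [lam]
    rw [h1, hnorm z hz, ← ht]
    rw [Real.sinh_eq]
    have h4 : Real.exp t * Real.exp (-t) = 1 := by rw [← Real.exp_add]; simp
    have h5 : 0 < Real.exp (-t) := Real.exp_pos _
    have h6 : Real.exp (-t) < 1 := by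
      rw [Real.exp_lt_one_iff]
      linarith
    have h7 : 0 < 1 - Real.exp (-t) ^ 2 := by nlinarith
    have h8 : 0 < Real.exp t - Real.exp (-t) := by
      rw [Real.sinh_eq] at h2
      linarith
    rw [div_eq_div_iff h7.ne' (by positivity)]
    linear_combination P * h4
  rw [hlg, hlG] at hmaj
  have hsh : t < Real.sinh t := Real.self_lt_sinh_iff.2 htp
  have hsp : 0 < Real.sinh t := htp.trans hsh
  rw [div_le_div_iff₀ (by positivity) (by positivity)] at hmaj
  have hsl : Real.sin (Real.pi / L * t) ≤ Real.pi / L * t := Real.sin_le (by positivity)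
  have h9 : Real.pi / L * P * (2 * Real.sinh t) ≤ P * (2 * (Real.pi / L * t)) :=
    hmaj.trans (by gcongr)
  have h10 : 0 < Real.pi / L * P * 2 := by positivity
  nlinarith

/-- The image of a maximal Blaschke product is dense in the disc. -/
theorem den (hk : SKL) (hu : AU) (he : EC) {C : ℂ → ℂ} (hC : MBP C) {w0 : ℂ}
    (hw0 : w0 ∈ ball (0 : ℂ) 1) : w0 ∈ closure (C '' ball 0 1) := by
  obtain ⟨m, hm, f, T, hf, hT, hCT⟩ := hC
  obtain ⟨F, hF, -, hFu⟩ := he m hm
  have hC2 : ∀ z ∈ ball (0 : ℂ) 1, C z = T (F z) := fun z hz => by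
    rw [hCT z hz, hFu f hf z hz]
  have hw1 : ‖w0‖ < 1 := mem_ball_zero_iff.1 hw0
  have hS : IsAut (fun w => 1 * ((w - w0) / (1 - conj w0 * w))) :=
    ⟨w0, 1, hw1, norm_one, fun w => rfl⟩
  obtain ⟨hTd, hT1, hTl, -, -⟩ := hu T hT
  obtain ⟨hSd, hS1, hSl, hSc, -⟩ := hu _ hS
  obtain ⟨R, hR, hRe⟩ := hSc T hT
  obtain ⟨hRd, hR1, hRl, -, -⟩ := hu R hR
  by_contra hcl
  rw [Metric.mem_closure_iff] at hcl
  push Not at hcl
  obtain ⟨ε, hε, hcl⟩ := hcl
  refine not_bounded_below hk hF hRd (G := fun z => R (F z)) rfl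
    (fun z hz => hR1 _ (hF.lt z hz)) (fun z hz => hRl F z (analyticAt_of_ball hF.diff hz)
      (hF.lt z hz)) (r := ε / 4) (by positivity) fun z hz => ?_
  have hTF : ‖T (F z)‖ < 1 := hT1 _ (hF.lt z hz)
  have h1 : ε ≤ dist w0 (C z) := hcl _ (mem_image_of_mem C hz)
  rw [dist_comm, dist_eq_norm, hC2 z hz] at h1
  have h2 : R (F z) = 1 * ((T (F z) - w0) / (1 - conj w0 * T (F z))) :=
    (hRe _ (hF.lt z hz)).symm
  change ε / 4 < ‖R (F z)‖
  rw [h2, one_mul, norm_div]
  have h3 : ‖1 - conj w0 * T (F z)‖ ≤ 2 := by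
    calc ‖1 - conj w0 * T (F z)‖ ≤ ‖(1 : ℂ)‖ + ‖conj w0 * T (F z)‖ := norm_sub_le _ _
      _ ≤ 1 + 1 * 1 := by
          rw [norm_one, norm_mul, Complex.norm_conj]
          gcongr
      _ = 2 := by norm_num
  have h4 : 0 < ‖1 - conj w0 * T (F z)‖ := by
    rw [norm_pos_iff]
    intro h5
    have h6 : conj w0 * T (F z) = 1 := (sub_eq_zero.1 h5).symm
    have h7 : ‖conj w0 * T (F z)‖ = 1 := by rw [h6, norm_one]
    rw [norm_mul, Complex.norm_conj] at h7
    nlinarith [norm_nonneg w0, norm_nonneg (T (F z))]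
  rw [lt_div_iff₀ h4]
  nlinarith

/-- If `A = B ∘ C` and `A`, `C` are maximal Blaschke products, then `B` is bounded by `1`. -/
theorem bdd (hk : SKL) (hu : AU) (he : EC) {A B C : ℂ → ℂ} (hB : DifferentiableOn ℂ B (ball 0 1))
    (hC : MBP C) (hABC : ∀ z ∈ ball (0 : ℂ) 1, A z = B (C z)) (hA : MBP A) :
    ∀ w ∈ ball (0 : ℂ) 1, ‖B w‖ ≤ 1 := by
  intro w hw
  have hA1 : ∀ z ∈ ball (0 : ℂ) 1, ‖A z‖ < 1 := by
    obtain ⟨m, hm, f, T, hf, hT, hAT⟩ := hA
    obtain ⟨F, hF, -, hFu⟩ := he m hm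
    intro z hz
    rw [hAT z hz, hFu f hf z hz]
    exact (hu T hT).2.1 _ (hF.lt z hz)
  have h1 : w ∈ closure (C '' ball 0 1) := den hk hu he hC hw
  refine ContinuousWithinAt.closure_le h1
    ((hB.differentiableAt (isOpen_ball.mem_nhds hw)).continuousAt.norm.continuousWithinAt)
    continuousWithinAt_const ?_
  rintro _ ⟨z, hz, rfl⟩
  rw [← hABC z hz]
  exact (hA1 z hz).le

end Q94.KR
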