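import Pool.Agent.Q94.KR.Stm

/-! Job K3 of project KR (author helper94): order of vanishing and growth. -/

set_option autoImplicit false

open MeasureTheory Set Filter Topology Metric
open scoped ContDiff InnerProductSpace

namespace Q94.KR

theorem or_1_298 (g : ℂ → ℂ) (z : ℂ) (n : ℕ) (hg : AnalyticAt ℂ g z) :
    (n : ℕ∞) ≤ analyticOrderAt g z ↔ ∃ K : ℝ, ∀ᶠ w in 𝓝 z, ‖g w‖ ≤ K * ‖w - z‖ ^ n := by
  constructor
  · intro h
    obtain ⟨h1, hh, he⟩ := (natCast_le_analyticOrderAt hg).1 h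
    have hb : ∀ᶠ w in 𝓝 z, ‖h1 w‖ < ‖h1 z‖ + 1 :=
      hh.continuousAt.norm.eventually_lt_const (lt_add_one _)
    refine ⟨‖h1 z‖ + 1, ?_⟩
    filter_upwards [hb, he] with w hw1 hw2
    rw [hw2, norm_smul, norm_pow, mul_comm]
    exact mul_le_mul_of_nonneg_right hw1.le (by positivity)
  · rintro ⟨K, hK⟩
    by_contra hcon
    push Not at hcon
    obtain ⟨j, hj⟩ := ENat.ne_top_iff_exists.1 hcon.ne_top
    rw [← hj] at hcon
    have hjn : j < n := by exact_mod_cast hcon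
    obtain ⟨h1, hh, hne, he⟩ := (hg.analyticOrderAt_eq_natCast).1 hj.symm
    have h2 : ∀ᶠ w in 𝓝[≠] z, ‖h1 w‖ ≤ K * ‖w - z‖ ^ (n - j) := by
      have h3 : ∀ᶠ w in 𝓝[≠] z, w ≠ z := eventually_mem_nhdsWithin
      filter_upwards [h3, nhdsWithin_le_nhds hK, nhdsWithin_le_nhds he] with w hw1 hw2 hw3
      have hpos : 0 < ‖w - z‖ ^ j := pow_pos (norm_pos_iff.2 (sub_ne_zero.2 hw1)) j
      rw [hw3, norm_smul, norm_pow] at hw2
      have e : ‖w - z‖ ^ n = ‖w - z‖ ^ j * ‖w - z‖ ^ (n - j) := by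
        rw [← pow_add]; congr 1; omega
      rw [e] at hw2
      have h5 : ‖w - z‖ ^ j * ‖h1 w‖ ≤ ‖w - z‖ ^ j * (K * ‖w - z‖ ^ (n - j)) := by linarith
      exact le_of_mul_le_mul_left h5 hpos
    have t1 : Tendsto (fun w => ‖h1 w‖) (𝓝[≠] z) (𝓝 ‖h1 z‖) :=
      hh.continuousAt.norm.tendsto.mono_left nhdsWithin_le_nhds
    have t2 : Tendsto (fun w : ℂ => K * ‖w - z‖ ^ (n - j)) (𝓝[≠] z) (𝓝 0) := by
      have hc : ContinuousAt (fun w : ℂ => K * ‖w - z‖ ^ (n - j)) z := by fun_prop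
      have := hc.tendsto.mono_left (nhdsWithin_le_nhds (s := {z}ᶜ))
      simpa [Nat.sub_ne_zero_of_lt hjn] using this
    have h6 := le_of_tendsto_of_tendsto t1 t2 h2
    exact hne (norm_le_zero_iff.1 h6)

theorem or_ : OR := by
  intro g z n hg
  refine ⟨or_1_298 g z n hg, ?_, ?_⟩
  · intro h
    have hne_top : analyticOrderAt g z ≠ ⊤ := ne_top_of_le_ne_top (ENat.natCast_ne_top n) h
    obtain ⟨j, hj⟩ := ENat.ne_top_iff_exists.1 hne_top
    rw [← hj] at h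
    have hjn : j ≤ n := by exact_mod_cast h
    obtain ⟨h1, hh, hne, he⟩ := (hg.analyticOrderAt_eq_natCast).1 hj.symm
    have hpos : 0 < ‖h1 z‖ := norm_pos_iff.2 hne
    have hb : ∀ᶠ w in 𝓝 z, ‖h1 z‖ / 2 < ‖h1 w‖ :=
      hh.continuousAt.norm.eventually_const_lt (by linarith)
    have hs : ∀ᶠ w in 𝓝 z, ‖w - z‖ < 1 := by
      have hc : ContinuousAt (fun w : ℂ => ‖w - z‖) z := by fun_prop
      exact hc.eventually_lt_const (by simp)
    refine ⟨‖h1 z‖ / 2, by positivity, ?_⟩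
    filter_upwards [hb, hs, he] with w hw1 hw2 hw3
    rw [hw3, norm_smul, norm_pow]
    have h2 : ‖w - z‖ ^ n ≤ ‖w - z‖ ^ j := pow_le_pow_of_le_one (norm_nonneg _) hw2.le hjn
    calc ‖h1 z‖ / 2 * ‖w - z‖ ^ n ≤ ‖h1 w‖ * ‖w - z‖ ^ j :=
          mul_le_mul hw1.le h2 (by positivity) (norm_nonneg _)
      _ = ‖w - z‖ ^ j * ‖h1 w‖ := mul_comm _ _
  · rintro ⟨k, hk0, hk⟩
    by_contra hcon
    push Not at hcon
    have h1 : ((n + 1 : ℕ) : ℕ∞) ≤ analyticOrderAt g z := by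
      push_cast
      exact Order.add_one_le_of_lt hcon
    obtain ⟨K, hK⟩ := (or_1_298 g z (n + 1) hg).1 h1
    have h2 : ∀ᶠ w in 𝓝[≠] z, k ≤ K * ‖w - z‖ := by
      have h3 : ∀ᶠ w in 𝓝[≠] z, w ≠ z := eventually_mem_nhdsWithin
      filter_upwards [h3, nhdsWithin_le_nhds hK, nhdsWithin_le_nhds hk] with w hw1 hw2 hw3
      have hpos : 0 < ‖w - z‖ ^ n := pow_pos (norm_pos_iff.2 (sub_ne_zero.2 hw1)) n
      rw [pow_succ] at hw2
      have h5 : ‖w - z‖ ^ n * k ≤ ‖w - z‖ ^ n * (K * ‖w - z‖) := by linarith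
      exact le_of_mul_le_mul_left h5 hpos
    have t2 : Tendsto (fun w : ℂ => K * ‖w - z‖) (𝓝[≠] z) (𝓝 0) := by
      have hc : ContinuousAt (fun w : ℂ => K * ‖w - z‖) z := by fun_prop
      have := hc.tendsto.mono_left (nhdsWithin_le_nhds (s := {z}ᶜ))
      simpa using this
    have h6 := le_of_tendsto_of_tendsto tendsto_const_nhds t2 h2
    linarith

end Q94.KR
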