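import Pool.Agent.Q94.KR.Stm

/-! Job K4 of project KR (author helper94): pull-backs are pseudometrics of curvature `-4`. -/

set_option autoImplicit false

open MeasureTheory Set Filter Topology Metric
open scoped ContDiff InnerProductSpace

namespace Q94.KR

theorem analyticAt_of_ball_298 {f : ℂ → ℂ} {r : ℝ} (hf : DifferentiableOn ℂ f (ball 0 r)) {z : ℂ}
    (hz : z ∈ ball (0 : ℂ) r) : AnalyticAt ℂ f z :=
  hf.analyticAt (isOpen_ball.mem_nhds hz)

theorem one_sub_pos_298 {a : ℂ} (h : ‖a‖ < 1) : 0 < 1 - ‖a‖ ^ 2 := by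
  have := norm_nonneg a
  nlinarith

theorem lam_continuousAt_298 {f : ℂ → ℂ} {z : ℂ} (hf : AnalyticAt ℂ f z) (h : ‖f z‖ < 1) :
    ContinuousAt (lam f) z :=
  hf.deriv.continuousAt.norm.div (continuousAt_const.sub (hf.continuousAt.norm.pow 2))
    (one_sub_pos_298 h).ne'

theorem skl (hl : LL) (ho : OR) : SKL := by
  intro m f hF hlt
  obtain ⟨hd, hb, hm⟩ := hF
  refine ⟨?_, ?_, ?_, ?_, ?_⟩
  · intro z hz
    exact (lam_continuousAt_298 (analyticAt_of_ball_298 hd hz) (hlt z hz)).continuousWithinAt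
  · intro z hz
    exact div_nonneg (norm_nonneg _) (one_sub_pos_298 (hlt z hz)).le
  · intro z hz h0
    have hne : deriv f z ≠ 0 := by
      intro h
      rw [lam, h, norm_zero, zero_div] at h0
      exact lt_irrefl _ h0
    exact (hl f z (analyticAt_of_ball_298 hd hz) (hlt z hz) hne).1
  · intro z hz h0
    have hne : deriv f z ≠ 0 := by
      intro h
      rw [lam, h, norm_zero, zero_div] at h0
      exact lt_irrefl _ h0
    exact (hl f z (analyticAt_of_ball_298 hd hz) (hlt z hz) hne).2.ge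
  · intro z hz
    have ha := analyticAt_of_ball_298 hd hz
    obtain ⟨K, hK⟩ := ((ho (deriv f) z (m z) ha.deriv).1).1 (hm z hz)
    have hs := one_sub_pos_298 (hlt z hz)
    have hc : ∀ᶠ w in 𝓝 z, (1 - ‖f z‖ ^ 2) / 2 < 1 - ‖f w‖ ^ 2 := by
      have hc : ContinuousAt (fun w => (1 : ℝ) - ‖f w‖ ^ 2) z :=
        continuousAt_const.sub (ha.continuousAt.norm.pow 2)
      exact hc.eventually_const_lt (by linarith)
    refine ⟨K / ((1 - ‖f z‖ ^ 2) / 2), ?_⟩
    filter_upwards [hK, hc] with w hw1 hw2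
    rw [lam]
    have h1 : 0 ≤ K * ‖w - z‖ ^ m z := le_trans (norm_nonneg _) hw1
    calc ‖deriv f w‖ / (1 - ‖f w‖ ^ 2) ≤ (K * ‖w - z‖ ^ m z) / ((1 - ‖f z‖ ^ 2) / 2) :=
          div_le_div₀ h1 hw1 (by linarith) hw2.le
      _ = K / ((1 - ‖f z‖ ^ 2) / 2) * ‖w - z‖ ^ m z := by ring

end Q94.KR
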