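import Pool.Agent.Q94.KR.K4

/-! Job K5 of project KR (author helper94): the comparison principle. -/

set_option autoImplicit false

open MeasureTheory Set Filter Topology Metric
open scoped ContDiff InnerProductSpace

namespace Q94.KR

theorem log_pen_298 (s l Λ ε : ℝ) (hs : 0 < s) (hl : 0 < l) (hΛ : 0 < Λ) :
    Real.log (s / l * (l / Λ) ^ ε) = (Real.log s - (1 - ε) * Real.log l) - ε * Real.log Λ := by
  have h1 : 0 < l / Λ := div_pos hl hΛ
  rw [Real.log_mul (div_pos hs hl).ne' (Real.rpow_pos_of_pos h1 ε).ne', Real.log_rpow h1,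
    Real.log_div hs.ne' hl.ne', Real.log_div hl.ne' hΛ.ne']
  ring

theorem cmp (hm : MX) (hl : LL) (ho : OR) : CMP := by
  intro m σ r g L hσ hr0 hr1 hg hg1 hord hLc hL hbd z0 hz0
  have hsub : closedBall (0 : ℂ) r ⊆ ball 0 1 := closedBall_subset_ball hr1
  have hbc : ball (0 : ℂ) r ⊆ closedBall 0 r := ball_subset_closedBall
  have hLnn : ∀ w ∈ closedBall (0 : ℂ) r, 0 ≤ L w := by
    intro w hw
    rcases eq_or_ne ‖w‖ r with h | h
    · exact (hbd w (by simpa using h)).1.le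
    · have hw' : w ∈ ball (0 : ℂ) r := by
        have h2 : ‖w‖ ≤ r := by simpa using hw
        simpa using lt_of_le_of_ne h2 h
      rw [hL w hw', lam]
      exact div_nonneg (norm_nonneg _) (one_sub_pos_298 (hg1 w hw')).le
  have hσnn : ∀ w ∈ closedBall (0 : ℂ) r, 0 ≤ σ w := fun w hw => hσ.nonneg w (hsub hw)
  -- where `lam g` vanishes so does `σ`
  by_cases hL0 : L z0 = 0
  · have hd0 : deriv g z0 = 0 := by
      rw [hL z0 hz0, lam, div_eq_zero_iff] at hL0
      rcases hL0 with h | h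
      · exact norm_eq_zero.1 h
      · exact absurd h (one_sub_pos_298 (hg1 z0 hz0)).ne'
    have hga := (analyticAt_of_ball_298 hg hz0).deriv
    have h1 : analyticOrderAt (deriv g) z0 ≠ 0 := (hga.analyticOrderAt_ne_zero).2 hd0
    have h2 : m z0 ≠ 0 := by
      intro h
      have h3 := hord z0 hz0
      rw [h] at h3
      exact h1 (le_antisymm (by simpa using h3) bot_le)
    obtain ⟨K, hK⟩ := hσ.zero z0 (hsub (hbc hz0))
    have h3 := hK.self_of_nhds
    rw [sub_self, norm_zero, zero_pow h2, mul_zero] at h3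
    rw [← hL z0 hz0, hL0]
    exact h3
  have hL0' : 0 < L z0 := lt_of_le_of_ne (hLnn z0 (hbc hz0)) (Ne.symm hL0)
  by_contra hcon
  push Not at hcon
  rw [← hL z0 hz0] at hcon
  -- an upper bound of `L`
  obtain ⟨Λ, hΛ0, hΛ⟩ : ∃ Λ : ℝ, 0 < Λ ∧ ∀ w ∈ closedBall (0 : ℂ) r, L w ≤ Λ := by
    obtain ⟨B, hB⟩ := (isCompact_closedBall (0 : ℂ) r).bddAbove_image hLc
    exact ⟨max B 1, lt_max_of_lt_right one_pos,
      fun w hw => (hB (mem_image_of_mem _ hw)).trans (le_max_left _ _)⟩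
  -- the exponent
  obtain ⟨ε, hε0, hε1, hεz⟩ : ∃ ε : ℝ, 0 < ε ∧ ε < 1 ∧ 1 < σ z0 / L z0 * (L z0 / Λ) ^ ε := by
    have hb : 0 < L z0 / Λ := div_pos hL0' hΛ0
    have hc : ContinuousAt (fun ε : ℝ => σ z0 / L z0 * (L z0 / Λ) ^ ε) 0 :=
      continuousAt_const.mul (Real.continuousAt_const_rpow hb.ne')
    have h1 : 1 < σ z0 / L z0 * (L z0 / Λ) ^ (0 : ℝ) := by
      rw [Real.rpow_zero, mul_one, lt_div_iff₀ hL0', one_mul]
      exact hcon
    have h2 : ∀ᶠ ε : ℝ in 𝓝[>] 0, 1 < σ z0 / L z0 * (L z0 / Λ) ^ ε :=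
      nhdsWithin_le_nhds (hc.eventually_const_lt h1)
    have h3 : ∀ᶠ ε : ℝ in 𝓝[>] 0, ε < 1 := nhdsWithin_le_nhds (Iio_mem_nhds one_pos)
    have h4 : ∀ᶠ ε : ℝ in 𝓝[>] (0 : ℝ), 0 < ε := eventually_mem_nhdsWithin
    obtain ⟨ε, a, b, c⟩ := (h2.and (h3.and h4)).exists
    exact ⟨ε, c, b, a⟩
  set R : ℂ → ℝ := fun w => σ w / L w * (L w / Λ) ^ ε with hR
  have hRc : ContinuousOn R (closedBall 0 r) := by
    intro w hw
    have hσw : ContinuousWithinAt σ (closedBall 0 r) w := (hσ.cont.mono hsub) w hw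
    by_cases hw0 : L w = 0
    · -- a zero
      have hwb : w ∈ ball (0 : ℂ) r := by
        have h2 : ‖w‖ ≤ r := by simpa using hw
        rcases eq_or_ne ‖w‖ r with h | h
        · exact absurd hw0 (hbd w (by simpa using h)).1.ne'
        · simpa using lt_of_le_of_ne h2 h
      have hga := (analyticAt_of_ball_298 hg hwb).deriv
      obtain ⟨k, hk0, hk⟩ := ((ho (deriv g) w (m w) hga).2).1 (hord w hwb)
      obtain ⟨K, hK⟩ := hσ.zero w (hsub hw)
      have hball : ∀ᶠ v in 𝓝 w, v ∈ ball (0 : ℂ) r := isOpen_ball.mem_nhds hwb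
      have hRw : R w = 0 := by simp [hR, hw0]
      have hup : ∀ᶠ v in 𝓝[closedBall 0 r] w, R v ≤ |K| / k * (L v / Λ) ^ ε := by
        filter_upwards [nhdsWithin_le_nhds hk, nhdsWithin_le_nhds hK, nhdsWithin_le_nhds hball]
          with v h1 h2 h3
        have hLv : 0 ≤ L v / Λ := div_nonneg (hLnn v (hbc h3)) hΛ0.le
        refine mul_le_mul_of_nonneg_right ?_ (Real.rpow_nonneg hLv _)
        rcases eq_or_lt_of_le (hLnn v (hbc h3)) with h4 | h4
        · rw [← h4, div_zero]; positivity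
        · rw [div_le_iff₀ h4]
          have h5 : ‖deriv g v‖ ≤ L v := by
            rw [hL v h3, lam, le_div_iff₀ (one_sub_pos_298 (hg1 v h3))]
            nlinarith [norm_nonneg (deriv g v), sq_nonneg ‖g v‖]
          have h6 : k * ‖v - w‖ ^ m w ≤ L v := h1.trans h5
          have h7 : ‖v - w‖ ^ m w ≤ L v / k := by
            rw [le_div_iff₀ hk0]; linarith
          calc σ v ≤ K * ‖v - w‖ ^ m w := h2
            _ ≤ |K| * ‖v - w‖ ^ m w :=
              mul_le_mul_of_nonneg_right (le_abs_self K) (by positivity)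
            _ ≤ |K| * (L v / k) := mul_le_mul_of_nonneg_left h7 (abs_nonneg K)
            _ = |K| / k * L v := by ring
      have hlo : ∀ᶠ v in 𝓝[closedBall 0 r] w, 0 ≤ R v := by
        filter_upwards [self_mem_nhdsWithin] with v hv
        exact mul_nonneg (div_nonneg (hσnn v hv) (hLnn v hv))
          (Real.rpow_nonneg (div_nonneg (hLnn v hv) hΛ0.le) _)
      have ht : Tendsto (fun v => |K| / k * (L v / Λ) ^ ε) (𝓝[closedBall 0 r] w) (𝓝 0) := by
        have h1 : ContinuousWithinAt (fun v => |K| / k * (L v / Λ) ^ ε) (closedBall 0 r) w :=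
          ((hLc w hw).div_const Λ).rpow_const (Or.inr hε0.le) |>.const_mul _
        have h2 := h1.tendsto
        rw [hw0, zero_div, Real.zero_rpow hε0.ne', mul_zero] at h2
        exact h2
      show Tendsto R (𝓝[closedBall 0 r] w) (𝓝 (R w))
      rw [hRw]
      exact tendsto_of_tendsto_of_tendsto_of_le_of_le' tendsto_const_nhds ht hlo hup
    · exact (hσw.div (hLc w hw) hw0).mul
        (((hLc w hw).div_const Λ).rpow_const (Or.inr hε0.le))
  obtain ⟨zs, hzs, hmax⟩ := (isCompact_closedBall (0 : ℂ) r).exists_isMaxOn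
    ⟨z0, hbc hz0⟩ hRc
  have hR1 : 1 < R zs := lt_of_lt_of_le hεz (hmax (hbc hz0))
  have hpow1 : (L zs / Λ) ^ ε ≤ 1 := by
    refine Real.rpow_le_one (div_nonneg (hLnn zs hzs) hΛ0.le) ?_ hε0.le
    rw [div_le_one hΛ0]
    exact hΛ zs hzs
  have hLzs : 0 < L zs := by
    rcases eq_or_lt_of_le (hLnn zs hzs) with h | h
    · rw [hR] at hR1
      simp only [← h, div_zero, zero_mul] at hR1
      linarith
    · exact h
  have hratio : 1 < σ zs / L zs := by
    have h1 : 0 ≤ σ zs / L zs := div_nonneg (hσnn zs hzs) hLzs.le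
    have h2 : R zs ≤ σ zs / L zs := by
      rw [hR]
      exact mul_le_of_le_one_right h1 hpow1
    linarith
  have hσL : L zs < σ zs := by rwa [lt_div_iff₀ hLzs, one_mul] at hratio
  have hzb : zs ∈ ball (0 : ℂ) r := by
    have h2 : ‖zs‖ ≤ r := by simpa using hzs
    rcases eq_or_ne ‖zs‖ r with h | h
    · have := (hbd zs (by simpa using h)).2
      linarith
    · simpa using lt_of_le_of_ne h2 h
  have hσpos : 0 < σ zs := hLzs.trans hσL
  have hlam : lam g zs = L zs := (hL zs hzb).symm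
  have hga := analyticAt_of_ball_298 hg hzb
  have hd0 : deriv g zs ≠ 0 := by
    intro h
    rw [lam, h, norm_zero, zero_div] at hlam
    exact hLzs.ne hlam
  obtain ⟨c1, c2⟩ := hl g zs hga (hg1 zs hzb) hd0
  have s1 := hσ.smooth zs (hsub hzs) hσpos
  have s2 := hσ.curv zs (hsub hzs) hσpos
  have c3 : ContDiffAt ℝ 2 ((1 - ε) • fun w => Real.log (lam g w)) zs := c1.const_smul (1 - ε)
  have hu : ContDiffAt ℝ 2 ((fun w => Real.log (σ w)) - (1 - ε) • fun w => Real.log (lam g w)) zs :=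
    s1.sub c3
  have hlocmax : IsLocalMax ((fun w => Real.log (σ w)) - (1 - ε) • fun w => Real.log (lam g w))
      zs := by
    have hσcont : ContinuousAt σ zs := hσ.cont.continuousAt (isOpen_ball.mem_nhds (hsub hzs))
    have hlcont : ContinuousAt (lam g) zs := lam_continuousAt_298 hga (hg1 zs hzb)
    have e1 : ∀ᶠ w in 𝓝 zs, w ∈ ball (0 : ℂ) r := isOpen_ball.mem_nhds hzb
    have e2 : ∀ᶠ w in 𝓝 zs, 0 < σ w := hσcont.eventually_const_lt hσpos
    have e3 : ∀ᶠ w in 𝓝 zs, 0 < lam g w := hlcont.eventually_const_lt (by rw [hlam]; exact hLzs)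
    filter_upwards [e1, e2, e3] with w h1 h2 h3
    have h4 : R w ≤ R zs := hmax (hbc h1)
    have h5 : 0 < R w := by
      rw [hR]
      have : 0 < L w := by rw [hL w h1]; exact h3
      positivity
    have h6 := Real.log_le_log h5 h4
    rw [hR] at h6
    beta_reduce at h6
    rw [log_pen_298 _ _ _ _ h2 (by rw [hL w h1]; exact h3) hΛ0, log_pen_298 _ _ _ _ hσpos hLzs hΛ0,
      hL w h1, ← hlam] at h6
    simp only [Pi.sub_apply, Pi.smul_apply, smul_eq_mul]
    linarith
  have hle := hm _ zs hu hlocmax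
  have e1 := s1.laplacian_sub c3
  have e2 := InnerProductSpace.laplacian_smul (1 - ε) c1
  have e3 : lap ((fun w => Real.log (σ w)) - (1 - ε) • fun w => Real.log (lam g w)) zs =
      lap (fun w => Real.log (σ w)) zs - (1 - ε) * lap (fun w => Real.log (lam g w)) zs :=
    e1.trans (by rw [e2, smul_eq_mul])
  rw [e3, c2, hlam] at hle
  nlinarith [mul_pos hε0 (mul_pos hLzs hLzs)]

end Q94.KR
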