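import Pool.Agent.Q94.KR.Stm

/-! Job K6 of project KR (author helper94): the lemma of Ahlfors from the comparison principle. -/

set_option autoImplicit false

open MeasureTheory Set Filter Topology Metric
open scoped ContDiff InnerProductSpace

namespace Q94.KR

theorem deriv_scale_298 (c : ℂ) : deriv (fun w : ℂ => w / c) = fun _ => 1 / c := by
  funext w
  simp [deriv_div_const]

theorem lam_scale_298 (r' : ℝ) (hr' : 0 < r') (w : ℂ) (hw : ‖w‖ < r') :
    lam (fun w : ℂ => w / (r' : ℂ)) w = r' / (r' ^ 2 - ‖w‖ ^ 2) := by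
  have h1 : (0 : ℝ) < r' ^ 2 - ‖w‖ ^ 2 := by
    have := norm_nonneg w
    nlinarith
  have h2 : (1 : ℝ) - (‖w‖ / r') ^ 2 = (r' ^ 2 - ‖w‖ ^ 2) / r' ^ 2 := by
    field_simp
  rw [lam, deriv_scale_298, norm_div, norm_div, norm_one, Complex.norm_real, Real.norm_of_nonneg hr'.le,
    h2]
  field_simp

theorem ah (hc : CMP) : AH := by
  intro m σ hσ z hz
  have hz1 : ‖z‖ < 1 := by simpa using hz
  -- first step
  have step : ∀ r : ℝ, ‖z‖ < r → r < 1 → σ z ≤ r / (r ^ 2 - ‖z‖ ^ 2) := by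
    intro r hzr hr1
    have hr0 : 0 < r := lt_of_le_of_lt (norm_nonneg z) hzr
    have hsub : closedBall (0 : ℂ) r ⊆ ball 0 1 := closedBall_subset_ball hr1
    obtain ⟨B, hB⟩ : ∃ B, ∀ w ∈ closedBall (0 : ℂ) r, σ w ≤ B := by
      obtain ⟨B, hB⟩ := (isCompact_closedBall (0 : ℂ) r).bddAbove_image (hσ.cont.mono hsub)
      exact ⟨B, fun w hw => hB (mem_image_of_mem _ hw)⟩
    have hden : 0 < r ^ 2 - ‖z‖ ^ 2 := by
      have := norm_nonneg z
      nlinarith
    have ht : Tendsto (fun r' : ℝ => r' / (r' ^ 2 - ‖z‖ ^ 2)) (𝓝[>] r)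
        (𝓝 (r / (r ^ 2 - ‖z‖ ^ 2))) := by
      have hcc : ContinuousAt (fun r' : ℝ => r' / (r' ^ 2 - ‖z‖ ^ 2)) r :=
        continuousAt_id.div (by fun_prop) hden.ne'
      exact hcc.tendsto.mono_left nhdsWithin_le_nhds
    refine ge_of_tendsto ht ?_
    have e1 : ∀ᶠ r' : ℝ in 𝓝[>] r, B * (r' ^ 2 - r ^ 2) < r' := by
      have hcc : ContinuousAt (fun r' : ℝ => r' - B * (r' ^ 2 - r ^ 2)) r := by fun_prop
      have := hcc.eventually_const_lt (show (0 : ℝ) < r - B * (r ^ 2 - r ^ 2) by simpa using hr0)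
      filter_upwards [nhdsWithin_le_nhds this] with r' h
      linarith
    have e2 : ∀ᶠ r' : ℝ in 𝓝[>] r, r' < 1 := nhdsWithin_le_nhds (Iio_mem_nhds hr1)
    have e3 : ∀ᶠ r' : ℝ in 𝓝[>] r, r < r' := eventually_mem_nhdsWithin
    filter_upwards [e1, e2, e3] with r' h1 h2 h3
    have hr'0 : 0 < r' := hr0.trans h3
    have h := hc m σ r (fun w : ℂ => w / (r' : ℂ)) (fun w => r' / (r' ^ 2 - ‖w‖ ^ 2)) hσ hr0 hr1
      (by
        intro w _
        exact (differentiableAt_id.div_const _).differentiableWithinAt)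
      (by
        intro w hw
        have hw' : ‖w‖ < r := by simpa using hw
        rw [norm_div, Complex.norm_real, Real.norm_of_nonneg hr'0.le, div_lt_one hr'0]
        linarith)
      (by
        intro w _
        rw [deriv_scale_298]
        have : analyticOrderAt (fun _ : ℂ => 1 / (r' : ℂ)) w = 0 := by
          rw [AnalyticAt.analyticOrderAt_eq_zero analyticAt_const]
          exact one_div_ne_zero (by exact_mod_cast hr'0.ne')
        rw [this]
        exact bot_le)
      (by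
        intro w hw
        have hw' : ‖w‖ ≤ r := by simpa using hw
        have : r' ^ 2 - ‖w‖ ^ 2 ≠ 0 := by
          have := norm_nonneg w
          nlinarith
        have hcc : ContinuousAt (fun w : ℂ => r' / (r' ^ 2 - ‖w‖ ^ 2)) w :=
          ContinuousAt.div (by fun_prop) (by fun_prop) this
        exact hcc.continuousWithinAt)
      (by
        intro w hw
        have hw' : ‖w‖ < r := by simpa using hw
        exact (lam_scale_298 r' hr'0 w (by linarith)).symm)
      (by
        intro w hw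
        have hw' : ‖w‖ = r := by simpa using hw
        have hd : 0 < r' ^ 2 - r ^ 2 := by nlinarith
        rw [hw']
        refine ⟨by positivity, ?_⟩
        refine (hB w (sphere_subset_closedBall hw)).trans ?_
        rw [le_div_iff₀ hd]
        exact h1.le)
      z (by simpa using hzr)
    rw [lam_scale_298 r' hr'0 z (by linarith)] at h
    exact h
  have hden : 0 < (1 : ℝ) ^ 2 - ‖z‖ ^ 2 := by
    have := norm_nonneg z
    nlinarith
  have ht : Tendsto (fun r : ℝ => r / (r ^ 2 - ‖z‖ ^ 2)) (𝓝[<] 1)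
      (𝓝 (1 / ((1 : ℝ) ^ 2 - ‖z‖ ^ 2))) := by
    have hcc : ContinuousAt (fun r : ℝ => r / (r ^ 2 - ‖z‖ ^ 2)) 1 :=
      continuousAt_id.div (by fun_prop) hden.ne'
    exact hcc.tendsto.mono_left nhdsWithin_le_nhds
  rw [one_pow] at ht
  refine ge_of_tendsto ht ?_
  have e2 : ∀ᶠ r : ℝ in 𝓝[<] 1, ‖z‖ < r := nhdsWithin_le_nhds (Ioi_mem_nhds hz1)
  have e3 : ∀ᶠ r : ℝ in 𝓝[<] 1, r < 1 := eventually_mem_nhdsWithin
  filter_upwards [e2, e3] with r h1 h2
  exact step r h1 h2

end Q94.KR
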