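import Pool.Agent.Q94.KR.Stm

/-! Job K7 of project KR (author helper94): the Schwarz integral. -/

set_option autoImplicit false

open MeasureTheory Set Filter Topology Metric
open scoped ContDiff InnerProductSpace

namespace Q94.KR

theorem ker_cont_298 {z : ℂ} (hz : ‖z‖ < 1) :
    ContinuousOn (fun ζ => (herglotzRieszKernel 0 z ζ)) (sphere 0 1) := by
  have h := continuousOn_herglotzRieszKernel_sphere (c := 0) (R := 1) (w := z) (by simpa using hz)
  simpa using h

theorem ker_re_298 {z ζ : ℂ} (hζ : ζ ∈ sphere (0 : ℂ) 1) :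
    (herglotzRieszKernel 0 z ζ).re = (1 - ‖z‖ ^ 2) / ‖ζ - z‖ ^ 2 := by
  have h := congrFun (poissonKernel_eq_re_herglotzRieszKernel (c := 0) (w := z)) ζ
  rw [Function.comp_apply, poissonKernel_def] at h
  rw [← h]
  have h1 : ‖ζ‖ = 1 := by simpa using hζ
  simp [h1]

theorem wh_re_298 (h : ℂ → ℝ) (hh : ContinuousOn h (sphere 0 1)) {z : ℂ} (hz : ‖z‖ < 1) :
    (Wh h z).re = Real.circleAverage (fun ζ => (herglotzRieszKernel 0 z ζ).re * h ζ) 0 1 := by
  have h1 := re_circleAverage_herglotzRieszKernel_smul (R := 1) (w := z)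
    (hh.circleIntegrable zero_le_one) (by simpa using hz)
  rw [Wh, h1]
  rfl

theorem ker_one_298 {z : ℂ} (hz : ‖z‖ < 1) :
    Real.circleAverage (fun ζ => (herglotzRieszKernel 0 z ζ).re) 0 1 = 1 := by
  have h1 := DiffContOnCl.circleAverage_re_herglotzRieszKernel_smul (E := ℂ) (R := 1) (w := z)
    (c := 0) (f := fun _ => 1) diffContOnCl_const (by simpa using hz)
  have h2 : Real.circleAverage (fun ζ => (((herglotzRieszKernel 0 z ζ).re : ℝ) : ℂ)) 0 1 = 1 := by
    rw [← h1]
    congr 1
    funext ζ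
    simp
  have h3 : Real.circleAverage (fun ζ => (((herglotzRieszKernel 0 z ζ).re : ℝ) : ℂ)) 0 1 =
      ((Real.circleAverage (fun ζ => (herglotzRieszKernel 0 z ζ).re) 0 1 : ℝ) : ℂ) := by
    rw [Real.circleAverage, Real.circleAverage, intervalIntegral.integral_ofReal]
    simp
  rw [h3] at h2
  exact_mod_cast h2

theorem avg_const_mul_298 (a : ℝ) (f : ℂ → ℝ) :
    Real.circleAverage (fun ζ => a * f ζ) 0 1 = a * Real.circleAverage f 0 1 := by
  rw [Real.circleAverage, Real.circleAverage, intervalIntegral.integral_const_mul, smul_eq_mul,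
    smul_eq_mul]
  ring

theorem po : PO := by
  intro h hh
  have hci : CircleIntegrable (fun ζ => (h ζ : ℂ)) 0 1 :=
    (Complex.continuous_ofReal.comp_continuousOn hh).circleIntegrable zero_le_one
  have hd : DifferentiableOn ℂ (Wh h) (ball 0 1) :=
    differentiableOn_circleAverage_herglotzRieszKernel_smul hci
  refine ⟨hd, ?_⟩
  intro z0 hz0
  have hz0' : ‖z0‖ ≤ 1 := by simpa using hz0
  rcases lt_or_eq_of_le hz0' with hlt | heq
  · have hb : z0 ∈ ball (0 : ℂ) 1 := by simpa using hlt
    have h1 : ContinuousAt (fun z => (Wh h z).re) z0 :=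
      Complex.continuous_re.continuousAt.comp ((hd z0 hb).differentiableAt
        (isOpen_ball.mem_nhds hb)).continuousAt
    have h2 : (fun z => if ‖z‖ < 1 then (Wh h z).re else h z) =ᶠ[𝓝 z0] fun z => (Wh h z).re := by
      filter_upwards [isOpen_ball.mem_nhds hb] with z hz
      have : ‖z‖ < 1 := by simpa using hz
      rw [if_pos this]
    exact (h1.congr h2.symm).continuousWithinAt
  · -- boundary point
    have hzs : z0 ∈ sphere (0 : ℂ) 1 := by simpa using heq
    obtain ⟨M, hM⟩ : ∃ M : ℝ, ∀ ζ ∈ sphere (0 : ℂ) 1, |h ζ| ≤ M := by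
      obtain ⟨M, hM⟩ := (isCompact_sphere (0 : ℂ) 1).bddAbove_image hh.abs
      exact ⟨M, fun ζ hζ => hM (mem_image_of_mem _ hζ)⟩
    have hM0 : 0 ≤ M := (abs_nonneg _).trans (hM z0 hzs)
    rw [ContinuousWithinAt, Metric.tendsto_nhds]
    intro ε hε
    have hnlt : ¬ ‖z0‖ < 1 := not_lt.2 heq.ge
    rw [if_neg hnlt]
    have hc0 := hh z0 hzs
    rw [ContinuousWithinAt, Metric.tendsto_nhdsWithin_nhds] at hc0
    obtain ⟨δ, hδ0, hδ⟩ := hc0 (ε / 4) (by positivity)
    have e1 : ∀ᶠ z in 𝓝[closedBall (0 : ℂ) 1] z0, dist z z0 < δ / 2 :=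
      nhdsWithin_le_nhds (Metric.ball_mem_nhds z0 (by positivity))
    have e2 : ∀ᶠ z in 𝓝[closedBall (0 : ℂ) 1] z0, 8 * M * (1 - ‖z‖ ^ 2) / δ ^ 2 < ε / 4 := by
      have hcc : ContinuousAt (fun z : ℂ => 8 * M * (1 - ‖z‖ ^ 2) / δ ^ 2) z0 := by fun_prop
      have := hcc.eventually_lt_const (show 8 * M * (1 - ‖z0‖ ^ 2) / δ ^ 2 < ε / 4 by
        rw [heq]; simp; positivity)
      exact nhdsWithin_le_nhds this
    filter_upwards [e1, e2, self_mem_nhdsWithin] with z h1 h2 h3
    by_cases hz1 : ‖z‖ < 1
    · rw [if_pos hz1, Real.dist_eq, wh_re_298 h hh hz1]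
      have hkc := ker_cont_298 hz1
      have hrc : ContinuousOn (fun ζ => (herglotzRieszKernel 0 z ζ).re) (sphere 0 1) :=
        Complex.continuous_re.comp_continuousOn hkc
      have i1 : CircleIntegrable (fun ζ => (herglotzRieszKernel 0 z ζ).re * h ζ) 0 1 :=
        (hrc.mul hh).circleIntegrable zero_le_one
      have i2 : CircleIntegrable (fun ζ => h z0 * (herglotzRieszKernel 0 z ζ).re) 0 1 :=
        (continuousOn_const.mul hrc).circleIntegrable zero_le_one
      have e3 : Real.circleAverage (fun ζ => (herglotzRieszKernel 0 z ζ).re * h ζ) 0 1 - h z0 =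
          Real.circleAverage (fun ζ => (herglotzRieszKernel 0 z ζ).re * h ζ -
            h z0 * (herglotzRieszKernel 0 z ζ).re) 0 1 := by
        rw [Real.circleAverage_fun_sub i1 i2]
        congr 1
        rw [avg_const_mul_298, ker_one_298 hz1, mul_one]
      rw [e3]
      refine lt_of_le_of_lt Real.abs_circleAverage_le_circleAverage_abs ?_
      have i3 : CircleIntegrable |fun ζ => (herglotzRieszKernel 0 z ζ).re * h ζ -
            h z0 * (herglotzRieszKernel 0 z ζ).re| 0 1 :=
        (((hrc.mul hh).sub (continuousOn_const.mul hrc)).abs).circleIntegrable zero_le_one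
      have i4 : CircleIntegrable (fun ζ => ε / 4 * (herglotzRieszKernel 0 z ζ).re) 0 1 :=
        (continuousOn_const.mul hrc).circleIntegrable zero_le_one
      have i5 : CircleIntegrable (fun _ : ℂ => ε / 4) 0 1 :=
        continuousOn_const.circleIntegrable zero_le_one
      have hpt : ∀ ζ ∈ sphere (0 : ℂ) |1|, |fun ζ => (herglotzRieszKernel 0 z ζ).re * h ζ -
            h z0 * (herglotzRieszKernel 0 z ζ).re| ζ ≤
          ε / 4 * (herglotzRieszKernel 0 z ζ).re + ε / 4 := by
        intro ζ hζ
        rw [abs_one] at hζ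
        have hζn : ‖ζ‖ = 1 := by simpa using hζ
        have hk := ker_re_298 (z := z) hζ
        have hz2 : 0 < 1 - ‖z‖ ^ 2 := by nlinarith [norm_nonneg z]
        have hne : 0 < ‖ζ - z‖ := by
          have := norm_sub_norm_le ζ z
          linarith
        have hk0 : 0 < (herglotzRieszKernel 0 z ζ).re := by rw [hk]; positivity
        rw [Pi.abs_apply]
        have e4 : (herglotzRieszKernel 0 z ζ).re * h ζ - h z0 * (herglotzRieszKernel 0 z ζ).re =
            (herglotzRieszKernel 0 z ζ).re * (h ζ - h z0) := by ring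
        rw [e4, abs_mul, abs_of_pos hk0]
        by_cases hd1 : dist ζ z0 < δ
        · have h5 := hδ hζ hd1
          rw [Real.dist_eq] at h5
          have := mul_le_mul_of_nonneg_left h5.le hk0.le
          linarith
        · push Not at hd1
          have h6 : δ / 2 ≤ ‖ζ - z‖ := by
            have h7 : dist ζ z0 ≤ dist ζ z + dist z z0 := dist_triangle _ _ _
            rw [← dist_eq_norm]
            linarith
          have h7 : |h ζ - h z0| ≤ 2 * M := by
            have := abs_sub (h ζ) (h z0)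
            have := hM ζ hζ
            have := hM z0 hzs
            linarith
          have h8 : (herglotzRieszKernel 0 z ζ).re ≤ (1 - ‖z‖ ^ 2) / (δ / 2) ^ 2 := by
            rw [hk]
            exact div_le_div_of_nonneg_left hz2.le (by positivity)
              (pow_le_pow_left₀ (by positivity) h6 2)
          have h9 : (herglotzRieszKernel 0 z ζ).re * |h ζ - h z0| ≤
              (1 - ‖z‖ ^ 2) / (δ / 2) ^ 2 * (2 * M) :=
            mul_le_mul h8 h7 (abs_nonneg _) (by positivity)
          have h10 : (1 - ‖z‖ ^ 2) / (δ / 2) ^ 2 * (2 * M) = 8 * M * (1 - ‖z‖ ^ 2) / δ ^ 2 := by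
            field_simp
            ring
          have : 0 ≤ ε / 4 * (herglotzRieszKernel 0 z ζ).re := by positivity
          linarith
      have h11 := Real.circleAverage_mono i3 (i4.add i5) hpt
      refine lt_of_le_of_lt h11 ?_
      have h12 : Real.circleAverage ((fun ζ => ε / 4 * (herglotzRieszKernel 0 z ζ).re) +
          fun _ : ℂ => ε / 4) 0 1 = ε / 4 + ε / 4 := by
        rw [Real.circleAverage_add i4 i5, Real.circleAverage_const]
        rw [avg_const_mul_298, ker_one_298 hz1, mul_one]
      rw [h12]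
      linarith
    · rw [if_neg hz1]
      have h4 : ‖z‖ ≤ 1 := by simpa using h3
      have h5 : z ∈ sphere (0 : ℂ) 1 := by
        rw [mem_sphere_zero_iff_norm]
        exact le_antisymm h4 (not_lt.1 hz1)
      have := hδ h5 (by linarith)
      linarith

end Q94.KR
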