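import Pool.Agent.Q94.KR.K7

/-! Job K8 of project KR (author helper94): continuous dependence. -/

set_option autoImplicit false

open MeasureTheory Set Filter Topology Metric
open scoped ContDiff InnerProductSpace

namespace Q94.KR

theorem norm_avg_le_298 (F : ℂ → ℂ) (B : ℝ) (h : ∀ ζ ∈ sphere (0 : ℂ) 1, ‖F ζ‖ ≤ B) :
    ‖Real.circleAverage F 0 1‖ ≤ B := by
  have h1 : ‖∫ θ in (0 : ℝ)..2 * Real.pi, F (circleMap 0 1 θ)‖ ≤ B * |2 * Real.pi - 0| := by
    refine intervalIntegral.norm_integral_le_of_norm_le_const fun θ _ => h _ ?_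
    exact circleMap_mem_sphere 0 zero_le_one θ
  rw [Real.circleAverage, norm_smul, norm_inv, Real.norm_of_nonneg Real.two_pi_pos.le]
  rw [sub_zero, abs_of_pos Real.two_pi_pos] at h1
  have h2 := Real.two_pi_pos
  calc (2 * Real.pi)⁻¹ * ‖∫ θ in (0 : ℝ)..2 * Real.pi, F (circleMap 0 1 θ)‖
      ≤ (2 * Real.pi)⁻¹ * (B * (2 * Real.pi)) := mul_le_mul_of_nonneg_left h1 (by positivity)
    _ = B := by field_simp

theorem pb : PB := by
  intro h h' ε z hh hh' hε hz
  have hkc := ker_cont_298 hz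
  have i1 : CircleIntegrable (fun ζ => herglotzRieszKernel 0 z ζ • (h ζ : ℂ)) 0 1 :=
    (hkc.smul (Complex.continuous_ofReal.comp_continuousOn hh)).circleIntegrable zero_le_one
  have i2 : CircleIntegrable (fun ζ => herglotzRieszKernel 0 z ζ • (h' ζ : ℂ)) 0 1 :=
    (hkc.smul (Complex.continuous_ofReal.comp_continuousOn hh')).circleIntegrable zero_le_one
  rw [Wh, Wh, ← Real.circleAverage_fun_sub i1 i2]
  refine norm_avg_le_298 _ _ ?_
  intro ζ hζ
  have hζn : ‖ζ‖ = 1 := by simpa using hζ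
  have hε' := hε ζ hζ
  rw [smul_eq_mul, smul_eq_mul, ← mul_sub, norm_mul, ← Complex.ofReal_sub, Complex.norm_real,
    Real.norm_eq_abs]
  have hz1 : 0 < 1 - ‖z‖ := by linarith
  refine mul_le_mul ?_ hε' (abs_nonneg _) (by positivity)
  rw [herglotzRieszKernel_def, sub_zero, sub_zero, norm_div]
  have h1 : ‖ζ + z‖ ≤ 2 := by
    have := norm_add_le ζ z
    linarith
  have h2 : 1 - ‖z‖ ≤ ‖ζ - z‖ := by
    have := norm_sub_norm_le ζ z
    linarith
  exact div_le_div₀ two_pos.le h1 hz1 h2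

theorem log_cont_298 (P : ℂ → ℂ) (k : ℂ → ℝ) (hP : Differentiable ℂ P)
    (hP0 : ∀ ζ ∈ sphere (0 : ℂ) 1, P ζ ≠ 0) (hk : ContinuousOn k (sphere 0 1))
    (hk0 : ∀ ζ ∈ sphere (0 : ℂ) 1, 0 < k ζ) :
    ContinuousOn (fun ζ => Real.log (k ζ / ‖P ζ‖)) (sphere 0 1) := by
  have h1 : ContinuousOn (fun ζ => k ζ / ‖P ζ‖) (sphere 0 1) :=
    hk.div hP.continuous.norm.continuousOn fun ζ hζ => norm_ne_zero_iff.2 (hP0 ζ hζ)
  exact h1.log fun ζ hζ => (div_pos (hk0 ζ hζ) (norm_pos_iff.2 (hP0 ζ hζ))).ne'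

theorem log_sub_298 (a b m : ℝ) (hm : 0 < m) (ha : m ≤ a) (hb : m ≤ b) :
    |Real.log a - Real.log b| ≤ |a - b| / m := by
  have key : ∀ a b : ℝ, m ≤ a → m ≤ b → Real.log a - Real.log b ≤ |a - b| / m := by
    intro a b ha hb
    have ha0 : 0 < a := by linarith
    have hb0 : 0 < b := by linarith
    rw [← Real.log_div ha0.ne' hb0.ne']
    have h1 := Real.log_le_sub_one_of_pos (div_pos ha0 hb0)
    have h2 : a / b - 1 = (a - b) / b := by field_simp
    have h3 : (a - b) / b ≤ |a - b| / b := div_le_div_of_nonneg_right (le_abs_self _) hb0.le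
    have h4 : |a - b| / b ≤ |a - b| / m := div_le_div_of_nonneg_left (abs_nonneg _) hm hb
    linarith
  rw [abs_le]
  constructor
  · have := key b a hb ha
    rw [abs_sub_comm] at this
    linarith
  · exact key a b ha hb

theorem sc (h : PB) (hp : PO) : SC := by
  intro P k hP hP0 hk hk0 z hz ε hε
  have hz1 : ‖z‖ < 1 := by simpa using hz
  have hz2 : 0 < 1 - ‖z‖ := by linarith
  -- the minimum of `k`
  obtain ⟨m, hm0, hm⟩ : ∃ m : ℝ, 0 < m ∧ ∀ ζ ∈ sphere (0 : ℂ) 1, m ≤ k ζ := by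
    have hne : (sphere (0 : ℂ) 1).Nonempty := NormedSpace.sphere_nonempty.2 zero_le_one
    obtain ⟨ζ0, hζ0, hmin⟩ := (isCompact_sphere (0 : ℂ) 1).exists_isMinOn hne hk
    exact ⟨k ζ0, hk0 ζ0 hζ0, fun ζ hζ => hmin hζ⟩
  have hlk := log_cont_298 P k hP hP0 hk hk0
  set W : ℂ → ℂ := Wh (fun ζ => Real.log (k ζ / ‖P ζ‖)) with hW
  have hWc : ContinuousOn W (ball 0 1) := (hp _ hlk).1.continuousOn
  have hseg : ∀ t ∈ uIcc (0 : ℝ) 1, ‖(t : ℂ) * z‖ < 1 ∧ ‖(t : ℂ) * z‖ ≤ ‖z‖ := by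
    intro t ht
    rw [uIcc_of_le zero_le_one] at ht
    have h1 : ‖(t : ℂ) * z‖ ≤ ‖z‖ := by
      rw [norm_mul, Complex.norm_real, Real.norm_of_nonneg ht.1]
      have := norm_nonneg z
      nlinarith [ht.2]
    exact ⟨by linarith, h1⟩
  have hcomp : ∀ V : ℂ → ℂ, ContinuousOn V (ball 0 1) →
      ContinuousOn (fun t : ℝ => z * (P (t * z) * Complex.exp (V (t * z)))) (uIcc 0 1) := by
    intro V hV
    have h1 : ContinuousOn (fun t : ℝ => V (t * z)) (uIcc 0 1) := by
      refine hV.comp (by fun_prop) ?_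
      intro t ht
      rw [mem_ball_zero_iff]
      exact (hseg t ht).1
    have h2 : Continuous fun t : ℝ => P (t * z) := hP.continuous.comp (by fun_prop)
    exact continuousOn_const.mul (h2.continuousOn.mul h1.cexp)
  obtain ⟨B, hB⟩ : ∃ B : ℝ, ∀ t ∈ uIcc (0 : ℝ) 1,
      ‖z * (P (t * z) * Complex.exp (W (t * z)))‖ ≤ B := by
    obtain ⟨B, hB⟩ := isCompact_uIcc.bddAbove_image (hcomp W hWc).norm
    exact ⟨B, fun t ht => hB (mem_image_of_mem _ ht)⟩
  have hB0 : 0 ≤ B := (norm_nonneg _).trans (hB 0 left_mem_uIcc)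
  -- the constant
  set C : ℝ := 2 / (1 - ‖z‖) * (2 / m) with hC
  have hC0 : 0 < C := by positivity
  refine ⟨min (m / 2) (min (1 / C) (ε / (2 * (B + 1) * C))), by positivity, ?_⟩
  intro k' hk' hkk
  set δ : ℝ := min (m / 2) (min (1 / C) (ε / (2 * (B + 1) * C))) with hδ
  have hδ1 : δ ≤ m / 2 := min_le_left _ _
  have hδ2 : δ ≤ 1 / C := (min_le_right _ _).trans (min_le_left _ _)
  have hδ3 : δ ≤ ε / (2 * (B + 1) * C) := (min_le_right _ _).trans (min_le_right _ _)
  have hlk' := log_cont_298 P k' hP hP0 hk' fun ζ hζ => (hkk ζ hζ).1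
  set W' : ℂ → ℂ := Wh (fun ζ => Real.log (k' ζ / ‖P ζ‖)) with hW'
  have hWc' : ContinuousOn W' (ball 0 1) := (hp _ hlk').1.continuousOn
  have hdiff : ∀ w : ℂ, ‖w‖ ≤ ‖z‖ → ‖W' w - W w‖ ≤ C * δ := by
    intro w hw
    have h1 := h _ _ (2 / m * δ) w hlk' hlk (by
      intro ζ hζ
      have h2 := hP0 ζ hζ
      have h3 := hkk ζ hζ
      have h4 := hm ζ hζ
      rw [Real.log_div h3.1.ne' (norm_ne_zero_iff.2 h2), Real.log_div (hk0 ζ hζ).ne'
        (norm_ne_zero_iff.2 h2), sub_sub_sub_cancel_right]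
      have h5 : m / 2 ≤ k' ζ := by
        have := (abs_le.1 h3.2).1
        linarith
      have h6 := log_sub_298 (k' ζ) (k ζ) (m / 2) (by positivity) h5 (by linarith)
      refine h6.trans ?_
      calc |k' ζ - k ζ| / (m / 2) ≤ δ / (m / 2) :=
            div_le_div_of_nonneg_right h3.2 (by positivity)
        _ = 2 / m * δ := by field_simp) (by linarith)
    refine h1.trans ?_
    have h7 : 2 / (1 - ‖w‖) ≤ 2 / (1 - ‖z‖) :=
      div_le_div_of_nonneg_left two_pos.le hz2 (by linarith)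
    have hδ0 : 0 < δ := by rw [hδ]; positivity
    calc 2 / (1 - ‖w‖) * (2 / m * δ) ≤ 2 / (1 - ‖z‖) * (2 / m * δ) :=
          mul_le_mul_of_nonneg_right h7 (by positivity)
      _ = C * δ := by rw [hC]; ring
  have hCδ1 : C * δ ≤ 1 := by
    calc C * δ ≤ C * (1 / C) := mul_le_mul_of_nonneg_left hδ2 hC0.le
      _ = 1 := by field_simp
  have hCδ2 : B * (2 * (C * δ)) ≤ ε := by
    have h1 : C * δ ≤ C * (ε / (2 * (B + 1) * C)) := mul_le_mul_of_nonneg_left hδ3 hC0.le
    have h2 : C * (ε / (2 * (B + 1) * C)) = ε / (2 * (B + 1)) := by field_simp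
    rw [h2] at h1
    have h3 : 0 ≤ ε / (2 * (B + 1)) := by positivity
    calc B * (2 * (C * δ)) ≤ (B + 1) * (2 * (ε / (2 * (B + 1)))) := by
          refine mul_le_mul (by linarith) (by linarith) ?_ (by positivity)
          have : 0 < δ := by rw [hδ]; positivity
          positivity
      _ = ε := by field_simp
  rw [Op, Op, ← intervalIntegral.integral_sub (hcomp W' hWc').intervalIntegrable
    (hcomp W hWc).intervalIntegrable]
  have hfin := intervalIntegral.norm_integral_le_of_norm_le_const (a := (0 : ℝ)) (b := 1) (C := ε)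
    (f := fun t : ℝ => z * (P (t * z) * Complex.exp (W' (t * z))) -
      z * (P (t * z) * Complex.exp (W (t * z)))) (by
      intro t ht
      have ht' : t ∈ uIcc (0 : ℝ) 1 := uIoc_subset_uIcc ht
      have h1 := hdiff (t * z) (hseg t ht').2
      have e1 : z * (P (t * z) * Complex.exp (W' (t * z))) -
          z * (P (t * z) * Complex.exp (W (t * z))) =
          (z * (P (t * z) * Complex.exp (W (t * z)))) *
            (Complex.exp (W' (t * z) - W (t * z)) - 1) := by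
        rw [Complex.exp_sub]
        field_simp [Complex.exp_ne_zero]
      rw [e1, norm_mul]
      have h2 := Complex.norm_exp_sub_one_le (x := W' (t * z) - W (t * z)) (h1.trans hCδ1)
      calc ‖z * (P (t * z) * Complex.exp (W (t * z)))‖ *
            ‖Complex.exp (W' (t * z) - W (t * z)) - 1‖ ≤ B * (2 * (C * δ)) :=
            mul_le_mul (hB t ht') (h2.trans (by linarith)) (norm_nonneg _) hB0
        _ ≤ ε := hCδ2)
  simpa using hfin

end Q94.KR
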