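import Pool.Agent.Q94.KR.K8

/-! Job K9 of project KR (author helper94): properties of the operator. -/

set_option autoImplicit false

open MeasureTheory Set Filter Topology Metric
open scoped ContDiff InnerProductSpace

namespace Q94.KR

theorem prim_298 (H : ℂ → ℂ) (hH : DifferentiableOn ℂ H (ball 0 1)) :
    DifferentiableOn ℂ (fun z => ∫ t in (0 : ℝ)..1, z * H (t * z)) (ball 0 1) ∧
    ∀ z ∈ ball (0 : ℂ) 1, deriv (fun z => ∫ t in (0 : ℝ)..1, z * H (t * z)) z = H z := by
  obtain ⟨G, hG⟩ := hH.isExactOn_ball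
  have hseg : ∀ z ∈ ball (0 : ℂ) 1, ∀ t ∈ uIcc (0 : ℝ) 1, (t : ℂ) * z ∈ ball (0 : ℂ) 1 := by
    intro z hz t ht
    have hz1 : ‖z‖ < 1 := by simpa using hz
    rw [uIcc_of_le zero_le_one] at ht
    rw [mem_ball_zero_iff, norm_mul, Complex.norm_real, Real.norm_of_nonneg ht.1]
    have := norm_nonneg z
    nlinarith [ht.2]
  have key : ∀ z ∈ ball (0 : ℂ) 1, (∫ t in (0 : ℝ)..1, z * H (t * z)) = G z - G 0 := by
    intro z hz
    have h1 : ∀ t ∈ uIcc (0 : ℝ) 1, HasDerivAt (fun t : ℝ => G (t * z)) (z * H (t * z)) t := by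
      intro t ht
      have h2 := hG (t * z) (hseg z hz t ht)
      have h3 : HasDerivAt (fun t : ℝ => (t : ℂ) * z) z t := by
        simpa using (Complex.ofRealCLM.hasDerivAt (x := t)).mul_const z
      have h4 := h2.comp t h3
      rw [mul_comm (H (t * z)) z] at h4
      exact h4
    have h2 : IntervalIntegrable (fun t : ℝ => z * H (t * z)) volume 0 1 := by
      refine ContinuousOn.intervalIntegrable ?_
      refine continuousOn_const.mul (hH.continuousOn.comp (by fun_prop) ?_)
      intro t ht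
      exact hseg z hz t ht
    have h3 := intervalIntegral.integral_eq_sub_of_hasDerivAt h1 h2
    rw [h3]
    simp
  have hder : ∀ z ∈ ball (0 : ℂ) 1,
      HasDerivAt (fun z => ∫ t in (0 : ℝ)..1, z * H (t * z)) (H z) z := by
    intro z hz
    have h1 : (fun z => ∫ t in (0 : ℝ)..1, z * H (t * z)) =ᶠ[𝓝 z] fun z => G z - G 0 := by
      filter_upwards [isOpen_ball.mem_nhds hz] with w hw
      exact key w hw
    exact ((hG z hz).sub_const (G 0)).congr_of_eventuallyEq h1
  exact ⟨fun z hz => (hder z hz).differentiableAt.differentiableWithinAt,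
    fun z hz => (hder z hz).deriv⟩

theorem st (hp : PO) : ST := by
  intro P k M hP hP0 hk hkM
  have hk0 : ∀ ζ ∈ sphere (0 : ℂ) 1, 0 < k ζ := fun ζ hζ => (hkM ζ hζ).1
  have hlk := log_cont_298 P k hP hP0 hk hk0
  set W : ℂ → ℂ := Wh (fun ζ => Real.log (k ζ / ‖P ζ‖)) with hW
  obtain ⟨hWd, hWb⟩ := hp _ hlk
  rw [← hW] at hWd hWb
  set H : ℂ → ℂ := fun z => P z * Complex.exp (W z) with hH
  have hHd : DifferentiableOn ℂ H (ball 0 1) := hP.differentiableOn.mul hWd.cexp
  obtain ⟨p1, p2⟩ := prim_298 H hHd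
  have hOp : Op P k = fun z => ∫ t in (0 : ℝ)..1, z * H (t * z) := by
    funext z
    rw [Op]
  have hE : ContinuousOn (fun z => if ‖z‖ < 1 then ‖H z‖ else k z) (closedBall 0 1) := by
    have h1 : ContinuousOn (fun z => ‖P z‖ * Real.exp (if ‖z‖ < 1 then (W z).re else
        Real.log (k z / ‖P z‖))) (closedBall 0 1) :=
      hP.continuous.norm.continuousOn.mul (Real.continuous_exp.comp_continuousOn hWb)
    refine h1.congr ?_
    intro z hz
    beta_reduce
    split_ifs with h
    · rw [hH, norm_mul, Complex.norm_exp]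
    · have h2 : ‖z‖ ≤ 1 := by simpa using hz
      have h3 : z ∈ sphere (0 : ℂ) 1 := by
        rw [mem_sphere_zero_iff_norm]
        exact le_antisymm h2 (not_lt.1 h)
      have h4 : 0 < ‖P z‖ := norm_pos_iff.2 (hP0 z h3)
      rw [Real.exp_log (div_pos (hk0 z h3) h4)]
      field_simp
  have hder : ∀ z ∈ ball (0 : ℂ) 1, deriv (Op P k) z = H z := by
    intro z hz
    rw [hOp]
    exact p2 z hz
  refine ⟨by rw [hOp]; exact p1, by rw [hOp]; simp, hder, ?_, ?_⟩
  · intro z hz
    rw [hder z hz]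
    set E : ℂ → ℝ := fun z => if ‖z‖ < 1 then ‖H z‖ else k z with hEdef
    have hEb : ∀ w ∈ ball (0 : ℂ) 1, E w = ‖H w‖ := by
      intro w hw
      rw [hEdef]
      beta_reduce
      rw [if_pos (by simpa using hw)]
    have hEs : ∀ w ∈ sphere (0 : ℂ) 1, E w = k w := by
      intro w hw
      rw [hEdef]
      beta_reduce
      have : ‖w‖ = 1 := by simpa using hw
      rw [if_neg (by rw [this]; exact lt_irrefl _)]
    have hbc : ball (0 : ℂ) 1 ⊆ closedBall 0 1 := ball_subset_closedBall
    obtain ⟨zs, hzs, hmax⟩ := (isCompact_closedBall (0 : ℂ) 1).exists_isMaxOn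
      ⟨z, hbc hz⟩ hE
    have hle : ‖H z‖ ≤ E zs := by
      rw [← hEb z hz]
      exact hmax (hbc hz)
    refine hle.trans ?_
    have hzs' : ‖zs‖ ≤ 1 := by simpa using hzs
    rcases lt_or_eq_of_le hzs' with hlt | heq
    · have hzb : zs ∈ ball (0 : ℂ) 1 := by simpa using hlt
      have hmaxb : IsMaxOn (norm ∘ H) (ball 0 1) zs := by
        intro w hw
        have h1 : E w ≤ E zs := hmax (hbc hw)
        rw [hEb w hw, hEb zs hzb] at h1
        exact h1
      have hconst := Complex.eqOn_of_isPreconnected_of_isMaxOn_norm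
        (convex_ball (0 : ℂ) 1).isPreconnected isOpen_ball hHd hzb hmaxb
      have hEq : EqOn E (fun _ => E zs) (ball 0 1) := by
        intro w hw
        have h1 : H w = H zs := hconst hw
        beta_reduce
        rw [hEb w hw, hEb zs hzb, h1]
      have hEq2 : EqOn E (fun _ => E zs) (closedBall 0 1) :=
        hEq.of_subset_closure hE continuousOn_const hbc
          (by rw [closure_ball (0 : ℂ) one_ne_zero])
      have h1s : (1 : ℂ) ∈ sphere (0 : ℂ) 1 := by simp
      have h2 := hEq2 (sphere_subset_closedBall h1s)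
      beta_reduce at h2
      rw [← h2, hEs 1 h1s]
      exact (hkM 1 h1s).2
    · have h1s : zs ∈ sphere (0 : ℂ) 1 := by simpa using heq
      rw [hEs zs h1s]
      exact (hkM zs h1s).2
  · refine hE.congr ?_
    intro z hz
    beta_reduce
    split_ifs with h
    · rw [hder z (by simpa using h)]
    · rfl

end Q94.KR
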