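import Mathlib

/-!
# Maximal Blaschke products: definitions and lemma statements

Row MP_ce8478_an (inner factors of maximal Blaschke products).  All lemma statements are `Prop`s,
so that they can be used as hypotheses of one another.
-/

open MeasureTheory Set Filter Topology Metric
open scoped ContDiff InnerProductSpace

namespace Q94.KR

/-- The Laplacian of a real function of a complex variable. -/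
noncomputable abbrev lap (u : ℂ → ℝ) : ℂ → ℝ := Laplacian.laplacian u

/-- Pull-back of the hyperbolic metric. -/
noncomputable def lam (f : ℂ → ℂ) (z : ℂ) : ℝ := ‖deriv f z‖ / (1 - ‖f z‖ ^ 2)

/-- Critical sets of bounded functions, as multiplicity functions (only the values in the open
unit disc matter). -/
def Crit (m : ℂ → ℕ) : Prop := ∃ f : ℂ → ℂ, DifferentiableOn ℂ f (ball 0 1) ∧
  (∃ M : ℝ, ∀ z ∈ ball (0 : ℂ) 1, ‖f z‖ ≤ M) ∧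
  ∀ z ∈ ball (0 : ℂ) 1, analyticOrderAt (deriv f) z = m z

/-- Functions bounded by `1` whose derivative vanishes at least to the multiplicity. -/
def Fam (m : ℂ → ℕ) (f : ℂ → ℂ) : Prop := DifferentiableOn ℂ f (ball 0 1) ∧
  (∀ z ∈ ball (0 : ℂ) 1, ‖f z‖ ≤ 1) ∧
  ∀ z ∈ ball (0 : ℂ) 1, (m z : ℕ∞) ≤ analyticOrderAt (deriv f) z

/-- Extremal functions. -/
def Ext (m : ℂ → ℕ) (f : ℂ → ℂ) : Prop := Fam m f ∧ ∀ g, Fam m g →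
  (iteratedDeriv (m 0 + 1) g 0).re ≤ (iteratedDeriv (m 0 + 1) f 0).re

/-- Conformal automorphisms of the unit disc. -/
def IsAut (T : ℂ → ℂ) : Prop := ∃ a c : ℂ, ‖a‖ < 1 ∧ ‖c‖ = 1 ∧
  ∀ w, T w = c * ((w - a) / (1 - (starRingEnd ℂ) a * w))

/-- Maximal Blaschke products. -/
def MBP (A : ℂ → ℂ) : Prop := ∃ m, Crit m ∧ ∃ f T, Ext m f ∧ IsAut T ∧
  ∀ z ∈ ball (0 : ℂ) 1, A z = T (f z)

/-- Conformal pseudometrics of curvature at most `-4` with zeros at least `m`. -/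
structure SK (m : ℂ → ℕ) (σ : ℂ → ℝ) : Prop where
  cont : ContinuousOn σ (ball 0 1)
  nonneg : ∀ z ∈ ball (0 : ℂ) 1, 0 ≤ σ z
  smooth : ∀ z ∈ ball (0 : ℂ) 1, 0 < σ z → ContDiffAt ℝ 2 (fun w => Real.log (σ w)) z
  curv : ∀ z ∈ ball (0 : ℂ) 1, 0 < σ z → 4 * σ z ^ 2 ≤ lap (fun w => Real.log (σ w)) z
  zero : ∀ z ∈ ball (0 : ℂ) 1, ∃ K : ℝ, ∀ᶠ w in 𝓝 z, σ w ≤ K * ‖w - z‖ ^ m z

/-- Universal functions: their metric is the largest one with zeros at least `m`. -/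
structure Univ (m : ℂ → ℕ) (F : ℂ → ℂ) : Prop where
  diff : DifferentiableOn ℂ F (ball 0 1)
  lt : ∀ z ∈ ball (0 : ℂ) 1, ‖F z‖ < 1
  zero : F 0 = 0
  ord : ∀ z ∈ ball (0 : ℂ) 1, analyticOrderAt (deriv F) z = m z
  maj : ∀ σ : ℂ → ℝ, SK m σ → ∀ z ∈ ball (0 : ℂ) 1, σ z ≤ lam F z

/-! ### Group L: local computations -/

/-- The Laplacian is nonpositive at a local maximum. -/
def MX : Prop := ∀ (u : ℂ → ℝ) (z : ℂ), ContDiffAt ℝ 2 u z → IsLocalMax u z → lap u z ≤ 0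

/-- Laplacian of `‖f‖²`. -/
def LQ : Prop := ∀ (f : ℂ → ℂ) (z : ℂ), AnalyticAt ℂ f z →
  ContDiffAt ℝ 2 (fun w => ‖f w‖ ^ 2) z ∧ lap (fun w => ‖f w‖ ^ 2) z = 4 * ‖deriv f z‖ ^ 2

/-- Laplacian of `-log (1 - ‖f‖²)`. -/
def LH : Prop := ∀ (f : ℂ → ℂ) (z : ℂ), AnalyticAt ℂ f z → ‖f z‖ < 1 →
  ContDiffAt ℝ 2 (fun w => -Real.log (1 - ‖f w‖ ^ 2)) z ∧
  lap (fun w => -Real.log (1 - ‖f w‖ ^ 2)) z = 4 * lam f z ^ 2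

/-- Laplacian of `log (lam f)`. -/
def LL : Prop := ∀ (f : ℂ → ℂ) (z : ℂ), AnalyticAt ℂ f z → ‖f z‖ < 1 → deriv f z ≠ 0 →
  ContDiffAt ℝ 2 (fun w => Real.log (lam f w)) z ∧
  lap (fun w => Real.log (lam f w)) z = 4 * lam f z ^ 2

/-- Order of vanishing and growth. -/
def OR : Prop := ∀ (g : ℂ → ℂ) (z : ℂ) (n : ℕ), AnalyticAt ℂ g z →
  ((n : ℕ∞) ≤ analyticOrderAt g z ↔ ∃ K : ℝ, ∀ᶠ w in 𝓝 z, ‖g w‖ ≤ K * ‖w - z‖ ^ n) ∧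
  (analyticOrderAt g z ≤ n ↔ ∃ k : ℝ, 0 < k ∧ ∀ᶠ w in 𝓝 z, k * ‖w - z‖ ^ n ≤ ‖g w‖)

/-- Pull-backs are pseudometrics of curvature `-4`. -/
def SKL : Prop := ∀ (m : ℂ → ℕ) (f : ℂ → ℂ), Fam m f → (∀ z ∈ ball (0 : ℂ) 1, ‖f z‖ < 1) →
  SK m (lam f)

/-- Comparison principle. -/
def CMP : Prop := ∀ (m : ℂ → ℕ) (σ : ℂ → ℝ) (r : ℝ) (g : ℂ → ℂ) (L : ℂ → ℝ), SK m σ → 0 < r →
  r < 1 → DifferentiableOn ℂ g (ball 0 r) → (∀ z ∈ ball (0 : ℂ) r, ‖g z‖ < 1) →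
  (∀ z ∈ ball (0 : ℂ) r, analyticOrderAt (deriv g) z ≤ m z) →
  ContinuousOn L (closedBall 0 r) → (∀ z ∈ ball (0 : ℂ) r, L z = lam g z) →
  (∀ z ∈ sphere (0 : ℂ) r, 0 < L z ∧ σ z ≤ L z) → ∀ z ∈ ball (0 : ℂ) r, σ z ≤ lam g z

/-- Ahlfors's lemma. -/
def AH : Prop := ∀ (m : ℂ → ℕ) (σ : ℂ → ℝ), SK m σ → ∀ z ∈ ball (0 : ℂ) 1,
  σ z ≤ 1 / (1 - ‖z‖ ^ 2)

/-! ### Group E: existence by a fixed point -/

/-- Schwarz integral of a continuous function on the unit circle. -/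
noncomputable def Wh (h : ℂ → ℝ) (z : ℂ) : ℂ :=
  Real.circleAverage (fun ζ => herglotzRieszKernel 0 z ζ • (h ζ : ℂ)) 0 1

/-- The Schwarz integral is holomorphic and its real part has the boundary values `h`. -/
def PO : Prop := ∀ h : ℂ → ℝ, ContinuousOn h (sphere 0 1) →
  DifferentiableOn ℂ (Wh h) (ball 0 1) ∧
  ContinuousOn (fun z => if ‖z‖ < 1 then (Wh h z).re else h z) (closedBall 0 1)

/-- Continuous dependence of the Schwarz integral. -/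
def PB : Prop := ∀ (h h' : ℂ → ℝ) (ε : ℝ) (z : ℂ), ContinuousOn h (sphere 0 1) →
  ContinuousOn h' (sphere 0 1) → (∀ ζ ∈ sphere (0 : ℂ) 1, |h ζ - h' ζ| ≤ ε) → ‖z‖ < 1 →
  ‖Wh h z - Wh h' z‖ ≤ 2 / (1 - ‖z‖) * ε

/-- The operator: the primitive of `P exp W`. -/
noncomputable def Op (P : ℂ → ℂ) (k : ℂ → ℝ) (z : ℂ) : ℂ :=
  ∫ t in (0 : ℝ)..1, z * (P (t * z) * Complex.exp (Wh (fun ζ => Real.log (k ζ / ‖P ζ‖)) (t * z)))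

/-- Properties of the operator. -/
def ST : Prop := ∀ (P : ℂ → ℂ) (k : ℂ → ℝ) (M : ℝ), Differentiable ℂ P →
  (∀ ζ ∈ sphere (0 : ℂ) 1, P ζ ≠ 0) → ContinuousOn k (sphere 0 1) →
  (∀ ζ ∈ sphere (0 : ℂ) 1, 0 < k ζ ∧ k ζ ≤ M) →
  DifferentiableOn ℂ (Op P k) (ball 0 1) ∧ Op P k 0 = 0 ∧
  (∀ z ∈ ball (0 : ℂ) 1, deriv (Op P k) z =
    P z * Complex.exp (Wh (fun ζ => Real.log (k ζ / ‖P ζ‖)) z)) ∧
  (∀ z ∈ ball (0 : ℂ) 1, ‖deriv (Op P k) z‖ ≤ M) ∧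
  ContinuousOn (fun z => if ‖z‖ < 1 then ‖deriv (Op P k) z‖ else k z) (closedBall 0 1)

/-- Continuity of the operator. -/
def SC : Prop := ∀ (P : ℂ → ℂ) (k : ℂ → ℝ), Differentiable ℂ P →
  (∀ ζ ∈ sphere (0 : ℂ) 1, P ζ ≠ 0) → ContinuousOn k (sphere 0 1) →
  (∀ ζ ∈ sphere (0 : ℂ) 1, 0 < k ζ) → ∀ z ∈ ball (0 : ℂ) 1, ∀ ε : ℝ, 0 < ε →
  ∃ δ : ℝ, 0 < δ ∧ ∀ k' : ℂ → ℝ, ContinuousOn k' (sphere 0 1) →
    (∀ ζ ∈ sphere (0 : ℂ) 1, 0 < k' ζ ∧ |k' ζ - k ζ| ≤ δ) → ‖Op P k' z - Op P k z‖ ≤ ε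

/-- Fixed point. -/
def FP : Prop := ∀ (P : ℂ → ℂ) (Φ : ℂ → ℝ) (M : ℝ), Differentiable ℂ P →
  (∀ ζ ∈ sphere (0 : ℂ) 1, P ζ ≠ 0) → Continuous Φ → (∀ w, 0 < Φ w ∧ Φ w ≤ 1) → 0 < M →
  ∃ f : ℂ → ℂ, ContinuousOn f (closedBall 0 1) ∧
    ∀ z ∈ ball (0 : ℂ) 1, f z = Op P (fun ζ => M * Φ (f ζ)) z

/-- The modified weight: `-log (1 - t)` continued by a steeper line. -/
noncomputable def gg (t0 t : ℝ) : ℝ :=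
  if t ≤ t0 then -Real.log (1 - t) else -Real.log (1 - t0) + 2 / (1 - t0) * (t - t0)

/-- The modified weight. -/
noncomputable def Ph (t0 : ℝ) (w : ℂ) : ℝ := Real.exp (-gg t0 (‖w‖ ^ 2))

def PH : Prop := ∀ t0 : ℝ, 0 < t0 → t0 < 1 → Continuous (Ph t0) ∧
  (∀ w, 0 < Ph t0 w ∧ Ph t0 w ≤ 1) ∧ ∀ w : ℂ, ‖w‖ ^ 2 ≤ t0 → Ph t0 w = 1 - ‖w‖ ^ 2

/-- Interior gradient bound. -/
def AP : Prop := ∀ (t0 M : ℝ) (f : ℂ → ℂ), 0 < t0 → t0 < 1 → 0 < M →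
  ContinuousOn f (closedBall 0 1) → DifferentiableOn ℂ f (ball 0 1) →
  ContinuousOn (fun z => if ‖z‖ < 1 then ‖deriv f z‖ else M * Ph t0 (f z)) (closedBall 0 1) →
  ∀ z ∈ ball (0 : ℂ) 1, ‖deriv f z‖ ≤ M * Ph t0 (f z)

/-- The image stays in a smaller disc. -/
def AQ : Prop := ∀ (M : ℝ) (f : ℂ → ℂ), 0 < M → DifferentiableOn ℂ f (ball 0 1) → f 0 = 0 →
  (∀ z ∈ ball (0 : ℂ) 1, ‖deriv f z‖ ≤ M * Ph (Real.tanh (M + 1) ^ 2) (f z)) →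
  ∀ z ∈ ball (0 : ℂ) 1, ‖f z‖ ≤ Real.tanh (M + 1)

/-- Existence in the unit disc. -/
def EX1 : Prop := ∀ (P : ℂ → ℂ) (M : ℝ), Differentiable ℂ P →
  (∀ ζ ∈ sphere (0 : ℂ) 1, P ζ ≠ 0) → 0 < M → ∃ (f E : ℂ → ℂ) (L : ℂ → ℝ),
    DifferentiableOn ℂ f (ball 0 1) ∧ f 0 = 0 ∧ (∀ z ∈ ball (0 : ℂ) 1, ‖f z‖ < 1) ∧
    DifferentiableOn ℂ E (ball 0 1) ∧ (∀ z ∈ ball (0 : ℂ) 1, deriv f z = P z * Complex.exp (E z)) ∧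
    ContinuousOn L (closedBall 0 1) ∧ (∀ z ∈ ball (0 : ℂ) 1, L z = lam f z) ∧
    ∀ z ∈ sphere (0 : ℂ) 1, L z = M

/-- Existence in a smaller disc for a given critical set. -/
def EXR : Prop := ∀ (m : ℂ → ℕ) (r M : ℝ), Crit m → 0 < r → r < 1 → 0 < M →
  ∃ (f : ℂ → ℂ) (L : ℂ → ℝ), DifferentiableOn ℂ f (ball 0 r) ∧ f 0 = 0 ∧
    (∀ z ∈ ball (0 : ℂ) r, ‖f z‖ < 1) ∧
    (∀ z ∈ ball (0 : ℂ) r, analyticOrderAt (deriv f) z = m z) ∧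
    ContinuousOn L (closedBall 0 r) ∧ (∀ z ∈ ball (0 : ℂ) r, L z = lam f z) ∧
    ∀ z ∈ sphere (0 : ℂ) r, L z = M

/-- Montel's theorem in the unit disc. -/
def MO : Prop := ∀ g : ℕ → ℂ → ℂ, (∀ n, DifferentiableOn ℂ (g n) (ball 0 1)) →
  (∀ n, ∀ z ∈ ball (0 : ℂ) 1, ‖g n z‖ ≤ 1) → ∃ (φ : ℕ → ℕ) (G : ℂ → ℂ), StrictMono φ ∧
    DifferentiableOn ℂ G (ball 0 1) ∧
    TendstoLocallyUniformlyOn (fun n => g (φ n)) G atTop (ball 0 1)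

/-- Existence of universal functions. -/
def UM : Prop := ∀ m : ℂ → ℕ, Crit m → ∃ F, Univ m F

/-! ### Group R: rigidity -/

/-- Strong maximum principle. -/
def SMP : Prop := ∀ (u : ℂ → ℝ) (R K : ℝ), 0 < R → (∀ z ∈ ball (0 : ℂ) R, ContDiffAt ℝ 2 u z) →
  (∀ z ∈ ball (0 : ℂ) R, 0 ≤ u z) → u 0 = 0 → (∀ z ∈ ball (0 : ℂ) R, lap u z ≤ K * u z) →
  ∃ R' : ℝ, 0 < R' ∧ ∀ z ∈ ball (0 : ℂ) R', u z = 0

/-- Functions with the same pull-back metric. -/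
def RG : Prop := ∀ f F : ℂ → ℂ, DifferentiableOn ℂ f (ball 0 1) →
  (∀ z ∈ ball (0 : ℂ) 1, ‖f z‖ < 1) → DifferentiableOn ℂ F (ball 0 1) →
  (∀ z ∈ ball (0 : ℂ) 1, ‖F z‖ < 1) →
  (∃ z0 ∈ ball (0 : ℂ) 1, deriv F z0 ≠ 0 ∧ ∀ᶠ z in 𝓝 z0, lam f z = lam F z) →
  ∃ T, IsAut T ∧ ∀ z ∈ ball (0 : ℂ) 1, f z = T (F z)

/-- Automorphisms. -/
def AU : Prop := ∀ T, IsAut T → DifferentiableOn ℂ T (ball 0 1) ∧
  (∀ w : ℂ, ‖w‖ < 1 → ‖T w‖ < 1) ∧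
  (∀ (f : ℂ → ℂ) (z : ℂ), AnalyticAt ℂ f z → ‖f z‖ < 1 → lam (fun w => T (f w)) z = lam f z) ∧
  (∀ S, IsAut S → ∃ R, IsAut R ∧ ∀ w : ℂ, ‖w‖ < 1 → T (S w) = R w) ∧
  ∃ S, IsAut S ∧ ∀ w : ℂ, ‖w‖ < 1 → S (T w) = w ∧ T (S w) = w

/-- The leading coefficient. -/
def EA : Prop := ∀ (m : ℂ → ℕ) (F : ℂ → ℂ), Univ m F → ∀ f, Fam m f →
  ‖iteratedDeriv (m 0 + 1) f 0‖ ≤ (1 - ‖f 0‖ ^ 2) * ‖iteratedDeriv (m 0 + 1) F 0‖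

/-- The case of equality. -/
def EB : Prop := ∀ (m : ℂ → ℕ) (F : ℂ → ℂ), Univ m F → ∀ f, Fam m f → f 0 = 0 →
  ‖iteratedDeriv (m 0 + 1) f 0‖ = ‖iteratedDeriv (m 0 + 1) F 0‖ →
  ∃ c : ℂ, ‖c‖ = 1 ∧ ∀ z ∈ ball (0 : ℂ) 1, f z = c * F z

/-- Extremal functions exist, are unique and universal. -/
def EC : Prop := ∀ m : ℂ → ℕ, Crit m → ∃ F, Univ m F ∧ Ext m F ∧
  ∀ f, Ext m f → ∀ z ∈ ball (0 : ℂ) 1, f z = F z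

/-- The theorem. -/
def FIN : Prop := ∀ A B C : ℂ → ℂ, DifferentiableOn ℂ B (ball 0 1) →
  (∀ z ∈ ball (0 : ℂ) 1, ‖B z‖ ≤ 1) → DifferentiableOn ℂ C (ball 0 1) →
  (∀ z ∈ ball (0 : ℂ) 1, ‖C z‖ < 1) → (∀ z ∈ ball (0 : ℂ) 1, A z = B (C z)) → MBP A → MBP C

/-- Remark on the printed form. -/
def LIT : Prop := MBP (fun z => z) ∧ ¬ MBP (fun z => z / 2)

end Q94.KR
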